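import Pool.Agent.Gen.F5.X123D1Cm1.S000
import Pool.Agent.Gen.F5.X123D1Cm1.S001
import Pool.Agent.Gen.F5.X123D1Cm1.S002
import Pool.Agent.Gen.F5.X123D1Cm1.S003

set_option autoImplicit false
set_option maxRecDepth 100000

namespace Pool.Agent.Gen.F5.X123D1Cm1

open Pool.Agent.Helper72.F5

def n0 : Cl (O (nat_lit 1)) (R (nat_lit 6353))
    (p (nat_lit 0x100004) (nat_lit 0) (p (nat_lit 0x101) (nat_lit 1) (p (nat_lit 0x109) (nat_lit 0) (p (nat_lit 0xa0b09890a9a) (nat_lit 0) (p (nat_lit 0x98a8908881a) (nat_lit 0) (p (nat_lit 0x2a825890888098a) (nat_lit 0) (p (nat_lit 0x2a825888807870a) (nat_lit 0) (p (nat_lit 0xb0014) (nat_lit 0) (p (nat_lit 0xb000c) (nat_lit 1) (p (nat_lit 0x111) (nat_lit 0) (p (nat_lit 0x200004) (nat_lit 0) (p (nat_lit 0xc9) (nat_lit 1) (p (nat_lit 0x81) (nat_lit 0) (p (nat_lit 0x101) (nat_lit 1) (p (nat_lit 0x119) (nat_lit 0) (p (nat_lit 0xd1) (nat_lit 0) (p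 (nat_lit 0x89) (nat_lit 0) (p (nat_lit 0x41) (nat_lit 0) (p (nat_lit 0x8090787089a) (nat_lit 0) (p (nat_lit 0x7888706861a) (nat_lit 0) (p (nat_lit 0x800070686078a) (nat_lit 0) (p (nat_lit 0x800068605850a) (nat_lit 0) (p (nat_lit 0x705850682) (nat_lit 0) (p (nat_lit 0x685048402) (nat_lit 0) (p (nat_lit 0x160014) (nat_lit 0) (p (nat_lit 0x16000c) (nat_lit 0) (p (nat_lit 0x60592) (nat_lit 0) (p (nat_lit 0x48512) (nat_lit 0) (p (nat_lit 0x50392) (nat_lit 0) (p (nat_lit 0x38312) (nat_lit 0) (p (nat_lit 0x40212) (nat_lit 0) (p (nat_lit 0x28192) (nat_lit 0) (p (nat_lit 0x30092) (nat_lit 0) (p (nat_lit 0x18012) (nat_lit 0) pn)))))))))))))))))))))))))))))))))) :=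
  Cl.node (nat_lit 0x10800c) (nat_lit 2) (by decide +kernel) (ClAll.succ (ClAll.succ ClAll.zero s14) s15)

def n1 : Cl (O (nat_lit 1)) (R (nat_lit 6353))
    (p (nat_lit 0x101) (nat_lit 1) (p (nat_lit 0xc1) (nat_lit 1) (p (nat_lit 0xa0b09890a9a) (nat_lit 0) (p (nat_lit 0x98a8908881a) (nat_lit 0) (p (nat_lit 0x2a825890888098a) (nat_lit 0) (p (nat_lit 0x2a825888807870a) (nat_lit 0) (p (nat_lit 0xb0014) (nat_lit 0) (p (nat_lit 0xb000c) (nat_lit 1) (p (nat_lit 0x111) (nat_lit 0) (p (nat_lit 0x200004) (nat_lit 0) (p (nat_lit 0xc9) (nat_lit 0) (p (nat_lit 0x81) (nat_lit 0) (p (nat_lit 0x101) (nat_lit 1) (p (nat_lit 0x119) (nat_lit 0) (p (nat_lit 0xd1) (nat_lit 0) (p (nat_lit 0x89) (nat_lit 0) (p (nat_lit 0x41) (nat_lit 0) (p (nat_lit 0x8090787089a) (nat_lit 0) (p (nat_lit 0x7888706861a) (nat_lit 0) (p (nat_lit 0x800070686078a) (nat_lit 0) (p (nat_lit 0x800068605850a) (nat_lit 0)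 (p (nat_lit 0x705850682) (nat_lit 0) (p (nat_lit 0x685048402) (nat_lit 0) (p (nat_lit 0x160014) (nat_lit 0) (p (nat_lit 0x16000c) (nat_lit 0) (p (nat_lit 0x60592) (nat_lit 0) (p (nat_lit 0x48512) (nat_lit 0) (p (nat_lit 0x50392) (nat_lit 0) (p (nat_lit 0x38312) (nat_lit 0) (p (nat_lit 0x40212) (nat_lit 0) (p (nat_lit 0x28192) (nat_lit 0) (p (nat_lit 0x30092) (nat_lit 0) (p (nat_lit 0x18012) (nat_lit 0) pn))))))))))))))))))))))))))))))))) :=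
  Cl.node (nat_lit 0x100004) (nat_lit 2) (by decide +kernel) (ClAll.succ (ClAll.succ ClAll.zero s6) s7)

def n2 : Cl (O (nat_lit 1)) (R (nat_lit 6353))
    (p (nat_lit 0x101) (nat_lit 1) (p (nat_lit 0x109) (nat_lit 0) (p (nat_lit 0xa0b09890a9a) (nat_lit 0) (p (nat_lit 0x98a8908881a) (nat_lit 0) (p (nat_lit 0x2a825890888098a) (nat_lit 0) (p (nat_lit 0x2a825888807870a) (nat_lit 0) (p (nat_lit 0xb0014) (nat_lit 0) (p (nat_lit 0xb000c) (nat_lit 1) (p (nat_lit 0x111) (nat_lit 0) (p (nat_lit 0x200004) (nat_lit 0) (p (nat_lit 0xc9) (nat_lit 1) (p (nat_lit 0x81) (nat_lit 0) (p (nat_lit 0x101) (nat_lit 1) (p (nat_lit 0x119) (nat_lit 0) (p (nat_lit 0xd1) (nat_lit 0) (p (nat_lit 0x89) (nat_lit 0) (p (nat_lit 0x41) (nat_lit 0) (p (nat_lit 0x8090787089a) (nat_lit 0) (p (nat_lit 0x7888706861a) (nat_lit 0) (p (nat_lit 0x800070686078a) (nat_lit 0) (p (nat_lit 0x800068605850a) (nat_lit 0)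 (p (nat_lit 0x705850682) (nat_lit 0) (p (nat_lit 0x685048402) (nat_lit 0) (p (nat_lit 0x160014) (nat_lit 0) (p (nat_lit 0x16000c) (nat_lit 0) (p (nat_lit 0x60592) (nat_lit 0) (p (nat_lit 0x48512) (nat_lit 0) (p (nat_lit 0x50392) (nat_lit 0) (p (nat_lit 0x38312) (nat_lit 0) (p (nat_lit 0x40212) (nat_lit 0) (p (nat_lit 0x28192) (nat_lit 0) (p (nat_lit 0x30092) (nat_lit 0) (p (nat_lit 0x18012) (nat_lit 0) pn))))))))))))))))))))))))))))))))) :=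
  Cl.node (nat_lit 0x100004) (nat_lit 2) (by decide +kernel) (ClAll.succ (ClAll.succ ClAll.zero n0) s16)

def n3 : Cl (O (nat_lit 1)) (R (nat_lit 6353))
    (p (nat_lit 0xc1) (nat_lit 1) (p (nat_lit 0xa0b09890a9a) (nat_lit 0) (p (nat_lit 0x98a8908881a) (nat_lit 0) (p (nat_lit 0x2a825890888098a) (nat_lit 0) (p (nat_lit 0x2a825888807870a) (nat_lit 0) (p (nat_lit 0xb0014) (nat_lit 0) (p (nat_lit 0xb000c) (nat_lit 1) (p (nat_lit 0x111) (nat_lit 0) (p (nat_lit 0x200004) (nat_lit 0) (p (nat_lit 0xc9) (nat_lit 0) (p (nat_lit 0x81) (nat_lit 0) (p (nat_lit 0x101) (nat_lit 1) (p (nat_lit 0x119) (nat_lit 0) (p (nat_lit 0xd1) (nat_lit 0) (p (nat_lit 0x89) (nat_lit 0) (p (nat_lit 0x41) (nat_lit 0) (p (nat_lit 0x8090787089a) (nat_lit 0) (p (nat_lit 0x7888706861a) (nat_lit 0) (p (nat_lit 0x800070686078a) (nat_lit 0) (p (nat_lit 0x800068605850a) (nat_lit 0) (p (nat_lit 0x705850682) (nat_lit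 0) (p (nat_lit 0x685048402) (nat_lit 0) (p (nat_lit 0x160014) (nat_lit 0) (p (nat_lit 0x16000c) (nat_lit 0) (p (nat_lit 0x60592) (nat_lit 0) (p (nat_lit 0x48512) (nat_lit 0) (p (nat_lit 0x50392) (nat_lit 0) (p (nat_lit 0x38312) (nat_lit 0) (p (nat_lit 0x40212) (nat_lit 0) (p (nat_lit 0x28192) (nat_lit 0) (p (nat_lit 0x30092) (nat_lit 0) (p (nat_lit 0x18012) (nat_lit 0) pn)))))))))))))))))))))))))))))))) :=
  Cl.node (nat_lit 0x101) (nat_lit 2) (by decide +kernel) (ClAll.succ (ClAll.succ ClAll.zero s5) n1)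

def n4 : Cl (O (nat_lit 1)) (R (nat_lit 6353))
    (p (nat_lit 0x109) (nat_lit 0) (p (nat_lit 0xa0b09890a9a) (nat_lit 0) (p (nat_lit 0x98a8908881a) (nat_lit 0) (p (nat_lit 0x2a825890888098a) (nat_lit 0) (p (nat_lit 0x2a825888807870a) (nat_lit 0) (p (nat_lit 0xb0014) (nat_lit 0) (p (nat_lit 0xb000c) (nat_lit 1) (p (nat_lit 0x111) (nat_lit 0) (p (nat_lit 0x200004) (nat_lit 0) (p (nat_lit 0xc9) (nat_lit 1) (p (nat_lit 0x81) (nat_lit 0) (p (nat_lit 0x101) (nat_lit 1) (p (nat_lit 0x119) (nat_lit 0) (p (nat_lit 0xd1) (nat_lit 0) (p (nat_lit 0x89) (nat_lit 0) (p (nat_lit 0x41) (nat_lit 0) (p (nat_lit 0x8090787089a) (nat_lit 0) (p (nat_lit 0x7888706861a) (nat_lit 0) (p (nat_lit 0x800070686078a) (nat_lit 0) (p (nat_lit 0x800068605850a) (nat_lit 0) (p (nat_lit 0x705850682) (nat_lit 0) (p (nat_lit 0x685048402) (nat_lit 0) (p (nat_lit 0x160014) (nat_lit 0) (p (nat_lit 0x16000c) (nat_lit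 0) (p (nat_lit 0x60592) (nat_lit 0) (p (nat_lit 0x48512) (nat_lit 0) (p (nat_lit 0x50392) (nat_lit 0) (p (nat_lit 0x38312) (nat_lit 0) (p (nat_lit 0x40212) (nat_lit 0) (p (nat_lit 0x28192) (nat_lit 0) (p (nat_lit 0x30092) (nat_lit 0) (p (nat_lit 0x18012) (nat_lit 0) pn)))))))))))))))))))))))))))))))) :=
  Cl.node (nat_lit 0x101) (nat_lit 2) (by decide +kernel) (ClAll.succ (ClAll.succ ClAll.zero s13) n2)

def n5 : Cl (O (nat_lit 1)) (R (nat_lit 6353))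
    (p (nat_lit 0x41) (nat_lit 1) (p (nat_lit 0xc9) (nat_lit 1) (p (nat_lit 0xa0b09890a9a) (nat_lit 0) (p (nat_lit 0x98a8908881a) (nat_lit 0) (p (nat_lit 0x2a825890888098a) (nat_lit 0) (p (nat_lit 0x2a825888807870a) (nat_lit 0) (p (nat_lit 0xb0014) (nat_lit 0) (p (nat_lit 0xb000c) (nat_lit 1) (p (nat_lit 0x200004) (nat_lit 0) (p (nat_lit 0x89) (nat_lit 1) (p (nat_lit 0x101) (nat_lit 1) (p (nat_lit 0xc1) (nat_lit 1) (p (nat_lit 0x119) (nat_lit 1) (p (nat_lit 0xd1) (nat_lit 0) (p (nat_lit 0x81) (nat_lit 0) (p (nat_lit 0x41) (nat_lit 1) (p (nat_lit 0x8090787089a) (nat_lit 0) (p (nat_lit 0x7888706861a) (nat_lit 0) (p (nat_lit 0x800070686078a) (nat_lit 0) (p (nat_lit 0x800068605850a) (nat_lit 0) (p (nat_lit 0x705850682) (nat_lit 0) (p (nat_lit 0x685048402) (nat_lit 0) (p (nat_lit 0x160014) (nat_lit 0) (p (nat_lit 0x16000c) (nat_lit 0) (p (nat_lit 0x60592) (nat_lit 0) (p (nat_lit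 0x48512) (nat_lit 0) (p (nat_lit 0x50392) (nat_lit 0) (p (nat_lit 0x38312) (nat_lit 0) (p (nat_lit 0x40212) (nat_lit 0) (p (nat_lit 0x28192) (nat_lit 0) (p (nat_lit 0x30092) (nat_lit 0) (p (nat_lit 0x18012) (nat_lit 0) pn)))))))))))))))))))))))))))))))) :=
  Cl.node (nat_lit 0xc1) (nat_lit 2) (by decide +kernel) (ClAll.succ (ClAll.succ ClAll.zero s137) s138)

def n6 : Cl (O (nat_lit 1)) (R (nat_lit 6353))
    (p (nat_lit 0xa0b09890a9a) (nat_lit 0) (p (nat_lit 0x98a8908881a) (nat_lit 0) (p (nat_lit 0x2a825890888098a) (nat_lit 0) (p (nat_lit 0x2a825888807870a) (nat_lit 0) (p (nat_lit 0xb0014) (nat_lit 0) (p (nat_lit 0xb000c) (nat_lit 1) (p (nat_lit 0x111) (nat_lit 0) (p (nat_lit 0x200004) (nat_lit 0) (p (nat_lit 0xc9) (nat_lit 0) (p (nat_lit 0x81) (nat_lit 0) (p (nat_lit 0x101) (nat_lit 1) (p (nat_lit 0x119) (nat_lit 0) (p (nat_lit 0xd1) (nat_lit 0) (p (nat_lit 0x89) (nat_lit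 0) (p (nat_lit 0x41) (nat_lit 0) (p (nat_lit 0x8090787089a) (nat_lit 0) (p (nat_lit 0x7888706861a) (nat_lit 0) (p (nat_lit 0x800070686078a) (nat_lit 0) (p (nat_lit 0x800068605850a) (nat_lit 0) (p (nat_lit 0x705850682) (nat_lit 0) (p (nat_lit 0x685048402) (nat_lit 0) (p (nat_lit 0x160014) (nat_lit 0) (p (nat_lit 0x16000c) (nat_lit 0) (p (nat_lit 0x60592) (nat_lit 0) (p (nat_lit 0x48512) (nat_lit 0) (p (nat_lit 0x50392) (nat_lit 0) (p (nat_lit 0x38312) (nat_lit 0) (p (nat_lit 0x40212) (nat_lit 0) (p (nat_lit 0x28192) (nat_lit 0) (p (nat_lit 0x30092) (nat_lit 0) (p (nat_lit 0x18012) (nat_lit 0) pn))))))))))))))))))))))))))))))) :=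
  Cl.node (nat_lit 0xc1) (nat_lit 2) (by decide +kernel) (ClAll.succ (ClAll.succ ClAll.zero s4) n3)

def n7 : Cl (O (nat_lit 1)) (R (nat_lit 6353))
    (p (nat_lit 0xa0b09890a9a) (nat_lit 0) (p (nat_lit 0x98a8908881a) (nat_lit 0) (p (nat_lit 0x2a825890888098a) (nat_lit 0) (p (nat_lit 0x2a825888807870a) (nat_lit 0) (p (nat_lit 0xb0014) (nat_lit 0) (p (nat_lit 0xb000c) (nat_lit 1) (p (nat_lit 0x111) (nat_lit 0) (p (nat_lit 0x200004) (nat_lit 0) (p (nat_lit 0xc9) (nat_lit 1) (p (nat_lit 0x81) (nat_lit 0) (p (nat_lit 0x101) (nat_lit 1) (p (nat_lit 0x119) (nat_lit 0) (p (nat_lit 0xd1) (nat_lit 0) (p (nat_lit 0x89) (nat_lit 0) (p (nat_lit 0x41) (nat_lit 0) (p (nat_lit 0x8090787089a) (nat_lit 0) (p (nat_lit 0x7888706861a) (nat_lit 0) (p (nat_lit 0x800070686078a) (nat_lit 0) (p (nat_lit 0x800068605850a) (nat_lit 0) (p (nat_lit 0x705850682) (nat_lit 0) (p (nat_lit 0x685048402) (nat_lit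 0) (p (nat_lit 0x160014) (nat_lit 0) (p (nat_lit 0x16000c) (nat_lit 0) (p (nat_lit 0x60592) (nat_lit 0) (p (nat_lit 0x48512) (nat_lit 0) (p (nat_lit 0x50392) (nat_lit 0) (p (nat_lit 0x38312) (nat_lit 0) (p (nat_lit 0x40212) (nat_lit 0) (p (nat_lit 0x28192) (nat_lit 0) (p (nat_lit 0x30092) (nat_lit 0) (p (nat_lit 0x18012) (nat_lit 0) pn))))))))))))))))))))))))))))))) :=
  Cl.node (nat_lit 0x109) (nat_lit 2) (by decide +kernel) (ClAll.succ (ClAll.succ ClAll.zero n4) s17)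

def n8 : Cl (O (nat_lit 1)) (R (nat_lit 6353))
    (p (nat_lit 0x41) (nat_lit 0) (p (nat_lit 0xa0b09890a9a) (nat_lit 0) (p (nat_lit 0x98a8908881a) (nat_lit 0) (p (nat_lit 0x2a825890888098a) (nat_lit 0) (p (nat_lit 0x2a825888807870a) (nat_lit 0) (p (nat_lit 0xb0014) (nat_lit 0) (p (nat_lit 0xb000c) (nat_lit 1) (p (nat_lit 0x200004) (nat_lit 0) (p (nat_lit 0x109) (nat_lit 1) (p (nat_lit 0xc9) (nat_lit 1) (p (nat_lit 0xc1) (nat_lit 0) (p (nat_lit 0x119) (nat_lit 1) (p (nat_lit 0xd1) (nat_lit 0) (p (nat_lit 0x89) (nat_lit 0) (p (nat_lit 0x41) (nat_lit 0) (p (nat_lit 0x8090787089a) (nat_lit 0) (p (nat_lit 0x7888706861a) (nat_lit 0) (p (nat_lit 0x800070686078a) (nat_lit 0) (p (nat_lit 0x800068605850a) (nat_lit 0) (p (nat_lit 0x705850682) (nat_lit 0) (p (nat_lit 0x685048402) (nat_lit 0) (p (nat_lit 0x160014) (nat_lit 0) (p (nat_lit 0x16000c) (nat_lit 0) (p (nat_lit 0x60592) (nat_lit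 0) (p (nat_lit 0x48512) (nat_lit 0) (p (nat_lit 0x50392) (nat_lit 0) (p (nat_lit 0x38312) (nat_lit 0) (p (nat_lit 0x40212) (nat_lit 0) (p (nat_lit 0x28192) (nat_lit 0) (p (nat_lit 0x30092) (nat_lit 0) (p (nat_lit 0x18012) (nat_lit 0) pn))))))))))))))))))))))))))))))) :=
  Cl.node (nat_lit 0x89) (nat_lit 2) (by decide +kernel) (ClAll.succ (ClAll.succ ClAll.zero s30) s31)

def n9 : Cl (O (nat_lit 1)) (R (nat_lit 6353))
    (p (nat_lit 0x81) (nat_lit 0) (p (nat_lit 0xa0b09890a9a) (nat_lit 0) (p (nat_lit 0x98a8908881a) (nat_lit 0) (p (nat_lit 0x2a825890888098a) (nat_lit 0) (p (nat_lit 0x2a825888807870a) (nat_lit 0) (p (nat_lit 0xb0014) (nat_lit 0) (p (nat_lit 0xb000c) (nat_lit 1) (p (nat_lit 0x200004) (nat_lit 0) (p (nat_lit 0x111) (nat_lit 1) (p (nat_lit 0xd1) (nat_lit 1) (p (nat_lit 0xc1) (nat_lit 0) (p (nat_lit 0x119) (nat_lit 1) (p (nat_lit 0xc9) (nat_lit 0) (p (nat_lit 0x89)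 (nat_lit 1) (p (nat_lit 0x41) (nat_lit 0) (p (nat_lit 0x8090787089a) (nat_lit 0) (p (nat_lit 0x7888706861a) (nat_lit 0) (p (nat_lit 0x800070686078a) (nat_lit 0) (p (nat_lit 0x800068605850a) (nat_lit 0) (p (nat_lit 0x705850682) (nat_lit 0) (p (nat_lit 0x685048402) (nat_lit 0) (p (nat_lit 0x160014) (nat_lit 0) (p (nat_lit 0x16000c) (nat_lit 0) (p (nat_lit 0x60592) (nat_lit 0) (p (nat_lit 0x48512) (nat_lit 0) (p (nat_lit 0x50392) (nat_lit 0) (p (nat_lit 0x38312) (nat_lit 0) (p (nat_lit 0x40212) (nat_lit 0) (p (nat_lit 0x28192) (nat_lit 0) (p (nat_lit 0x30092) (nat_lit 0) (p (nat_lit 0x18012) (nat_lit 0) pn))))))))))))))))))))))))))))))) :=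
  Cl.node (nat_lit 0x89) (nat_lit 2) (by decide +kernel) (ClAll.succ (ClAll.succ ClAll.zero s74) s75)

def n10 : Cl (O (nat_lit 1)) (R (nat_lit 6353))
    (p (nat_lit 0xa0b09890a9a) (nat_lit 0) (p (nat_lit 0x98a8908881a) (nat_lit 0) (p (nat_lit 0x2a825890888098a) (nat_lit 0) (p (nat_lit 0x2a825888807870a) (nat_lit 0) (p (nat_lit 0xb0014) (nat_lit 0) (p (nat_lit 0xb000c) (nat_lit 1) (p (nat_lit 0x200004) (nat_lit 0) (p (nat_lit 0xc9) (nat_lit 1) (p (nat_lit 0x89) (nat_lit 1) (p (nat_lit 0xc1) (nat_lit 0) (p (nat_lit 0x101) (nat_lit 1) (p (nat_lit 0x119) (nat_lit 0) (p (nat_lit 0xd1) (nat_lit 0) (p (nat_lit 0x81) (nat_lit 0) (p (nat_lit 0x41) (nat_lit 1) (p (nat_lit 0x8090787089a) (nat_lit 0) (p (nat_lit 0x7888706861a) (nat_lit 0) (p (nat_lit 0x800070686078a) (nat_lit 0) (p (nat_lit 0x800068605850a) (nat_lit 0) (p (nat_lit 0x705850682) (nat_lit 0) (p (nat_lit 0x685048402) (nat_lit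 0) (p (nat_lit 0x160014) (nat_lit 0) (p (nat_lit 0x16000c) (nat_lit 0) (p (nat_lit 0x60592) (nat_lit 0) (p (nat_lit 0x48512) (nat_lit 0) (p (nat_lit 0x50392) (nat_lit 0) (p (nat_lit 0x38312) (nat_lit 0) (p (nat_lit 0x40212) (nat_lit 0) (p (nat_lit 0x28192) (nat_lit 0) (p (nat_lit 0x30092) (nat_lit 0) (p (nat_lit 0x18012) (nat_lit 0) pn))))))))))))))))))))))))))))))) :=
  Cl.node (nat_lit 0x109) (nat_lit 2) (by decide +kernel) (ClAll.succ (ClAll.succ ClAll.zero s100) s101)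

def n11 : Cl (O (nat_lit 1)) (R (nat_lit 6353))
    (p (nat_lit 0xa0b09890a9a) (nat_lit 0) (p (nat_lit 0x98a8908881a) (nat_lit 0) (p (nat_lit 0x2a825890888098a) (nat_lit 0) (p (nat_lit 0x2a825888807870a) (nat_lit 0) (p (nat_lit 0xb0014) (nat_lit 0) (p (nat_lit 0xb000c) (nat_lit 1) (p (nat_lit 0x200004) (nat_lit 0) (p (nat_lit 0x109) (nat_lit 0) (p (nat_lit 0x89) (nat_lit 1) (p (nat_lit 0xc9) (nat_lit 1) (p (nat_lit 0xc1) (nat_lit 0) (p (nat_lit 0x119) (nat_lit 1) (p (nat_lit 0xd1) (nat_lit 0) (p (nat_lit 0x81) (nat_lit 0) (p (nat_lit 0x41) (nat_lit 1) (p (nat_lit 0x8090787089a) (nat_lit 0) (p (nat_lit 0x7888706861a) (nat_lit 0) (p (nat_lit 0x800070686078a) (nat_lit 0) (p (nat_lit 0x800068605850a) (nat_lit 0) (p (nat_lit 0x705850682) (nat_lit 0) (p (nat_lit 0x685048402) (nat_lit 0) (p (nat_lit 0x160014) (nat_lit 0) (p (nat_lit 0x16000c) (nat_lit 0) (p (nat_lit 0x60592) (nat_lit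 0) (p (nat_lit 0x48512) (nat_lit 0) (p (nat_lit 0x50392) (nat_lit 0) (p (nat_lit 0x38312) (nat_lit 0) (p (nat_lit 0x40212) (nat_lit 0) (p (nat_lit 0x28192) (nat_lit 0) (p (nat_lit 0x30092) (nat_lit 0) (p (nat_lit 0x18012) (nat_lit 0) pn))))))))))))))))))))))))))))))) :=
  Cl.node (nat_lit 0x111) (nat_lit 2) (by decide +kernel) (ClAll.succ (ClAll.succ ClAll.zero s113) s114)

def n12 : Cl (O (nat_lit 1)) (R (nat_lit 6353))
    (p (nat_lit 0xc9) (nat_lit 0) (p (nat_lit 0xa0b09890a9a) (nat_lit 0) (p (nat_lit 0x98a8908881a) (nat_lit 0) (p (nat_lit 0x2a825890888098a) (nat_lit 0) (p (nat_lit 0x2a825888807870a) (nat_lit 0) (p (nat_lit 0xb0014) (nat_lit 0) (p (nat_lit 0xb000c) (nat_lit 1) (p (nat_lit 0x200004) (nat_lit 0) (p (nat_lit 0x89) (nat_lit 1) (p (nat_lit 0x101) (nat_lit 1) (p (nat_lit 0xc1) (nat_lit 1) (p (nat_lit 0x119) (nat_lit 1) (p (nat_lit 0xd1) (nat_lit 0) (p (nat_lit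 0x81) (nat_lit 0) (p (nat_lit 0x41) (nat_lit 1) (p (nat_lit 0x8090787089a) (nat_lit 0) (p (nat_lit 0x7888706861a) (nat_lit 0) (p (nat_lit 0x800070686078a) (nat_lit 0) (p (nat_lit 0x800068605850a) (nat_lit 0) (p (nat_lit 0x705850682) (nat_lit 0) (p (nat_lit 0x685048402) (nat_lit 0) (p (nat_lit 0x160014) (nat_lit 0) (p (nat_lit 0x16000c) (nat_lit 0) (p (nat_lit 0x60592) (nat_lit 0) (p (nat_lit 0x48512) (nat_lit 0) (p (nat_lit 0x50392) (nat_lit 0) (p (nat_lit 0x38312) (nat_lit 0) (p (nat_lit 0x40212) (nat_lit 0) (p (nat_lit 0x28192) (nat_lit 0) (p (nat_lit 0x30092) (nat_lit 0) (p (nat_lit 0x18012) (nat_lit 0) pn))))))))))))))))))))))))))))))) :=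
  Cl.node (nat_lit 0xc1) (nat_lit 2) (by decide +kernel) (ClAll.succ (ClAll.succ ClAll.zero s134) s135)

def n13 : Cl (O (nat_lit 1)) (R (nat_lit 6353))
    (p (nat_lit 0xc9) (nat_lit 1) (p (nat_lit 0xa0b09890a9a) (nat_lit 0) (p (nat_lit 0x98a8908881a) (nat_lit 0) (p (nat_lit 0x2a825890888098a) (nat_lit 0) (p (nat_lit 0x2a825888807870a) (nat_lit 0) (p (nat_lit 0xb0014) (nat_lit 0) (p (nat_lit 0xb000c) (nat_lit 1) (p (nat_lit 0x200004) (nat_lit 0) (p (nat_lit 0x89) (nat_lit 1) (p (nat_lit 0x101) (nat_lit 1) (p (nat_lit 0xc1) (nat_lit 1) (p (nat_lit 0x119) (nat_lit 1) (p (nat_lit 0xd1) (nat_lit 0) (p (nat_lit 0x81) (nat_lit 0) (p (nat_lit 0x41) (nat_lit 1) (p (nat_lit 0x8090787089a) (nat_lit 0) (p (nat_lit 0x7888706861a) (nat_lit 0) (p (nat_lit 0x800070686078a) (nat_lit 0) (p (nat_lit 0x800068605850a) (nat_lit 0) (p (nat_lit 0x705850682) (nat_lit 0) (p (nat_lit 0x685048402)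 (nat_lit 0) (p (nat_lit 0x160014) (nat_lit 0) (p (nat_lit 0x16000c) (nat_lit 0) (p (nat_lit 0x60592) (nat_lit 0) (p (nat_lit 0x48512) (nat_lit 0) (p (nat_lit 0x50392) (nat_lit 0) (p (nat_lit 0x38312) (nat_lit 0) (p (nat_lit 0x40212) (nat_lit 0) (p (nat_lit 0x28192) (nat_lit 0) (p (nat_lit 0x30092) (nat_lit 0) (p (nat_lit 0x18012) (nat_lit 0) pn))))))))))))))))))))))))))))))) :=
  Cl.node (nat_lit 0x41) (nat_lit 2) (by decide +kernel) (ClAll.succ (ClAll.succ ClAll.zero s136) n5)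

def n14 : Cl (O (nat_lit 1)) (R (nat_lit 6353))
    (p (nat_lit 0x119) (nat_lit 1) (p (nat_lit 0xa0b09890a9a) (nat_lit 0) (p (nat_lit 0x98a8908881a) (nat_lit 0) (p (nat_lit 0x2a825890888098a) (nat_lit 0) (p (nat_lit 0x2a825888807870a) (nat_lit 0) (p (nat_lit 0xb0014) (nat_lit 0) (p (nat_lit 0xb000c) (nat_lit 1) (p (nat_lit 0x200004) (nat_lit 0) (p (nat_lit 0xc9) (nat_lit 0) (p (nat_lit 0x89) (nat_lit 1) (p (nat_lit 0x101) (nat_lit 1) (p (nat_lit 0x111) (nat_lit 0) (p (nat_lit 0xd1) (nat_lit 1) (p (nat_lit 0x81) (nat_lit 0) (p (nat_lit 0x41) (nat_lit 1) (p (nat_lit 0x8090787089a) (nat_lit 0) (p (nat_lit 0x7888706861a) (nat_lit 0) (p (nat_lit 0x800070686078a) (nat_lit 0) (p (nat_lit 0x800068605850a) (nat_lit 0) (p (nat_lit 0x705850682) (nat_lit 0) (p (nat_lit 0x685048402) (nat_lit 0) (p (nat_lit 0x160014) (nat_lit 0) (p (nat_lit 0x16000c) (nat_lit 0) (p (nat_lit 0x60592) (nat_lit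 0) (p (nat_lit 0x48512) (nat_lit 0) (p (nat_lit 0x50392) (nat_lit 0) (p (nat_lit 0x38312) (nat_lit 0) (p (nat_lit 0x40212) (nat_lit 0) (p (nat_lit 0x28192) (nat_lit 0) (p (nat_lit 0x30092) (nat_lit 0) (p (nat_lit 0x18012) (nat_lit 0) pn))))))))))))))))))))))))))))))) :=
  Cl.node (nat_lit 0xc1) (nat_lit 2) (by decide +kernel) (ClAll.succ (ClAll.succ ClAll.zero s153) s154)

def n15 : Cl (O (nat_lit 1)) (R (nat_lit 6353))
    (p (nat_lit 0x98a8908881a) (nat_lit 0) (p (nat_lit 0x2a825890888098a) (nat_lit 0) (p (nat_lit 0x2a825888807870a) (nat_lit 0) (p (nat_lit 0xb0014) (nat_lit 0) (p (nat_lit 0xb000c) (nat_lit 1) (p (nat_lit 0x111) (nat_lit 0) (p (nat_lit 0x200004) (nat_lit 0) (p (nat_lit 0xc9) (nat_lit 0) (p (nat_lit 0x81) (nat_lit 0) (p (nat_lit 0x101) (nat_lit 1) (p (nat_lit 0x119) (nat_lit 0) (p (nat_lit 0xd1) (nat_lit 0) (p (nat_lit 0x89) (nat_lit 0) (p (nat_lit 0x41)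 (nat_lit 0) (p (nat_lit 0x8090787089a) (nat_lit 0) (p (nat_lit 0x7888706861a) (nat_lit 0) (p (nat_lit 0x800070686078a) (nat_lit 0) (p (nat_lit 0x800068605850a) (nat_lit 0) (p (nat_lit 0x705850682) (nat_lit 0) (p (nat_lit 0x685048402) (nat_lit 0) (p (nat_lit 0x160014) (nat_lit 0) (p (nat_lit 0x16000c) (nat_lit 0) (p (nat_lit 0x60592) (nat_lit 0) (p (nat_lit 0x48512) (nat_lit 0) (p (nat_lit 0x50392) (nat_lit 0) (p (nat_lit 0x38312) (nat_lit 0) (p (nat_lit 0x40212) (nat_lit 0) (p (nat_lit 0x28192) (nat_lit 0) (p (nat_lit 0x30092) (nat_lit 0) (p (nat_lit 0x18012) (nat_lit 0) pn)))))))))))))))))))))))))))))) :=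
  Cl.node (nat_lit 0xa0b09890a9a) (nat_lit 1) (by decide +kernel) (ClAll.succ ClAll.zero n6)

def n16 : Cl (O (nat_lit 1)) (R (nat_lit 6353))
    (p (nat_lit 0x98a8908881a) (nat_lit 0) (p (nat_lit 0x2a825890888098a) (nat_lit 0) (p (nat_lit 0x2a825888807870a) (nat_lit 0) (p (nat_lit 0xb0014) (nat_lit 0) (p (nat_lit 0xb000c) (nat_lit 1) (p (nat_lit 0x111) (nat_lit 0) (p (nat_lit 0x200004) (nat_lit 0) (p (nat_lit 0xc9) (nat_lit 1) (p (nat_lit 0x81) (nat_lit 0) (p (nat_lit 0x101) (nat_lit 1) (p (nat_lit 0x119) (nat_lit 0) (p (nat_lit 0xd1) (nat_lit 0) (p (nat_lit 0x89) (nat_lit 0) (p (nat_lit 0x41) (nat_lit 0) (p (nat_lit 0x8090787089a) (nat_lit 0) (p (nat_lit 0x7888706861a) (nat_lit 0) (p (nat_lit 0x800070686078a) (nat_lit 0) (p (nat_lit 0x800068605850a) (nat_lit 0) (p (nat_lit 0x705850682) (nat_lit 0) (p (nat_lit 0x685048402) (nat_lit 0) (p (nat_lit 0x160014) (nat_lit 0) (p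 (nat_lit 0x16000c) (nat_lit 0) (p (nat_lit 0x60592) (nat_lit 0) (p (nat_lit 0x48512) (nat_lit 0) (p (nat_lit 0x50392) (nat_lit 0) (p (nat_lit 0x38312) (nat_lit 0) (p (nat_lit 0x40212) (nat_lit 0) (p (nat_lit 0x28192) (nat_lit 0) (p (nat_lit 0x30092) (nat_lit 0) (p (nat_lit 0x18012) (nat_lit 0) pn)))))))))))))))))))))))))))))) :=
  Cl.node (nat_lit 0xa0b09890a9a) (nat_lit 1) (by decide +kernel) (ClAll.succ ClAll.zero n7)

def n17 : Cl (O (nat_lit 1)) (R (nat_lit 6353))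
    (p (nat_lit 0xa0b09890a9a) (nat_lit 0) (p (nat_lit 0x98a8908881a) (nat_lit 0) (p (nat_lit 0x2a825890888098a) (nat_lit 0) (p (nat_lit 0x2a825888807870a) (nat_lit 0) (p (nat_lit 0xb0014) (nat_lit 0) (p (nat_lit 0xb000c) (nat_lit 1) (p (nat_lit 0x200004) (nat_lit 0) (p (nat_lit 0x109) (nat_lit 1) (p (nat_lit 0xc9) (nat_lit 1) (p (nat_lit 0xc1) (nat_lit 0) (p (nat_lit 0x119) (nat_lit 1) (p (nat_lit 0xd1) (nat_lit 0) (p (nat_lit 0x89) (nat_lit 0) (p (nat_lit 0x41) (nat_lit 0) (p (nat_lit 0x8090787089a) (nat_lit 0) (p (nat_lit 0x7888706861a) (nat_lit 0) (p (nat_lit 0x800070686078a) (nat_lit 0) (p (nat_lit 0x800068605850a) (nat_lit 0) (p (nat_lit 0x705850682) (nat_lit 0) (p (nat_lit 0x685048402) (nat_lit 0) (p (nat_lit 0x160014) (nat_lit 0) (p (nat_lit 0x16000c) (nat_lit 0) (p (nat_lit 0x60592) (nat_lit 0) (p (nat_lit 0x48512) (nat_lit 0) (p (nat_lit 0x50392) (nat_lit 0) (p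 (nat_lit 0x38312) (nat_lit 0) (p (nat_lit 0x40212) (nat_lit 0) (p (nat_lit 0x28192) (nat_lit 0) (p (nat_lit 0x30092) (nat_lit 0) (p (nat_lit 0x18012) (nat_lit 0) pn)))))))))))))))))))))))))))))) :=
  Cl.node (nat_lit 0x41) (nat_lit 2) (by decide +kernel) (ClAll.succ (ClAll.succ ClAll.zero n8) s32)

def n18 : Cl (O (nat_lit 1)) (R (nat_lit 6353))
    (p (nat_lit 0xa0b09890a9a) (nat_lit 0) (p (nat_lit 0x98a8908881a) (nat_lit 0) (p (nat_lit 0x2a825890888098a) (nat_lit 0) (p (nat_lit 0x2a825888807870a) (nat_lit 0) (p (nat_lit 0xb0014) (nat_lit 0) (p (nat_lit 0xb000c) (nat_lit 1) (p (nat_lit 0x200004) (nat_lit 0) (p (nat_lit 0x111) (nat_lit 1) (p (nat_lit 0xd1) (nat_lit 1) (p (nat_lit 0xc1) (nat_lit 0) (p (nat_lit 0x119) (nat_lit 1) (p (nat_lit 0xc9) (nat_lit 0) (p (nat_lit 0x89) (nat_lit 1) (p (nat_lit 0x41) (nat_lit 0) (p (nat_lit 0x8090787089a) (nat_lit 0) (p (nat_lit 0x7888706861a)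 (nat_lit 0) (p (nat_lit 0x800070686078a) (nat_lit 0) (p (nat_lit 0x800068605850a) (nat_lit 0) (p (nat_lit 0x705850682) (nat_lit 0) (p (nat_lit 0x685048402) (nat_lit 0) (p (nat_lit 0x160014) (nat_lit 0) (p (nat_lit 0x16000c) (nat_lit 0) (p (nat_lit 0x60592) (nat_lit 0) (p (nat_lit 0x48512) (nat_lit 0) (p (nat_lit 0x50392) (nat_lit 0) (p (nat_lit 0x38312) (nat_lit 0) (p (nat_lit 0x40212) (nat_lit 0) (p (nat_lit 0x28192) (nat_lit 0) (p (nat_lit 0x30092) (nat_lit 0) (p (nat_lit 0x18012) (nat_lit 0) pn)))))))))))))))))))))))))))))) :=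
  Cl.node (nat_lit 0x81) (nat_lit 2) (by decide +kernel) (ClAll.succ (ClAll.succ ClAll.zero n9) s76)

def n19 : Cl (O (nat_lit 1)) (R (nat_lit 6353))
    (p (nat_lit 0x98a8908881a) (nat_lit 0) (p (nat_lit 0x2a825890888098a) (nat_lit 0) (p (nat_lit 0x2a825888807870a) (nat_lit 0) (p (nat_lit 0xb0014) (nat_lit 0) (p (nat_lit 0xb000c) (nat_lit 1) (p (nat_lit 0x200004) (nat_lit 0) (p (nat_lit 0xc9) (nat_lit 1) (p (nat_lit 0x89) (nat_lit 1) (p (nat_lit 0xc1) (nat_lit 0) (p (nat_lit 0x101) (nat_lit 1) (p (nat_lit 0x119) (nat_lit 0) (p (nat_lit 0xd1) (nat_lit 0) (p (nat_lit 0x81) (nat_lit 0) (p (nat_lit 0x41) (nat_lit 1) (p (nat_lit 0x8090787089a) (nat_lit 0) (p (nat_lit 0x7888706861a) (nat_lit 0) (p (nat_lit 0x800070686078a) (nat_lit 0) (p (nat_lit 0x800068605850a) (nat_lit 0) (p (nat_lit 0x705850682) (nat_lit 0) (p (nat_lit 0x685048402) (nat_lit 0) (p (nat_lit 0x160014) (nat_lit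 0) (p (nat_lit 0x16000c) (nat_lit 0) (p (nat_lit 0x60592) (nat_lit 0) (p (nat_lit 0x48512) (nat_lit 0) (p (nat_lit 0x50392) (nat_lit 0) (p (nat_lit 0x38312) (nat_lit 0) (p (nat_lit 0x40212) (nat_lit 0) (p (nat_lit 0x28192) (nat_lit 0) (p (nat_lit 0x30092) (nat_lit 0) (p (nat_lit 0x18012) (nat_lit 0) pn)))))))))))))))))))))))))))))) :=
  Cl.node (nat_lit 0xa0b09890a9a) (nat_lit 1) (by decide +kernel) (ClAll.succ ClAll.zero n10)

def n20 : Cl (O (nat_lit 1)) (R (nat_lit 6353))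
    (p (nat_lit 0xa0b09890a9a) (nat_lit 0) (p (nat_lit 0x98a8908881a) (nat_lit 0) (p (nat_lit 0x2a825890888098a) (nat_lit 0) (p (nat_lit 0x2a825888807870a) (nat_lit 0) (p (nat_lit 0xb0014) (nat_lit 0) (p (nat_lit 0xb000c) (nat_lit 1) (p (nat_lit 0x200004) (nat_lit 0) (p (nat_lit 0x89) (nat_lit 1) (p (nat_lit 0xc1) (nat_lit 1) (p (nat_lit 0x101) (nat_lit 1) (p (nat_lit 0x119) (nat_lit 0) (p (nat_lit 0xd1) (nat_lit 0) (p (nat_lit 0x81) (nat_lit 0) (p (nat_lit 0x41) (nat_lit 1) (p (nat_lit 0x8090787089a) (nat_lit 0) (p (nat_lit 0x7888706861a) (nat_lit 0) (p (nat_lit 0x800070686078a) (nat_lit 0) (p (nat_lit 0x800068605850a) (nat_lit 0) (p (nat_lit 0x705850682) (nat_lit 0) (p (nat_lit 0x685048402) (nat_lit 0) (p (nat_lit 0x160014) (nat_lit 0) (p (nat_lit 0x16000c) (nat_lit 0) (p (nat_lit 0x60592) (nat_lit 0) (p (nat_lit 0x48512) (nat_lit 0) (p (nat_lit 0x50392) (nat_lit 0) (p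 (nat_lit 0x38312) (nat_lit 0) (p (nat_lit 0x40212) (nat_lit 0) (p (nat_lit 0x28192) (nat_lit 0) (p (nat_lit 0x30092) (nat_lit 0) (p (nat_lit 0x18012) (nat_lit 0) pn)))))))))))))))))))))))))))))) :=
  Cl.node (nat_lit 0x109) (nat_lit 2) (by decide +kernel) (ClAll.succ (ClAll.succ ClAll.zero s106) s107)

def n21 : Cl (O (nat_lit 1)) (R (nat_lit 6353))
    (p (nat_lit 0x98a8908881a) (nat_lit 0) (p (nat_lit 0x2a825890888098a) (nat_lit 0) (p (nat_lit 0x2a825888807870a) (nat_lit 0) (p (nat_lit 0xb0014) (nat_lit 0) (p (nat_lit 0xb000c) (nat_lit 1) (p (nat_lit 0x200004) (nat_lit 0) (p (nat_lit 0x109) (nat_lit 0) (p (nat_lit 0x89) (nat_lit 1) (p (nat_lit 0xc9) (nat_lit 1) (p (nat_lit 0xc1) (nat_lit 0) (p (nat_lit 0x119) (nat_lit 1) (p (nat_lit 0xd1) (nat_lit 0) (p (nat_lit 0x81) (nat_lit 0) (p (nat_lit 0x41) (nat_lit 1) (p (nat_lit 0x8090787089a) (nat_lit 0) (p (nat_lit 0x7888706861a)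 (nat_lit 0) (p (nat_lit 0x800070686078a) (nat_lit 0) (p (nat_lit 0x800068605850a) (nat_lit 0) (p (nat_lit 0x705850682) (nat_lit 0) (p (nat_lit 0x685048402) (nat_lit 0) (p (nat_lit 0x160014) (nat_lit 0) (p (nat_lit 0x16000c) (nat_lit 0) (p (nat_lit 0x60592) (nat_lit 0) (p (nat_lit 0x48512) (nat_lit 0) (p (nat_lit 0x50392) (nat_lit 0) (p (nat_lit 0x38312) (nat_lit 0) (p (nat_lit 0x40212) (nat_lit 0) (p (nat_lit 0x28192) (nat_lit 0) (p (nat_lit 0x30092) (nat_lit 0) (p (nat_lit 0x18012) (nat_lit 0) pn)))))))))))))))))))))))))))))) :=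
  Cl.node (nat_lit 0xa0b09890a9a) (nat_lit 1) (by decide +kernel) (ClAll.succ ClAll.zero n11)

def n22 : Cl (O (nat_lit 1)) (R (nat_lit 6353))
    (p (nat_lit 0xa0b09890a9a) (nat_lit 0) (p (nat_lit 0x98a8908881a) (nat_lit 0) (p (nat_lit 0x2a825890888098a) (nat_lit 0) (p (nat_lit 0x2a825888807870a) (nat_lit 0) (p (nat_lit 0xb0014) (nat_lit 0) (p (nat_lit 0xb000c) (nat_lit 1) (p (nat_lit 0x200004) (nat_lit 0) (p (nat_lit 0x89) (nat_lit 1) (p (nat_lit 0x101) (nat_lit 1) (p (nat_lit 0xc1) (nat_lit 1) (p (nat_lit 0x119) (nat_lit 1) (p (nat_lit 0xd1) (nat_lit 0) (p (nat_lit 0x81) (nat_lit 0) (p (nat_lit 0x41) (nat_lit 1) (p (nat_lit 0x8090787089a) (nat_lit 0) (p (nat_lit 0x7888706861a) (nat_lit 0) (p (nat_lit 0x800070686078a) (nat_lit 0) (p (nat_lit 0x800068605850a) (nat_lit 0) (p (nat_lit 0x705850682) (nat_lit 0) (p (nat_lit 0x685048402) (nat_lit 0) (p (nat_lit 0x160014) (nat_lit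 0) (p (nat_lit 0x16000c) (nat_lit 0) (p (nat_lit 0x60592) (nat_lit 0) (p (nat_lit 0x48512) (nat_lit 0) (p (nat_lit 0x50392) (nat_lit 0) (p (nat_lit 0x38312) (nat_lit 0) (p (nat_lit 0x40212) (nat_lit 0) (p (nat_lit 0x28192) (nat_lit 0) (p (nat_lit 0x30092) (nat_lit 0) (p (nat_lit 0x18012) (nat_lit 0) pn)))))))))))))))))))))))))))))) :=
  Cl.node (nat_lit 0xc9) (nat_lit 2) (by decide +kernel) (ClAll.succ (ClAll.succ ClAll.zero n12) n13)

def n23 : Cl (O (nat_lit 1)) (R (nat_lit 6353))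
    (p (nat_lit 0xa0b09890a9a) (nat_lit 0) (p (nat_lit 0x98a8908881a) (nat_lit 0) (p (nat_lit 0x2a825890888098a) (nat_lit 0) (p (nat_lit 0x2a825888807870a) (nat_lit 0) (p (nat_lit 0xb0014) (nat_lit 0) (p (nat_lit 0xb000c) (nat_lit 1) (p (nat_lit 0x200004) (nat_lit 0) (p (nat_lit 0xc9) (nat_lit 0) (p (nat_lit 0x89) (nat_lit 1) (p (nat_lit 0x101) (nat_lit 1) (p (nat_lit 0x111) (nat_lit 0) (p (nat_lit 0xd1) (nat_lit 1) (p (nat_lit 0x81) (nat_lit 0) (p (nat_lit 0x41) (nat_lit 1) (p (nat_lit 0x8090787089a) (nat_lit 0) (p (nat_lit 0x7888706861a) (nat_lit 0) (p (nat_lit 0x800070686078a) (nat_lit 0) (p (nat_lit 0x800068605850a) (nat_lit 0) (p (nat_lit 0x705850682) (nat_lit 0) (p (nat_lit 0x685048402) (nat_lit 0) (p (nat_lit 0x160014) (nat_lit 0) (p (nat_lit 0x16000c) (nat_lit 0) (p (nat_lit 0x60592) (nat_lit 0) (p (nat_lit 0x48512) (nat_lit 0) (p (nat_lit 0x50392) (nat_lit 0) (p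 (nat_lit 0x38312) (nat_lit 0) (p (nat_lit 0x40212) (nat_lit 0) (p (nat_lit 0x28192) (nat_lit 0) (p (nat_lit 0x30092) (nat_lit 0) (p (nat_lit 0x18012) (nat_lit 0) pn)))))))))))))))))))))))))))))) :=
  Cl.node (nat_lit 0x119) (nat_lit 2) (by decide +kernel) (ClAll.succ (ClAll.succ ClAll.zero s152) n14)

def n24 : Cl (O (nat_lit 1)) (R (nat_lit 6353))
    (p (nat_lit 0xd1) (nat_lit 0) (p (nat_lit 0xa0b09890a9a) (nat_lit 0) (p (nat_lit 0x98a8908881a) (nat_lit 0) (p (nat_lit 0x2a825890888098a) (nat_lit 0) (p (nat_lit 0x2a825888807870a) (nat_lit 0) (p (nat_lit 0xb0014) (nat_lit 0) (p (nat_lit 0xb000c) (nat_lit 1) (p (nat_lit 0x200004) (nat_lit 0) (p (nat_lit 0x109) (nat_lit 1) (p (nat_lit 0xc9) (nat_lit 1) (p (nat_lit 0x119) (nat_lit 1) (p (nat_lit 0xc1) (nat_lit 0) (p (nat_lit 0x81) (nat_lit 1) (p (nat_lit 0x41) (nat_lit 1) (p (nat_lit 0x8090787089a) (nat_lit 0) (p (nat_lit 0x7888706861a)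 (nat_lit 0) (p (nat_lit 0x800070686078a) (nat_lit 0) (p (nat_lit 0x800068605850a) (nat_lit 0) (p (nat_lit 0x705850682) (nat_lit 0) (p (nat_lit 0x685048402) (nat_lit 0) (p (nat_lit 0x160014) (nat_lit 0) (p (nat_lit 0x16000c) (nat_lit 0) (p (nat_lit 0x60592) (nat_lit 0) (p (nat_lit 0x48512) (nat_lit 0) (p (nat_lit 0x50392) (nat_lit 0) (p (nat_lit 0x38312) (nat_lit 0) (p (nat_lit 0x40212) (nat_lit 0) (p (nat_lit 0x28192) (nat_lit 0) (p (nat_lit 0x30092) (nat_lit 0) (p (nat_lit 0x18012) (nat_lit 0) pn)))))))))))))))))))))))))))))) :=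
  Cl.node (nat_lit 0x41) (nat_lit 2) (by decide +kernel) (ClAll.succ (ClAll.succ ClAll.zero s181) s182)

def n25 : Cl (O (nat_lit 1)) (R (nat_lit 6353))
    (p (nat_lit 0x2a825890888098a) (nat_lit 0) (p (nat_lit 0x2a825888807870a) (nat_lit 0) (p (nat_lit 0xb0014) (nat_lit 0) (p (nat_lit 0xb000c) (nat_lit 1) (p (nat_lit 0x111) (nat_lit 0) (p (nat_lit 0x200004) (nat_lit 0) (p (nat_lit 0xc9) (nat_lit 0) (p (nat_lit 0x81) (nat_lit 0) (p (nat_lit 0x101) (nat_lit 1) (p (nat_lit 0x119) (nat_lit 0) (p (nat_lit 0xd1) (nat_lit 0) (p (nat_lit 0x89) (nat_lit 0) (p (nat_lit 0x41) (nat_lit 0) (p (nat_lit 0x8090787089a) (nat_lit 0) (p (nat_lit 0x7888706861a) (nat_lit 0) (p (nat_lit 0x800070686078a) (nat_lit 0) (p (nat_lit 0x800068605850a) (nat_lit 0) (p (nat_lit 0x705850682) (nat_lit 0) (p (nat_lit 0x685048402) (nat_lit 0) (p (nat_lit 0x160014) (nat_lit 0) (p (nat_lit 0x16000c) (nat_lit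 0) (p (nat_lit 0x60592) (nat_lit 0) (p (nat_lit 0x48512) (nat_lit 0) (p (nat_lit 0x50392) (nat_lit 0) (p (nat_lit 0x38312) (nat_lit 0) (p (nat_lit 0x40212) (nat_lit 0) (p (nat_lit 0x28192) (nat_lit 0) (p (nat_lit 0x30092) (nat_lit 0) (p (nat_lit 0x18012) (nat_lit 0) pn))))))))))))))))))))))))))))) :=
  Cl.node (nat_lit 0x98a8908881a) (nat_lit 1) (by decide +kernel) (ClAll.succ ClAll.zero n15)

def n26 : Cl (O (nat_lit 1)) (R (nat_lit 6353))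
    (p (nat_lit 0x2a825890888098a) (nat_lit 0) (p (nat_lit 0x2a825888807870a) (nat_lit 0) (p (nat_lit 0xb0014) (nat_lit 0) (p (nat_lit 0xb000c) (nat_lit 1) (p (nat_lit 0x111) (nat_lit 0) (p (nat_lit 0x200004) (nat_lit 0) (p (nat_lit 0xc9) (nat_lit 1) (p (nat_lit 0x81) (nat_lit 0) (p (nat_lit 0x101) (nat_lit 1) (p (nat_lit 0x119) (nat_lit 0) (p (nat_lit 0xd1) (nat_lit 0) (p (nat_lit 0x89) (nat_lit 0) (p (nat_lit 0x41) (nat_lit 0) (p (nat_lit 0x8090787089a) (nat_lit 0) (p (nat_lit 0x7888706861a) (nat_lit 0) (p (nat_lit 0x800070686078a) (nat_lit 0) (p (nat_lit 0x800068605850a) (nat_lit 0) (p (nat_lit 0x705850682) (nat_lit 0) (p (nat_lit 0x685048402) (nat_lit 0) (p (nat_lit 0x160014) (nat_lit 0) (p (nat_lit 0x16000c) (nat_lit 0) (p (nat_lit 0x60592) (nat_lit 0) (p (nat_lit 0x48512) (nat_lit 0) (p (nat_lit 0x50392) (nat_lit 0) (p (nat_lit 0x38312) (nat_lit 0) (p (nat_lit 0x40212)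 (nat_lit 0) (p (nat_lit 0x28192) (nat_lit 0) (p (nat_lit 0x30092) (nat_lit 0) (p (nat_lit 0x18012) (nat_lit 0) pn))))))))))))))))))))))))))))) :=
  Cl.node (nat_lit 0x98a8908881a) (nat_lit 1) (by decide +kernel) (ClAll.succ ClAll.zero n16)

def n27 : Cl (O (nat_lit 1)) (R (nat_lit 6353))
    (p (nat_lit 0x98a8908881a) (nat_lit 0) (p (nat_lit 0x2a825890888098a) (nat_lit 0) (p (nat_lit 0x2a825888807870a) (nat_lit 0) (p (nat_lit 0xb0014) (nat_lit 0) (p (nat_lit 0xb000c) (nat_lit 1) (p (nat_lit 0x200004) (nat_lit 0) (p (nat_lit 0x109) (nat_lit 1) (p (nat_lit 0xc9) (nat_lit 1) (p (nat_lit 0xc1) (nat_lit 0) (p (nat_lit 0x119) (nat_lit 1) (p (nat_lit 0xd1) (nat_lit 0) (p (nat_lit 0x89) (nat_lit 0) (p (nat_lit 0x41) (nat_lit 0) (p (nat_lit 0x8090787089a) (nat_lit 0) (p (nat_lit 0x7888706861a) (nat_lit 0) (p (nat_lit 0x800070686078a) (nat_lit 0) (p (nat_lit 0x800068605850a) (nat_lit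 0) (p (nat_lit 0x705850682) (nat_lit 0) (p (nat_lit 0x685048402) (nat_lit 0) (p (nat_lit 0x160014) (nat_lit 0) (p (nat_lit 0x16000c) (nat_lit 0) (p (nat_lit 0x60592) (nat_lit 0) (p (nat_lit 0x48512) (nat_lit 0) (p (nat_lit 0x50392) (nat_lit 0) (p (nat_lit 0x38312) (nat_lit 0) (p (nat_lit 0x40212) (nat_lit 0) (p (nat_lit 0x28192) (nat_lit 0) (p (nat_lit 0x30092) (nat_lit 0) (p (nat_lit 0x18012) (nat_lit 0) pn))))))))))))))))))))))))))))) :=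
  Cl.node (nat_lit 0xa0b09890a9a) (nat_lit 1) (by decide +kernel) (ClAll.succ ClAll.zero n17)

def n28 : Cl (O (nat_lit 1)) (R (nat_lit 6353))
    (p (nat_lit 0x98a8908881a) (nat_lit 0) (p (nat_lit 0x2a825890888098a) (nat_lit 0) (p (nat_lit 0x2a825888807870a) (nat_lit 0) (p (nat_lit 0xb0014) (nat_lit 0) (p (nat_lit 0xb000c) (nat_lit 1) (p (nat_lit 0x200004) (nat_lit 0) (p (nat_lit 0x111) (nat_lit 1) (p (nat_lit 0xd1) (nat_lit 1) (p (nat_lit 0xc1) (nat_lit 0) (p (nat_lit 0x119) (nat_lit 1) (p (nat_lit 0xc9) (nat_lit 0) (p (nat_lit 0x89) (nat_lit 1) (p (nat_lit 0x41) (nat_lit 0) (p (nat_lit 0x8090787089a) (nat_lit 0) (p (nat_lit 0x7888706861a) (nat_lit 0) (p (nat_lit 0x800070686078a) (nat_lit 0) (p (nat_lit 0x800068605850a) (nat_lit 0) (p (nat_lit 0x705850682) (nat_lit 0) (p (nat_lit 0x685048402) (nat_lit 0) (p (nat_lit 0x160014) (nat_lit 0) (p (nat_lit 0x16000c) (nat_lit 0)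 (p (nat_lit 0x60592) (nat_lit 0) (p (nat_lit 0x48512) (nat_lit 0) (p (nat_lit 0x50392) (nat_lit 0) (p (nat_lit 0x38312) (nat_lit 0) (p (nat_lit 0x40212) (nat_lit 0) (p (nat_lit 0x28192) (nat_lit 0) (p (nat_lit 0x30092) (nat_lit 0) (p (nat_lit 0x18012) (nat_lit 0) pn))))))))))))))))))))))))))))) :=
  Cl.node (nat_lit 0xa0b09890a9a) (nat_lit 1) (by decide +kernel) (ClAll.succ ClAll.zero n18)

def n29 : Cl (O (nat_lit 1)) (R (nat_lit 6353))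
    (p (nat_lit 0x2a825890888098a) (nat_lit 0) (p (nat_lit 0x2a825888807870a) (nat_lit 0) (p (nat_lit 0xb0014) (nat_lit 0) (p (nat_lit 0xb000c) (nat_lit 1) (p (nat_lit 0x200004) (nat_lit 0) (p (nat_lit 0xc9) (nat_lit 1) (p (nat_lit 0x89) (nat_lit 1) (p (nat_lit 0xc1) (nat_lit 0) (p (nat_lit 0x101) (nat_lit 1) (p (nat_lit 0x119) (nat_lit 0) (p (nat_lit 0xd1) (nat_lit 0) (p (nat_lit 0x81) (nat_lit 0) (p (nat_lit 0x41) (nat_lit 1) (p (nat_lit 0x8090787089a) (nat_lit 0) (p (nat_lit 0x7888706861a) (nat_lit 0) (p (nat_lit 0x800070686078a) (nat_lit 0) (p (nat_lit 0x800068605850a) (nat_lit 0) (p (nat_lit 0x705850682) (nat_lit 0) (p (nat_lit 0x685048402) (nat_lit 0) (p (nat_lit 0x160014) (nat_lit 0) (p (nat_lit 0x16000c) (nat_lit 0) (p (nat_lit 0x60592) (nat_lit 0) (p (nat_lit 0x48512) (nat_lit 0) (p (nat_lit 0x50392) (nat_lit 0) (p (nat_lit 0x38312) (nat_lit 0) (p (nat_lit 0x40212)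 (nat_lit 0) (p (nat_lit 0x28192) (nat_lit 0) (p (nat_lit 0x30092) (nat_lit 0) (p (nat_lit 0x18012) (nat_lit 0) pn))))))))))))))))))))))))))))) :=
  Cl.node (nat_lit 0x98a8908881a) (nat_lit 1) (by decide +kernel) (ClAll.succ ClAll.zero n19)

def n30 : Cl (O (nat_lit 1)) (R (nat_lit 6353))
    (p (nat_lit 0x98a8908881a) (nat_lit 0) (p (nat_lit 0x2a825890888098a) (nat_lit 0) (p (nat_lit 0x2a825888807870a) (nat_lit 0) (p (nat_lit 0xb0014) (nat_lit 0) (p (nat_lit 0xb000c) (nat_lit 1) (p (nat_lit 0x200004) (nat_lit 0) (p (nat_lit 0x89) (nat_lit 1) (p (nat_lit 0xc1) (nat_lit 1) (p (nat_lit 0x101) (nat_lit 1) (p (nat_lit 0x119) (nat_lit 0) (p (nat_lit 0xd1) (nat_lit 0) (p (nat_lit 0x81) (nat_lit 0) (p (nat_lit 0x41) (nat_lit 1) (p (nat_lit 0x8090787089a) (nat_lit 0) (p (nat_lit 0x7888706861a) (nat_lit 0) (p (nat_lit 0x800070686078a) (nat_lit 0) (p (nat_lit 0x800068605850a) (nat_lit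 0) (p (nat_lit 0x705850682) (nat_lit 0) (p (nat_lit 0x685048402) (nat_lit 0) (p (nat_lit 0x160014) (nat_lit 0) (p (nat_lit 0x16000c) (nat_lit 0) (p (nat_lit 0x60592) (nat_lit 0) (p (nat_lit 0x48512) (nat_lit 0) (p (nat_lit 0x50392) (nat_lit 0) (p (nat_lit 0x38312) (nat_lit 0) (p (nat_lit 0x40212) (nat_lit 0) (p (nat_lit 0x28192) (nat_lit 0) (p (nat_lit 0x30092) (nat_lit 0) (p (nat_lit 0x18012) (nat_lit 0) pn))))))))))))))))))))))))))))) :=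
  Cl.node (nat_lit 0xa0b09890a9a) (nat_lit 1) (by decide +kernel) (ClAll.succ ClAll.zero n20)

def n31 : Cl (O (nat_lit 1)) (R (nat_lit 6353))
    (p (nat_lit 0x2a825890888098a) (nat_lit 0) (p (nat_lit 0x2a825888807870a) (nat_lit 0) (p (nat_lit 0xb0014) (nat_lit 0) (p (nat_lit 0xb000c) (nat_lit 1) (p (nat_lit 0x200004) (nat_lit 0) (p (nat_lit 0x109) (nat_lit 0) (p (nat_lit 0x89) (nat_lit 1) (p (nat_lit 0xc9) (nat_lit 1) (p (nat_lit 0xc1) (nat_lit 0) (p (nat_lit 0x119) (nat_lit 1) (p (nat_lit 0xd1) (nat_lit 0) (p (nat_lit 0x81) (nat_lit 0) (p (nat_lit 0x41) (nat_lit 1) (p (nat_lit 0x8090787089a) (nat_lit 0) (p (nat_lit 0x7888706861a) (nat_lit 0) (p (nat_lit 0x800070686078a) (nat_lit 0) (p (nat_lit 0x800068605850a) (nat_lit 0) (p (nat_lit 0x705850682) (nat_lit 0) (p (nat_lit 0x685048402) (nat_lit 0) (p (nat_lit 0x160014) (nat_lit 0) (p (nat_lit 0x16000c) (nat_lit 0) (p (nat_lit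 0x60592) (nat_lit 0) (p (nat_lit 0x48512) (nat_lit 0) (p (nat_lit 0x50392) (nat_lit 0) (p (nat_lit 0x38312) (nat_lit 0) (p (nat_lit 0x40212) (nat_lit 0) (p (nat_lit 0x28192) (nat_lit 0) (p (nat_lit 0x30092) (nat_lit 0) (p (nat_lit 0x18012) (nat_lit 0) pn))))))))))))))))))))))))))))) :=
  Cl.node (nat_lit 0x98a8908881a) (nat_lit 1) (by decide +kernel) (ClAll.succ ClAll.zero n21)

def n32 : Cl (O (nat_lit 1)) (R (nat_lit 6353))
    (p (nat_lit 0x98a8908881a) (nat_lit 0) (p (nat_lit 0x2a825890888098a) (nat_lit 0) (p (nat_lit 0x2a825888807870a) (nat_lit 0) (p (nat_lit 0xb0014) (nat_lit 0) (p (nat_lit 0xb000c) (nat_lit 1) (p (nat_lit 0x200004) (nat_lit 0) (p (nat_lit 0x89) (nat_lit 1) (p (nat_lit 0x101) (nat_lit 1) (p (nat_lit 0xc1) (nat_lit 1) (p (nat_lit 0x119) (nat_lit 1) (p (nat_lit 0xd1) (nat_lit 0) (p (nat_lit 0x81) (nat_lit 0) (p (nat_lit 0x41) (nat_lit 1) (p (nat_lit 0x8090787089a)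 (nat_lit 0) (p (nat_lit 0x7888706861a) (nat_lit 0) (p (nat_lit 0x800070686078a) (nat_lit 0) (p (nat_lit 0x800068605850a) (nat_lit 0) (p (nat_lit 0x705850682) (nat_lit 0) (p (nat_lit 0x685048402) (nat_lit 0) (p (nat_lit 0x160014) (nat_lit 0) (p (nat_lit 0x16000c) (nat_lit 0) (p (nat_lit 0x60592) (nat_lit 0) (p (nat_lit 0x48512) (nat_lit 0) (p (nat_lit 0x50392) (nat_lit 0) (p (nat_lit 0x38312) (nat_lit 0) (p (nat_lit 0x40212) (nat_lit 0) (p (nat_lit 0x28192) (nat_lit 0) (p (nat_lit 0x30092) (nat_lit 0) (p (nat_lit 0x18012) (nat_lit 0) pn))))))))))))))))))))))))))))) :=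
  Cl.node (nat_lit 0xa0b09890a9a) (nat_lit 1) (by decide +kernel) (ClAll.succ ClAll.zero n22)

def n33 : Cl (O (nat_lit 1)) (R (nat_lit 6353))
    (p (nat_lit 0x98a8908881a) (nat_lit 0) (p (nat_lit 0x2a825890888098a) (nat_lit 0) (p (nat_lit 0x2a825888807870a) (nat_lit 0) (p (nat_lit 0xb0014) (nat_lit 0) (p (nat_lit 0xb000c) (nat_lit 1) (p (nat_lit 0x200004) (nat_lit 0) (p (nat_lit 0xc9) (nat_lit 0) (p (nat_lit 0x89) (nat_lit 1) (p (nat_lit 0x101) (nat_lit 1) (p (nat_lit 0x111) (nat_lit 0) (p (nat_lit 0xd1) (nat_lit 1) (p (nat_lit 0x81) (nat_lit 0) (p (nat_lit 0x41) (nat_lit 1) (p (nat_lit 0x8090787089a) (nat_lit 0) (p (nat_lit 0x7888706861a) (nat_lit 0) (p (nat_lit 0x800070686078a) (nat_lit 0) (p (nat_lit 0x800068605850a) (nat_lit 0) (p (nat_lit 0x705850682) (nat_lit 0) (p (nat_lit 0x685048402) (nat_lit 0) (p (nat_lit 0x160014) (nat_lit 0) (p (nat_lit 0x16000c) (nat_lit 0)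 (p (nat_lit 0x60592) (nat_lit 0) (p (nat_lit 0x48512) (nat_lit 0) (p (nat_lit 0x50392) (nat_lit 0) (p (nat_lit 0x38312) (nat_lit 0) (p (nat_lit 0x40212) (nat_lit 0) (p (nat_lit 0x28192) (nat_lit 0) (p (nat_lit 0x30092) (nat_lit 0) (p (nat_lit 0x18012) (nat_lit 0) pn))))))))))))))))))))))))))))) :=
  Cl.node (nat_lit 0xa0b09890a9a) (nat_lit 1) (by decide +kernel) (ClAll.succ ClAll.zero n23)

def n34 : Cl (O (nat_lit 1)) (R (nat_lit 6353))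
    (p (nat_lit 0xa0b09890a9a) (nat_lit 0) (p (nat_lit 0x98a8908881a) (nat_lit 0) (p (nat_lit 0x2a825890888098a) (nat_lit 0) (p (nat_lit 0x2a825888807870a) (nat_lit 0) (p (nat_lit 0xb0014) (nat_lit 0) (p (nat_lit 0xb000c) (nat_lit 1) (p (nat_lit 0x200004) (nat_lit 0) (p (nat_lit 0x109) (nat_lit 1) (p (nat_lit 0xc9) (nat_lit 1) (p (nat_lit 0x119) (nat_lit 1) (p (nat_lit 0xc1) (nat_lit 0) (p (nat_lit 0x81) (nat_lit 1) (p (nat_lit 0x41) (nat_lit 1) (p (nat_lit 0x8090787089a) (nat_lit 0) (p (nat_lit 0x7888706861a) (nat_lit 0) (p (nat_lit 0x800070686078a) (nat_lit 0) (p (nat_lit 0x800068605850a) (nat_lit 0) (p (nat_lit 0x705850682) (nat_lit 0) (p (nat_lit 0x685048402) (nat_lit 0) (p (nat_lit 0x160014) (nat_lit 0) (p (nat_lit 0x16000c) (nat_lit 0) (p (nat_lit 0x60592) (nat_lit 0) (p (nat_lit 0x48512) (nat_lit 0) (p (nat_lit 0x50392) (nat_lit 0) (p (nat_lit 0x38312) (nat_lit 0)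 (p (nat_lit 0x40212) (nat_lit 0) (p (nat_lit 0x28192) (nat_lit 0) (p (nat_lit 0x30092) (nat_lit 0) (p (nat_lit 0x18012) (nat_lit 0) pn))))))))))))))))))))))))))))) :=
  Cl.node (nat_lit 0xd1) (nat_lit 2) (by decide +kernel) (ClAll.succ (ClAll.succ ClAll.zero n24) s183)

def n35 : Cl (O (nat_lit 1)) (R (nat_lit 6353))
    (p (nat_lit 0x2a825888807870a) (nat_lit 0) (p (nat_lit 0xb0014) (nat_lit 0) (p (nat_lit 0xb000c) (nat_lit 1) (p (nat_lit 0x111) (nat_lit 0) (p (nat_lit 0x200004) (nat_lit 0) (p (nat_lit 0xc9) (nat_lit 0) (p (nat_lit 0x81) (nat_lit 0) (p (nat_lit 0x101) (nat_lit 1) (p (nat_lit 0x119) (nat_lit 0) (p (nat_lit 0xd1) (nat_lit 0) (p (nat_lit 0x89) (nat_lit 0) (p (nat_lit 0x41) (nat_lit 0) (p (nat_lit 0x8090787089a) (nat_lit 0) (p (nat_lit 0x7888706861a) (nat_lit 0) (p (nat_lit 0x800070686078a) (nat_lit 0) (p (nat_lit 0x800068605850a) (nat_lit 0) (p (nat_lit 0x705850682)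 (nat_lit 0) (p (nat_lit 0x685048402) (nat_lit 0) (p (nat_lit 0x160014) (nat_lit 0) (p (nat_lit 0x16000c) (nat_lit 0) (p (nat_lit 0x60592) (nat_lit 0) (p (nat_lit 0x48512) (nat_lit 0) (p (nat_lit 0x50392) (nat_lit 0) (p (nat_lit 0x38312) (nat_lit 0) (p (nat_lit 0x40212) (nat_lit 0) (p (nat_lit 0x28192) (nat_lit 0) (p (nat_lit 0x30092) (nat_lit 0) (p (nat_lit 0x18012) (nat_lit 0) pn)))))))))))))))))))))))))))) :=
  Cl.node (nat_lit 0x2a825890888098a) (nat_lit 1) (by decide +kernel) (ClAll.succ ClAll.zero n25)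

def n36 : Cl (O (nat_lit 1)) (R (nat_lit 6353))
    (p (nat_lit 0x2a825888807870a) (nat_lit 0) (p (nat_lit 0xb0014) (nat_lit 0) (p (nat_lit 0xb000c) (nat_lit 1) (p (nat_lit 0x111) (nat_lit 0) (p (nat_lit 0x200004) (nat_lit 0) (p (nat_lit 0xc9) (nat_lit 1) (p (nat_lit 0x81) (nat_lit 0) (p (nat_lit 0x101) (nat_lit 1) (p (nat_lit 0x119) (nat_lit 0) (p (nat_lit 0xd1) (nat_lit 0) (p (nat_lit 0x89) (nat_lit 0) (p (nat_lit 0x41) (nat_lit 0) (p (nat_lit 0x8090787089a) (nat_lit 0) (p (nat_lit 0x7888706861a) (nat_lit 0) (p (nat_lit 0x800070686078a) (nat_lit 0) (p (nat_lit 0x800068605850a) (nat_lit 0) (p (nat_lit 0x705850682) (nat_lit 0) (p (nat_lit 0x685048402) (nat_lit 0) (p (nat_lit 0x160014) (nat_lit 0) (p (nat_lit 0x16000c) (nat_lit 0) (p (nat_lit 0x60592) (nat_lit 0) (p (nat_lit 0x48512) (nat_lit 0) (p (nat_lit 0x50392) (nat_lit 0) (p (nat_lit 0x38312) (nat_lit 0) (p (nat_lit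 0x40212) (nat_lit 0) (p (nat_lit 0x28192) (nat_lit 0) (p (nat_lit 0x30092) (nat_lit 0) (p (nat_lit 0x18012) (nat_lit 0) pn)))))))))))))))))))))))))))) :=
  Cl.node (nat_lit 0x2a825890888098a) (nat_lit 1) (by decide +kernel) (ClAll.succ ClAll.zero n26)

def n37 : Cl (O (nat_lit 1)) (R (nat_lit 6353))
    (p (nat_lit 0x2a825890888098a) (nat_lit 0) (p (nat_lit 0x2a825888807870a) (nat_lit 0) (p (nat_lit 0xb0014) (nat_lit 0) (p (nat_lit 0xb000c) (nat_lit 1) (p (nat_lit 0x200004) (nat_lit 0) (p (nat_lit 0x109) (nat_lit 1) (p (nat_lit 0xc9) (nat_lit 1) (p (nat_lit 0xc1) (nat_lit 0) (p (nat_lit 0x119) (nat_lit 1) (p (nat_lit 0xd1) (nat_lit 0) (p (nat_lit 0x89) (nat_lit 0) (p (nat_lit 0x41) (nat_lit 0) (p (nat_lit 0x8090787089a) (nat_lit 0) (p (nat_lit 0x7888706861a) (nat_lit 0) (p (nat_lit 0x800070686078a) (nat_lit 0) (p (nat_lit 0x800068605850a) (nat_lit 0) (p (nat_lit 0x705850682)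 (nat_lit 0) (p (nat_lit 0x685048402) (nat_lit 0) (p (nat_lit 0x160014) (nat_lit 0) (p (nat_lit 0x16000c) (nat_lit 0) (p (nat_lit 0x60592) (nat_lit 0) (p (nat_lit 0x48512) (nat_lit 0) (p (nat_lit 0x50392) (nat_lit 0) (p (nat_lit 0x38312) (nat_lit 0) (p (nat_lit 0x40212) (nat_lit 0) (p (nat_lit 0x28192) (nat_lit 0) (p (nat_lit 0x30092) (nat_lit 0) (p (nat_lit 0x18012) (nat_lit 0) pn)))))))))))))))))))))))))))) :=
  Cl.node (nat_lit 0x98a8908881a) (nat_lit 1) (by decide +kernel) (ClAll.succ ClAll.zero n27)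

def n38 : Cl (O (nat_lit 1)) (R (nat_lit 6353))
    (p (nat_lit 0x2a825890888098a) (nat_lit 0) (p (nat_lit 0x2a825888807870a) (nat_lit 0) (p (nat_lit 0xb0014) (nat_lit 0) (p (nat_lit 0xb000c) (nat_lit 1) (p (nat_lit 0x200004) (nat_lit 0) (p (nat_lit 0x111) (nat_lit 1) (p (nat_lit 0xd1) (nat_lit 1) (p (nat_lit 0xc1) (nat_lit 0) (p (nat_lit 0x119) (nat_lit 1) (p (nat_lit 0xc9) (nat_lit 0) (p (nat_lit 0x89) (nat_lit 1) (p (nat_lit 0x41) (nat_lit 0) (p (nat_lit 0x8090787089a) (nat_lit 0) (p (nat_lit 0x7888706861a) (nat_lit 0) (p (nat_lit 0x800070686078a) (nat_lit 0) (p (nat_lit 0x800068605850a) (nat_lit 0) (p (nat_lit 0x705850682) (nat_lit 0) (p (nat_lit 0x685048402) (nat_lit 0) (p (nat_lit 0x160014) (nat_lit 0) (p (nat_lit 0x16000c) (nat_lit 0) (p (nat_lit 0x60592) (nat_lit 0) (p (nat_lit 0x48512) (nat_lit 0) (p (nat_lit 0x50392) (nat_lit 0) (p (nat_lit 0x38312) (nat_lit 0)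 (p (nat_lit 0x40212) (nat_lit 0) (p (nat_lit 0x28192) (nat_lit 0) (p (nat_lit 0x30092) (nat_lit 0) (p (nat_lit 0x18012) (nat_lit 0) pn)))))))))))))))))))))))))))) :=
  Cl.node (nat_lit 0x98a8908881a) (nat_lit 1) (by decide +kernel) (ClAll.succ ClAll.zero n28)

def n39 : Cl (O (nat_lit 1)) (R (nat_lit 6353))
    (p (nat_lit 0x2a825888807870a) (nat_lit 0) (p (nat_lit 0xb0014) (nat_lit 0) (p (nat_lit 0xb000c) (nat_lit 1) (p (nat_lit 0x200004) (nat_lit 0) (p (nat_lit 0xc9) (nat_lit 1) (p (nat_lit 0x89) (nat_lit 1) (p (nat_lit 0xc1) (nat_lit 0) (p (nat_lit 0x101) (nat_lit 1) (p (nat_lit 0x119) (nat_lit 0) (p (nat_lit 0xd1) (nat_lit 0) (p (nat_lit 0x81) (nat_lit 0) (p (nat_lit 0x41) (nat_lit 1) (p (nat_lit 0x8090787089a) (nat_lit 0) (p (nat_lit 0x7888706861a) (nat_lit 0) (p (nat_lit 0x800070686078a) (nat_lit 0) (p (nat_lit 0x800068605850a) (nat_lit 0) (p (nat_lit 0x705850682) (nat_lit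 0) (p (nat_lit 0x685048402) (nat_lit 0) (p (nat_lit 0x160014) (nat_lit 0) (p (nat_lit 0x16000c) (nat_lit 0) (p (nat_lit 0x60592) (nat_lit 0) (p (nat_lit 0x48512) (nat_lit 0) (p (nat_lit 0x50392) (nat_lit 0) (p (nat_lit 0x38312) (nat_lit 0) (p (nat_lit 0x40212) (nat_lit 0) (p (nat_lit 0x28192) (nat_lit 0) (p (nat_lit 0x30092) (nat_lit 0) (p (nat_lit 0x18012) (nat_lit 0) pn)))))))))))))))))))))))))))) :=
  Cl.node (nat_lit 0x2a825890888098a) (nat_lit 1) (by decide +kernel) (ClAll.succ ClAll.zero n29)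

def n40 : Cl (O (nat_lit 1)) (R (nat_lit 6353))
    (p (nat_lit 0x2a825890888098a) (nat_lit 0) (p (nat_lit 0x2a825888807870a) (nat_lit 0) (p (nat_lit 0xb0014) (nat_lit 0) (p (nat_lit 0xb000c) (nat_lit 1) (p (nat_lit 0x200004) (nat_lit 0) (p (nat_lit 0x89) (nat_lit 1) (p (nat_lit 0xc1) (nat_lit 1) (p (nat_lit 0x101) (nat_lit 1) (p (nat_lit 0x119) (nat_lit 0) (p (nat_lit 0xd1) (nat_lit 0) (p (nat_lit 0x81) (nat_lit 0) (p (nat_lit 0x41) (nat_lit 1) (p (nat_lit 0x8090787089a) (nat_lit 0) (p (nat_lit 0x7888706861a) (nat_lit 0) (p (nat_lit 0x800070686078a) (nat_lit 0) (p (nat_lit 0x800068605850a) (nat_lit 0) (p (nat_lit 0x705850682) (nat_lit 0) (p (nat_lit 0x685048402) (nat_lit 0) (p (nat_lit 0x160014) (nat_lit 0) (p (nat_lit 0x16000c) (nat_lit 0) (p (nat_lit 0x60592) (nat_lit 0) (p (nat_lit 0x48512) (nat_lit 0) (p (nat_lit 0x50392) (nat_lit 0) (p (nat_lit 0x38312) (nat_lit 0)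 (p (nat_lit 0x40212) (nat_lit 0) (p (nat_lit 0x28192) (nat_lit 0) (p (nat_lit 0x30092) (nat_lit 0) (p (nat_lit 0x18012) (nat_lit 0) pn)))))))))))))))))))))))))))) :=
  Cl.node (nat_lit 0x98a8908881a) (nat_lit 1) (by decide +kernel) (ClAll.succ ClAll.zero n30)

def n41 : Cl (O (nat_lit 1)) (R (nat_lit 6353))
    (p (nat_lit 0x2a825888807870a) (nat_lit 0) (p (nat_lit 0xb0014) (nat_lit 0) (p (nat_lit 0xb000c) (nat_lit 1) (p (nat_lit 0x200004) (nat_lit 0) (p (nat_lit 0x109) (nat_lit 0) (p (nat_lit 0x89) (nat_lit 1) (p (nat_lit 0xc9) (nat_lit 1) (p (nat_lit 0xc1) (nat_lit 0) (p (nat_lit 0x119) (nat_lit 1) (p (nat_lit 0xd1) (nat_lit 0) (p (nat_lit 0x81) (nat_lit 0) (p (nat_lit 0x41) (nat_lit 1) (p (nat_lit 0x8090787089a) (nat_lit 0) (p (nat_lit 0x7888706861a) (nat_lit 0) (p (nat_lit 0x800070686078a) (nat_lit 0) (p (nat_lit 0x800068605850a) (nat_lit 0) (p (nat_lit 0x705850682) (nat_lit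 0) (p (nat_lit 0x685048402) (nat_lit 0) (p (nat_lit 0x160014) (nat_lit 0) (p (nat_lit 0x16000c) (nat_lit 0) (p (nat_lit 0x60592) (nat_lit 0) (p (nat_lit 0x48512) (nat_lit 0) (p (nat_lit 0x50392) (nat_lit 0) (p (nat_lit 0x38312) (nat_lit 0) (p (nat_lit 0x40212) (nat_lit 0) (p (nat_lit 0x28192) (nat_lit 0) (p (nat_lit 0x30092) (nat_lit 0) (p (nat_lit 0x18012) (nat_lit 0) pn)))))))))))))))))))))))))))) :=
  Cl.node (nat_lit 0x2a825890888098a) (nat_lit 1) (by decide +kernel) (ClAll.succ ClAll.zero n31)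

def n42 : Cl (O (nat_lit 1)) (R (nat_lit 6353))
    (p (nat_lit 0x2a825890888098a) (nat_lit 0) (p (nat_lit 0x2a825888807870a) (nat_lit 0) (p (nat_lit 0xb0014) (nat_lit 0) (p (nat_lit 0xb000c) (nat_lit 1) (p (nat_lit 0x200004) (nat_lit 0) (p (nat_lit 0x89) (nat_lit 1) (p (nat_lit 0x101) (nat_lit 1) (p (nat_lit 0xc1) (nat_lit 1) (p (nat_lit 0x119) (nat_lit 1) (p (nat_lit 0xd1) (nat_lit 0) (p (nat_lit 0x81) (nat_lit 0) (p (nat_lit 0x41) (nat_lit 1) (p (nat_lit 0x8090787089a) (nat_lit 0) (p (nat_lit 0x7888706861a) (nat_lit 0) (p (nat_lit 0x800070686078a) (nat_lit 0) (p (nat_lit 0x800068605850a) (nat_lit 0) (p (nat_lit 0x705850682) (nat_lit 0) (p (nat_lit 0x685048402) (nat_lit 0) (p (nat_lit 0x160014) (nat_lit 0) (p (nat_lit 0x16000c) (nat_lit 0) (p (nat_lit 0x60592) (nat_lit 0) (p (nat_lit 0x48512) (nat_lit 0) (p (nat_lit 0x50392) (nat_lit 0) (p (nat_lit 0x38312) (nat_lit 0)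 (p (nat_lit 0x40212) (nat_lit 0) (p (nat_lit 0x28192) (nat_lit 0) (p (nat_lit 0x30092) (nat_lit 0) (p (nat_lit 0x18012) (nat_lit 0) pn)))))))))))))))))))))))))))) :=
  Cl.node (nat_lit 0x98a8908881a) (nat_lit 1) (by decide +kernel) (ClAll.succ ClAll.zero n32)

def n43 : Cl (O (nat_lit 1)) (R (nat_lit 6353))
    (p (nat_lit 0x2a825890888098a) (nat_lit 0) (p (nat_lit 0x2a825888807870a) (nat_lit 0) (p (nat_lit 0xb0014) (nat_lit 0) (p (nat_lit 0xb000c) (nat_lit 1) (p (nat_lit 0x200004) (nat_lit 0) (p (nat_lit 0xc9) (nat_lit 0) (p (nat_lit 0x89) (nat_lit 1) (p (nat_lit 0x101) (nat_lit 1) (p (nat_lit 0x111) (nat_lit 0) (p (nat_lit 0xd1) (nat_lit 1) (p (nat_lit 0x81) (nat_lit 0) (p (nat_lit 0x41) (nat_lit 1) (p (nat_lit 0x8090787089a) (nat_lit 0) (p (nat_lit 0x7888706861a) (nat_lit 0) (p (nat_lit 0x800070686078a) (nat_lit 0) (p (nat_lit 0x800068605850a) (nat_lit 0) (p (nat_lit 0x705850682)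 (nat_lit 0) (p (nat_lit 0x685048402) (nat_lit 0) (p (nat_lit 0x160014) (nat_lit 0) (p (nat_lit 0x16000c) (nat_lit 0) (p (nat_lit 0x60592) (nat_lit 0) (p (nat_lit 0x48512) (nat_lit 0) (p (nat_lit 0x50392) (nat_lit 0) (p (nat_lit 0x38312) (nat_lit 0) (p (nat_lit 0x40212) (nat_lit 0) (p (nat_lit 0x28192) (nat_lit 0) (p (nat_lit 0x30092) (nat_lit 0) (p (nat_lit 0x18012) (nat_lit 0) pn)))))))))))))))))))))))))))) :=
  Cl.node (nat_lit 0x98a8908881a) (nat_lit 1) (by decide +kernel) (ClAll.succ ClAll.zero n33)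

def n44 : Cl (O (nat_lit 1)) (R (nat_lit 6353))
    (p (nat_lit 0x98a8908881a) (nat_lit 0) (p (nat_lit 0x2a825890888098a) (nat_lit 0) (p (nat_lit 0x2a825888807870a) (nat_lit 0) (p (nat_lit 0xb0014) (nat_lit 0) (p (nat_lit 0xb000c) (nat_lit 1) (p (nat_lit 0x200004) (nat_lit 0) (p (nat_lit 0x109) (nat_lit 1) (p (nat_lit 0xc9) (nat_lit 1) (p (nat_lit 0x119) (nat_lit 1) (p (nat_lit 0xc1) (nat_lit 0) (p (nat_lit 0x81) (nat_lit 1) (p (nat_lit 0x41) (nat_lit 1) (p (nat_lit 0x8090787089a) (nat_lit 0) (p (nat_lit 0x7888706861a) (nat_lit 0) (p (nat_lit 0x800070686078a) (nat_lit 0) (p (nat_lit 0x800068605850a) (nat_lit 0) (p (nat_lit 0x705850682) (nat_lit 0) (p (nat_lit 0x685048402) (nat_lit 0) (p (nat_lit 0x160014) (nat_lit 0) (p (nat_lit 0x16000c) (nat_lit 0) (p (nat_lit 0x60592) (nat_lit 0) (p (nat_lit 0x48512) (nat_lit 0) (p (nat_lit 0x50392) (nat_lit 0) (p (nat_lit 0x38312) (nat_lit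 0) (p (nat_lit 0x40212) (nat_lit 0) (p (nat_lit 0x28192) (nat_lit 0) (p (nat_lit 0x30092) (nat_lit 0) (p (nat_lit 0x18012) (nat_lit 0) pn)))))))))))))))))))))))))))) :=
  Cl.node (nat_lit 0xa0b09890a9a) (nat_lit 1) (by decide +kernel) (ClAll.succ ClAll.zero n34)

def n45 : Cl (O (nat_lit 1)) (R (nat_lit 6353))
    (p (nat_lit 0xb0014) (nat_lit 0) (p (nat_lit 0xb000c) (nat_lit 1) (p (nat_lit 0x111) (nat_lit 0) (p (nat_lit 0x200004) (nat_lit 0) (p (nat_lit 0xc9) (nat_lit 0) (p (nat_lit 0x81) (nat_lit 0) (p (nat_lit 0x101) (nat_lit 1) (p (nat_lit 0x119) (nat_lit 0) (p (nat_lit 0xd1) (nat_lit 0) (p (nat_lit 0x89) (nat_lit 0) (p (nat_lit 0x41) (nat_lit 0) (p (nat_lit 0x8090787089a) (nat_lit 0) (p (nat_lit 0x7888706861a) (nat_lit 0) (p (nat_lit 0x800070686078a) (nat_lit 0) (p (nat_lit 0x800068605850a) (nat_lit 0) (p (nat_lit 0x705850682) (nat_lit 0) (p (nat_lit 0x685048402) (nat_lit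 0) (p (nat_lit 0x160014) (nat_lit 0) (p (nat_lit 0x16000c) (nat_lit 0) (p (nat_lit 0x60592) (nat_lit 0) (p (nat_lit 0x48512) (nat_lit 0) (p (nat_lit 0x50392) (nat_lit 0) (p (nat_lit 0x38312) (nat_lit 0) (p (nat_lit 0x40212) (nat_lit 0) (p (nat_lit 0x28192) (nat_lit 0) (p (nat_lit 0x30092) (nat_lit 0) (p (nat_lit 0x18012) (nat_lit 0) pn))))))))))))))))))))))))))) :=
  Cl.node (nat_lit 0x2a825888807870a) (nat_lit 1) (by decide +kernel) (ClAll.succ ClAll.zero n35)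

def n46 : Cl (O (nat_lit 1)) (R (nat_lit 6353))
    (p (nat_lit 0xb0014) (nat_lit 0) (p (nat_lit 0xb000c) (nat_lit 1) (p (nat_lit 0x111) (nat_lit 0) (p (nat_lit 0x200004) (nat_lit 0) (p (nat_lit 0xc9) (nat_lit 1) (p (nat_lit 0x81) (nat_lit 0) (p (nat_lit 0x101) (nat_lit 1) (p (nat_lit 0x119) (nat_lit 0) (p (nat_lit 0xd1) (nat_lit 0) (p (nat_lit 0x89) (nat_lit 0) (p (nat_lit 0x41) (nat_lit 0) (p (nat_lit 0x8090787089a) (nat_lit 0) (p (nat_lit 0x7888706861a) (nat_lit 0) (p (nat_lit 0x800070686078a) (nat_lit 0) (p (nat_lit 0x800068605850a) (nat_lit 0) (p (nat_lit 0x705850682) (nat_lit 0) (p (nat_lit 0x685048402) (nat_lit 0) (p (nat_lit 0x160014) (nat_lit 0) (p (nat_lit 0x16000c) (nat_lit 0) (p (nat_lit 0x60592) (nat_lit 0) (p (nat_lit 0x48512) (nat_lit 0) (p (nat_lit 0x50392) (nat_lit 0) (p (nat_lit 0x38312) (nat_lit 0) (p (nat_lit 0x40212) (nat_lit 0) (p (nat_lit 0x28192)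 (nat_lit 0) (p (nat_lit 0x30092) (nat_lit 0) (p (nat_lit 0x18012) (nat_lit 0) pn))))))))))))))))))))))))))) :=
  Cl.node (nat_lit 0x2a825888807870a) (nat_lit 1) (by decide +kernel) (ClAll.succ ClAll.zero n36)

def n47 : Cl (O (nat_lit 1)) (R (nat_lit 6353))
    (p (nat_lit 0x2a825888807870a) (nat_lit 0) (p (nat_lit 0xb0014) (nat_lit 0) (p (nat_lit 0xb000c) (nat_lit 1) (p (nat_lit 0x200004) (nat_lit 0) (p (nat_lit 0x109) (nat_lit 1) (p (nat_lit 0xc9) (nat_lit 1) (p (nat_lit 0xc1) (nat_lit 0) (p (nat_lit 0x119) (nat_lit 1) (p (nat_lit 0xd1) (nat_lit 0) (p (nat_lit 0x89) (nat_lit 0) (p (nat_lit 0x41) (nat_lit 0) (p (nat_lit 0x8090787089a) (nat_lit 0) (p (nat_lit 0x7888706861a) (nat_lit 0) (p (nat_lit 0x800070686078a) (nat_lit 0) (p (nat_lit 0x800068605850a) (nat_lit 0) (p (nat_lit 0x705850682) (nat_lit 0) (p (nat_lit 0x685048402) (nat_lit 0) (p (nat_lit 0x160014) (nat_lit 0)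 (p (nat_lit 0x16000c) (nat_lit 0) (p (nat_lit 0x60592) (nat_lit 0) (p (nat_lit 0x48512) (nat_lit 0) (p (nat_lit 0x50392) (nat_lit 0) (p (nat_lit 0x38312) (nat_lit 0) (p (nat_lit 0x40212) (nat_lit 0) (p (nat_lit 0x28192) (nat_lit 0) (p (nat_lit 0x30092) (nat_lit 0) (p (nat_lit 0x18012) (nat_lit 0) pn))))))))))))))))))))))))))) :=
  Cl.node (nat_lit 0x2a825890888098a) (nat_lit 1) (by decide +kernel) (ClAll.succ ClAll.zero n37)

def n48 : Cl (O (nat_lit 1)) (R (nat_lit 6353))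
    (p (nat_lit 0x2a825888807870a) (nat_lit 0) (p (nat_lit 0xb0014) (nat_lit 0) (p (nat_lit 0xb000c) (nat_lit 1) (p (nat_lit 0x200004) (nat_lit 0) (p (nat_lit 0x111) (nat_lit 1) (p (nat_lit 0xd1) (nat_lit 1) (p (nat_lit 0xc1) (nat_lit 0) (p (nat_lit 0x119) (nat_lit 1) (p (nat_lit 0xc9) (nat_lit 0) (p (nat_lit 0x89) (nat_lit 1) (p (nat_lit 0x41) (nat_lit 0) (p (nat_lit 0x8090787089a) (nat_lit 0) (p (nat_lit 0x7888706861a) (nat_lit 0) (p (nat_lit 0x800070686078a) (nat_lit 0) (p (nat_lit 0x800068605850a) (nat_lit 0) (p (nat_lit 0x705850682) (nat_lit 0) (p (nat_lit 0x685048402) (nat_lit 0) (p (nat_lit 0x160014) (nat_lit 0) (p (nat_lit 0x16000c) (nat_lit 0) (p (nat_lit 0x60592) (nat_lit 0) (p (nat_lit 0x48512) (nat_lit 0) (p (nat_lit 0x50392) (nat_lit 0) (p (nat_lit 0x38312) (nat_lit 0) (p (nat_lit 0x40212) (nat_lit 0) (p (nat_lit 0x28192) (nat_lit 0) (p (nat_lit 0x30092) (nat_lit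 0) (p (nat_lit 0x18012) (nat_lit 0) pn))))))))))))))))))))))))))) :=
  Cl.node (nat_lit 0x2a825890888098a) (nat_lit 1) (by decide +kernel) (ClAll.succ ClAll.zero n38)

def n49 : Cl (O (nat_lit 1)) (R (nat_lit 6353))
    (p (nat_lit 0xb0014) (nat_lit 0) (p (nat_lit 0xb000c) (nat_lit 1) (p (nat_lit 0x200004) (nat_lit 0) (p (nat_lit 0xc9) (nat_lit 1) (p (nat_lit 0x89) (nat_lit 1) (p (nat_lit 0xc1) (nat_lit 0) (p (nat_lit 0x101) (nat_lit 1) (p (nat_lit 0x119) (nat_lit 0) (p (nat_lit 0xd1) (nat_lit 0) (p (nat_lit 0x81) (nat_lit 0) (p (nat_lit 0x41) (nat_lit 1) (p (nat_lit 0x8090787089a) (nat_lit 0) (p (nat_lit 0x7888706861a) (nat_lit 0) (p (nat_lit 0x800070686078a) (nat_lit 0) (p (nat_lit 0x800068605850a) (nat_lit 0) (p (nat_lit 0x705850682) (nat_lit 0) (p (nat_lit 0x685048402) (nat_lit 0) (p (nat_lit 0x160014) (nat_lit 0) (p (nat_lit 0x16000c) (nat_lit 0) (p (nat_lit 0x60592)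 (nat_lit 0) (p (nat_lit 0x48512) (nat_lit 0) (p (nat_lit 0x50392) (nat_lit 0) (p (nat_lit 0x38312) (nat_lit 0) (p (nat_lit 0x40212) (nat_lit 0) (p (nat_lit 0x28192) (nat_lit 0) (p (nat_lit 0x30092) (nat_lit 0) (p (nat_lit 0x18012) (nat_lit 0) pn))))))))))))))))))))))))))) :=
  Cl.node (nat_lit 0x2a825888807870a) (nat_lit 1) (by decide +kernel) (ClAll.succ ClAll.zero n39)

def n50 : Cl (O (nat_lit 1)) (R (nat_lit 6353))
    (p (nat_lit 0x2a825888807870a) (nat_lit 0) (p (nat_lit 0xb0014) (nat_lit 0) (p (nat_lit 0xb000c) (nat_lit 1) (p (nat_lit 0x200004) (nat_lit 0) (p (nat_lit 0x89) (nat_lit 1) (p (nat_lit 0xc1) (nat_lit 1) (p (nat_lit 0x101) (nat_lit 1) (p (nat_lit 0x119) (nat_lit 0) (p (nat_lit 0xd1) (nat_lit 0) (p (nat_lit 0x81) (nat_lit 0) (p (nat_lit 0x41) (nat_lit 1) (p (nat_lit 0x8090787089a) (nat_lit 0) (p (nat_lit 0x7888706861a) (nat_lit 0) (p (nat_lit 0x800070686078a)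 (nat_lit 0) (p (nat_lit 0x800068605850a) (nat_lit 0) (p (nat_lit 0x705850682) (nat_lit 0) (p (nat_lit 0x685048402) (nat_lit 0) (p (nat_lit 0x160014) (nat_lit 0) (p (nat_lit 0x16000c) (nat_lit 0) (p (nat_lit 0x60592) (nat_lit 0) (p (nat_lit 0x48512) (nat_lit 0) (p (nat_lit 0x50392) (nat_lit 0) (p (nat_lit 0x38312) (nat_lit 0) (p (nat_lit 0x40212) (nat_lit 0) (p (nat_lit 0x28192) (nat_lit 0) (p (nat_lit 0x30092) (nat_lit 0) (p (nat_lit 0x18012) (nat_lit 0) pn))))))))))))))))))))))))))) :=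
  Cl.node (nat_lit 0x2a825890888098a) (nat_lit 1) (by decide +kernel) (ClAll.succ ClAll.zero n40)

def n51 : Cl (O (nat_lit 1)) (R (nat_lit 6353))
    (p (nat_lit 0xb0014) (nat_lit 0) (p (nat_lit 0xb000c) (nat_lit 1) (p (nat_lit 0x200004) (nat_lit 0) (p (nat_lit 0x109) (nat_lit 0) (p (nat_lit 0x89) (nat_lit 1) (p (nat_lit 0xc9) (nat_lit 1) (p (nat_lit 0xc1) (nat_lit 0) (p (nat_lit 0x119) (nat_lit 1) (p (nat_lit 0xd1) (nat_lit 0) (p (nat_lit 0x81) (nat_lit 0) (p (nat_lit 0x41) (nat_lit 1) (p (nat_lit 0x8090787089a) (nat_lit 0) (p (nat_lit 0x7888706861a) (nat_lit 0) (p (nat_lit 0x800070686078a) (nat_lit 0) (p (nat_lit 0x800068605850a) (nat_lit 0) (p (nat_lit 0x705850682) (nat_lit 0) (p (nat_lit 0x685048402) (nat_lit 0) (p (nat_lit 0x160014) (nat_lit 0) (p (nat_lit 0x16000c) (nat_lit 0) (p (nat_lit 0x60592) (nat_lit 0) (p (nat_lit 0x48512) (nat_lit 0) (p (nat_lit 0x50392) (nat_lit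 0) (p (nat_lit 0x38312) (nat_lit 0) (p (nat_lit 0x40212) (nat_lit 0) (p (nat_lit 0x28192) (nat_lit 0) (p (nat_lit 0x30092) (nat_lit 0) (p (nat_lit 0x18012) (nat_lit 0) pn))))))))))))))))))))))))))) :=
  Cl.node (nat_lit 0x2a825888807870a) (nat_lit 1) (by decide +kernel) (ClAll.succ ClAll.zero n41)

def n52 : Cl (O (nat_lit 1)) (R (nat_lit 6353))
    (p (nat_lit 0x2a825888807870a) (nat_lit 0) (p (nat_lit 0xb0014) (nat_lit 0) (p (nat_lit 0xb000c) (nat_lit 1) (p (nat_lit 0x200004) (nat_lit 0) (p (nat_lit 0x89) (nat_lit 1) (p (nat_lit 0x101) (nat_lit 1) (p (nat_lit 0xc1) (nat_lit 1) (p (nat_lit 0x119) (nat_lit 1) (p (nat_lit 0xd1) (nat_lit 0) (p (nat_lit 0x81) (nat_lit 0) (p (nat_lit 0x41) (nat_lit 1) (p (nat_lit 0x8090787089a) (nat_lit 0) (p (nat_lit 0x7888706861a) (nat_lit 0) (p (nat_lit 0x800070686078a) (nat_lit 0) (p (nat_lit 0x800068605850a) (nat_lit 0) (p (nat_lit 0x705850682)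 (nat_lit 0) (p (nat_lit 0x685048402) (nat_lit 0) (p (nat_lit 0x160014) (nat_lit 0) (p (nat_lit 0x16000c) (nat_lit 0) (p (nat_lit 0x60592) (nat_lit 0) (p (nat_lit 0x48512) (nat_lit 0) (p (nat_lit 0x50392) (nat_lit 0) (p (nat_lit 0x38312) (nat_lit 0) (p (nat_lit 0x40212) (nat_lit 0) (p (nat_lit 0x28192) (nat_lit 0) (p (nat_lit 0x30092) (nat_lit 0) (p (nat_lit 0x18012) (nat_lit 0) pn))))))))))))))))))))))))))) :=
  Cl.node (nat_lit 0x2a825890888098a) (nat_lit 1) (by decide +kernel) (ClAll.succ ClAll.zero n42)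

def n53 : Cl (O (nat_lit 1)) (R (nat_lit 6353))
    (p (nat_lit 0x2a825888807870a) (nat_lit 0) (p (nat_lit 0xb0014) (nat_lit 0) (p (nat_lit 0xb000c) (nat_lit 1) (p (nat_lit 0x200004) (nat_lit 0) (p (nat_lit 0xc9) (nat_lit 0) (p (nat_lit 0x89) (nat_lit 1) (p (nat_lit 0x101) (nat_lit 1) (p (nat_lit 0x111) (nat_lit 0) (p (nat_lit 0xd1) (nat_lit 1) (p (nat_lit 0x81) (nat_lit 0) (p (nat_lit 0x41) (nat_lit 1) (p (nat_lit 0x8090787089a) (nat_lit 0) (p (nat_lit 0x7888706861a) (nat_lit 0) (p (nat_lit 0x800070686078a) (nat_lit 0) (p (nat_lit 0x800068605850a) (nat_lit 0) (p (nat_lit 0x705850682) (nat_lit 0) (p (nat_lit 0x685048402) (nat_lit 0) (p (nat_lit 0x160014) (nat_lit 0) (p (nat_lit 0x16000c) (nat_lit 0) (p (nat_lit 0x60592) (nat_lit 0) (p (nat_lit 0x48512) (nat_lit 0) (p (nat_lit 0x50392) (nat_lit 0) (p (nat_lit 0x38312) (nat_lit 0) (p (nat_lit 0x40212) (nat_lit 0) (p (nat_lit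 0x28192) (nat_lit 0) (p (nat_lit 0x30092) (nat_lit 0) (p (nat_lit 0x18012) (nat_lit 0) pn))))))))))))))))))))))))))) :=
  Cl.node (nat_lit 0x2a825890888098a) (nat_lit 1) (by decide +kernel) (ClAll.succ ClAll.zero n43)

def n54 : Cl (O (nat_lit 1)) (R (nat_lit 6353))
    (p (nat_lit 0x2a825890888098a) (nat_lit 0) (p (nat_lit 0x2a825888807870a) (nat_lit 0) (p (nat_lit 0xb0014) (nat_lit 0) (p (nat_lit 0xb000c) (nat_lit 1) (p (nat_lit 0x200004) (nat_lit 0) (p (nat_lit 0x109) (nat_lit 1) (p (nat_lit 0xc9) (nat_lit 1) (p (nat_lit 0x119) (nat_lit 1) (p (nat_lit 0xc1) (nat_lit 0) (p (nat_lit 0x81) (nat_lit 1) (p (nat_lit 0x41) (nat_lit 1) (p (nat_lit 0x8090787089a) (nat_lit 0) (p (nat_lit 0x7888706861a) (nat_lit 0) (p (nat_lit 0x800070686078a) (nat_lit 0) (p (nat_lit 0x800068605850a) (nat_lit 0) (p (nat_lit 0x705850682) (nat_lit 0) (p (nat_lit 0x685048402) (nat_lit 0) (p (nat_lit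 0x160014) (nat_lit 0) (p (nat_lit 0x16000c) (nat_lit 0) (p (nat_lit 0x60592) (nat_lit 0) (p (nat_lit 0x48512) (nat_lit 0) (p (nat_lit 0x50392) (nat_lit 0) (p (nat_lit 0x38312) (nat_lit 0) (p (nat_lit 0x40212) (nat_lit 0) (p (nat_lit 0x28192) (nat_lit 0) (p (nat_lit 0x30092) (nat_lit 0) (p (nat_lit 0x18012) (nat_lit 0) pn))))))))))))))))))))))))))) :=
  Cl.node (nat_lit 0x98a8908881a) (nat_lit 1) (by decide +kernel) (ClAll.succ ClAll.zero n44)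

def n55 : Cl (O (nat_lit 1)) (R (nat_lit 6353))
    (p (nat_lit 0xb000c) (nat_lit 1) (p (nat_lit 0x111) (nat_lit 0) (p (nat_lit 0x200004) (nat_lit 0) (p (nat_lit 0xc9) (nat_lit 0) (p (nat_lit 0x81) (nat_lit 0) (p (nat_lit 0x101) (nat_lit 1) (p (nat_lit 0x119) (nat_lit 0) (p (nat_lit 0xd1) (nat_lit 0) (p (nat_lit 0x89) (nat_lit 0) (p (nat_lit 0x41) (nat_lit 0) (p (nat_lit 0x8090787089a) (nat_lit 0) (p (nat_lit 0x7888706861a) (nat_lit 0) (p (nat_lit 0x800070686078a) (nat_lit 0) (p (nat_lit 0x800068605850a) (nat_lit 0) (p (nat_lit 0x705850682) (nat_lit 0) (p (nat_lit 0x685048402) (nat_lit 0) (p (nat_lit 0x160014) (nat_lit 0) (p (nat_lit 0x16000c) (nat_lit 0) (p (nat_lit 0x60592) (nat_lit 0) (p (nat_lit 0x48512) (nat_lit 0) (p (nat_lit 0x50392) (nat_lit 0) (p (nat_lit 0x38312) (nat_lit 0) (p (nat_lit 0x40212) (nat_lit 0) (p (nat_lit 0x28192) (nat_lit 0) (p (nat_lit 0x30092)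 (nat_lit 0) (p (nat_lit 0x18012) (nat_lit 0) pn)))))))))))))))))))))))))) :=
  Cl.node (nat_lit 0xb0014) (nat_lit 2) (by decide +kernel) (ClAll.succ (ClAll.succ ClAll.zero n45) s8)

def n56 : Cl (O (nat_lit 1)) (R (nat_lit 6353))
    (p (nat_lit 0xb000c) (nat_lit 0) (p (nat_lit 0x111) (nat_lit 0) (p (nat_lit 0x200004) (nat_lit 0) (p (nat_lit 0xc9) (nat_lit 1) (p (nat_lit 0x81) (nat_lit 0) (p (nat_lit 0x101) (nat_lit 1) (p (nat_lit 0x119) (nat_lit 0) (p (nat_lit 0xd1) (nat_lit 0) (p (nat_lit 0x89) (nat_lit 0) (p (nat_lit 0x41) (nat_lit 0) (p (nat_lit 0x8090787089a) (nat_lit 0) (p (nat_lit 0x7888706861a) (nat_lit 0) (p (nat_lit 0x800070686078a) (nat_lit 0) (p (nat_lit 0x800068605850a) (nat_lit 0) (p (nat_lit 0x705850682) (nat_lit 0) (p (nat_lit 0x685048402) (nat_lit 0) (p (nat_lit 0x160014) (nat_lit 0) (p (nat_lit 0x16000c) (nat_lit 0) (p (nat_lit 0x60592) (nat_lit 0) (p (nat_lit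 0x48512) (nat_lit 0) (p (nat_lit 0x50392) (nat_lit 0) (p (nat_lit 0x38312) (nat_lit 0) (p (nat_lit 0x40212) (nat_lit 0) (p (nat_lit 0x28192) (nat_lit 0) (p (nat_lit 0x30092) (nat_lit 0) (p (nat_lit 0x18012) (nat_lit 0) pn)))))))))))))))))))))))))) :=
  Cl.node (nat_lit 0xb0014) (nat_lit 2) (by decide +kernel) (ClAll.succ (ClAll.succ ClAll.zero s11) s12)

def n57 : Cl (O (nat_lit 1)) (R (nat_lit 6353))
    (p (nat_lit 0xb000c) (nat_lit 1) (p (nat_lit 0x111) (nat_lit 0) (p (nat_lit 0x200004) (nat_lit 0) (p (nat_lit 0xc9) (nat_lit 1) (p (nat_lit 0x81) (nat_lit 0) (p (nat_lit 0x101) (nat_lit 1) (p (nat_lit 0x119) (nat_lit 0) (p (nat_lit 0xd1) (nat_lit 0) (p (nat_lit 0x89) (nat_lit 0) (p (nat_lit 0x41) (nat_lit 0) (p (nat_lit 0x8090787089a) (nat_lit 0) (p (nat_lit 0x7888706861a) (nat_lit 0) (p (nat_lit 0x800070686078a) (nat_lit 0) (p (nat_lit 0x800068605850a) (nat_lit 0) (p (nat_lit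 0x705850682) (nat_lit 0) (p (nat_lit 0x685048402) (nat_lit 0) (p (nat_lit 0x160014) (nat_lit 0) (p (nat_lit 0x16000c) (nat_lit 0) (p (nat_lit 0x60592) (nat_lit 0) (p (nat_lit 0x48512) (nat_lit 0) (p (nat_lit 0x50392) (nat_lit 0) (p (nat_lit 0x38312) (nat_lit 0) (p (nat_lit 0x40212) (nat_lit 0) (p (nat_lit 0x28192) (nat_lit 0) (p (nat_lit 0x30092) (nat_lit 0) (p (nat_lit 0x18012) (nat_lit 0) pn)))))))))))))))))))))))))) :=
  Cl.node (nat_lit 0xb0014) (nat_lit 2) (by decide +kernel) (ClAll.succ (ClAll.succ ClAll.zero n46) s18)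

def n58 : Cl (O (nat_lit 1)) (R (nat_lit 6353))
    (p (nat_lit 0xb0014) (nat_lit 0) (p (nat_lit 0xb000c) (nat_lit 1) (p (nat_lit 0x200004) (nat_lit 0) (p (nat_lit 0x109) (nat_lit 1) (p (nat_lit 0xc9) (nat_lit 1) (p (nat_lit 0xc1) (nat_lit 0) (p (nat_lit 0x119) (nat_lit 1) (p (nat_lit 0xd1) (nat_lit 0) (p (nat_lit 0x89) (nat_lit 0) (p (nat_lit 0x41) (nat_lit 0) (p (nat_lit 0x8090787089a) (nat_lit 0) (p (nat_lit 0x7888706861a) (nat_lit 0) (p (nat_lit 0x800070686078a) (nat_lit 0) (p (nat_lit 0x800068605850a) (nat_lit 0) (p (nat_lit 0x705850682) (nat_lit 0) (p (nat_lit 0x685048402) (nat_lit 0) (p (nat_lit 0x160014) (nat_lit 0) (p (nat_lit 0x16000c) (nat_lit 0) (p (nat_lit 0x60592) (nat_lit 0) (p (nat_lit 0x48512) (nat_lit 0) (p (nat_lit 0x50392) (nat_lit 0) (p (nat_lit 0x38312) (nat_lit 0) (p (nat_lit 0x40212) (nat_lit 0) (p (nat_lit 0x28192) (nat_lit 0) (p (nat_lit 0x30092)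 (nat_lit 0) (p (nat_lit 0x18012) (nat_lit 0) pn)))))))))))))))))))))))))) :=
  Cl.node (nat_lit 0x2a825888807870a) (nat_lit 1) (by decide +kernel) (ClAll.succ ClAll.zero n47)

def n59 : Cl (O (nat_lit 1)) (R (nat_lit 6353))
    (p (nat_lit 0xb0014) (nat_lit 0) (p (nat_lit 0xb000c) (nat_lit 1) (p (nat_lit 0x200004) (nat_lit 0) (p (nat_lit 0x111) (nat_lit 1) (p (nat_lit 0xd1) (nat_lit 1) (p (nat_lit 0xc1) (nat_lit 0) (p (nat_lit 0x119) (nat_lit 1) (p (nat_lit 0xc9) (nat_lit 0) (p (nat_lit 0x89) (nat_lit 1) (p (nat_lit 0x41) (nat_lit 0) (p (nat_lit 0x8090787089a) (nat_lit 0) (p (nat_lit 0x7888706861a) (nat_lit 0) (p (nat_lit 0x800070686078a) (nat_lit 0) (p (nat_lit 0x800068605850a) (nat_lit 0) (p (nat_lit 0x705850682) (nat_lit 0) (p (nat_lit 0x685048402) (nat_lit 0) (p (nat_lit 0x160014) (nat_lit 0) (p (nat_lit 0x16000c) (nat_lit 0) (p (nat_lit 0x60592) (nat_lit 0) (p (nat_lit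 0x48512) (nat_lit 0) (p (nat_lit 0x50392) (nat_lit 0) (p (nat_lit 0x38312) (nat_lit 0) (p (nat_lit 0x40212) (nat_lit 0) (p (nat_lit 0x28192) (nat_lit 0) (p (nat_lit 0x30092) (nat_lit 0) (p (nat_lit 0x18012) (nat_lit 0) pn)))))))))))))))))))))))))) :=
  Cl.node (nat_lit 0x2a825888807870a) (nat_lit 1) (by decide +kernel) (ClAll.succ ClAll.zero n48)

def n60 : Cl (O (nat_lit 1)) (R (nat_lit 6353))
    (p (nat_lit 0xb000c) (nat_lit 1) (p (nat_lit 0x200004) (nat_lit 0) (p (nat_lit 0xc9) (nat_lit 1) (p (nat_lit 0x89) (nat_lit 1) (p (nat_lit 0xc1) (nat_lit 0) (p (nat_lit 0x101) (nat_lit 1) (p (nat_lit 0x119) (nat_lit 0) (p (nat_lit 0xd1) (nat_lit 0) (p (nat_lit 0x81) (nat_lit 0) (p (nat_lit 0x41) (nat_lit 1) (p (nat_lit 0x8090787089a) (nat_lit 0) (p (nat_lit 0x7888706861a) (nat_lit 0) (p (nat_lit 0x800070686078a) (nat_lit 0) (p (nat_lit 0x800068605850a) (nat_lit 0) (p (nat_lit 0x705850682)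 (nat_lit 0) (p (nat_lit 0x685048402) (nat_lit 0) (p (nat_lit 0x160014) (nat_lit 0) (p (nat_lit 0x16000c) (nat_lit 0) (p (nat_lit 0x60592) (nat_lit 0) (p (nat_lit 0x48512) (nat_lit 0) (p (nat_lit 0x50392) (nat_lit 0) (p (nat_lit 0x38312) (nat_lit 0) (p (nat_lit 0x40212) (nat_lit 0) (p (nat_lit 0x28192) (nat_lit 0) (p (nat_lit 0x30092) (nat_lit 0) (p (nat_lit 0x18012) (nat_lit 0) pn)))))))))))))))))))))))))) :=
  Cl.node (nat_lit 0xb0014) (nat_lit 2) (by decide +kernel) (ClAll.succ (ClAll.succ ClAll.zero n49) s102)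

def n61 : Cl (O (nat_lit 1)) (R (nat_lit 6353))
    (p (nat_lit 0xb0014) (nat_lit 0) (p (nat_lit 0xb000c) (nat_lit 1) (p (nat_lit 0x200004) (nat_lit 0) (p (nat_lit 0x89) (nat_lit 1) (p (nat_lit 0xc1) (nat_lit 1) (p (nat_lit 0x101) (nat_lit 1) (p (nat_lit 0x119) (nat_lit 0) (p (nat_lit 0xd1) (nat_lit 0) (p (nat_lit 0x81) (nat_lit 0) (p (nat_lit 0x41) (nat_lit 1) (p (nat_lit 0x8090787089a) (nat_lit 0) (p (nat_lit 0x7888706861a) (nat_lit 0) (p (nat_lit 0x800070686078a) (nat_lit 0) (p (nat_lit 0x800068605850a) (nat_lit 0) (p (nat_lit 0x705850682) (nat_lit 0) (p (nat_lit 0x685048402) (nat_lit 0) (p (nat_lit 0x160014) (nat_lit 0) (p (nat_lit 0x16000c) (nat_lit 0) (p (nat_lit 0x60592) (nat_lit 0) (p (nat_lit 0x48512) (nat_lit 0) (p (nat_lit 0x50392) (nat_lit 0) (p (nat_lit 0x38312) (nat_lit 0) (p (nat_lit 0x40212) (nat_lit 0) (p (nat_lit 0x28192) (nat_lit 0) (p (nat_lit 0x30092)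 (nat_lit 0) (p (nat_lit 0x18012) (nat_lit 0) pn)))))))))))))))))))))))))) :=
  Cl.node (nat_lit 0x2a825888807870a) (nat_lit 1) (by decide +kernel) (ClAll.succ ClAll.zero n50)

def n62 : Cl (O (nat_lit 1)) (R (nat_lit 6353))
    (p (nat_lit 0xb000c) (nat_lit 1) (p (nat_lit 0x200004) (nat_lit 0) (p (nat_lit 0x109) (nat_lit 0) (p (nat_lit 0x89) (nat_lit 1) (p (nat_lit 0xc9) (nat_lit 1) (p (nat_lit 0xc1) (nat_lit 0) (p (nat_lit 0x119) (nat_lit 1) (p (nat_lit 0xd1) (nat_lit 0) (p (nat_lit 0x81) (nat_lit 0) (p (nat_lit 0x41) (nat_lit 1) (p (nat_lit 0x8090787089a) (nat_lit 0) (p (nat_lit 0x7888706861a) (nat_lit 0) (p (nat_lit 0x800070686078a) (nat_lit 0) (p (nat_lit 0x800068605850a) (nat_lit 0) (p (nat_lit 0x705850682) (nat_lit 0) (p (nat_lit 0x685048402) (nat_lit 0) (p (nat_lit 0x160014) (nat_lit 0) (p (nat_lit 0x16000c) (nat_lit 0) (p (nat_lit 0x60592) (nat_lit 0) (p (nat_lit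 0x48512) (nat_lit 0) (p (nat_lit 0x50392) (nat_lit 0) (p (nat_lit 0x38312) (nat_lit 0) (p (nat_lit 0x40212) (nat_lit 0) (p (nat_lit 0x28192) (nat_lit 0) (p (nat_lit 0x30092) (nat_lit 0) (p (nat_lit 0x18012) (nat_lit 0) pn)))))))))))))))))))))))))) :=
  Cl.node (nat_lit 0xb0014) (nat_lit 2) (by decide +kernel) (ClAll.succ (ClAll.succ ClAll.zero n51) s115)

def n63 : Cl (O (nat_lit 1)) (R (nat_lit 6353))
    (p (nat_lit 0xb000c) (nat_lit 0) (p (nat_lit 0x200004) (nat_lit 0) (p (nat_lit 0x109) (nat_lit 1) (p (nat_lit 0x89) (nat_lit 1) (p (nat_lit 0xc9) (nat_lit 1) (p (nat_lit 0xc1) (nat_lit 0) (p (nat_lit 0x119) (nat_lit 1) (p (nat_lit 0xd1) (nat_lit 0) (p (nat_lit 0x81) (nat_lit 0) (p (nat_lit 0x41) (nat_lit 1) (p (nat_lit 0x8090787089a) (nat_lit 0) (p (nat_lit 0x7888706861a) (nat_lit 0) (p (nat_lit 0x800070686078a) (nat_lit 0) (p (nat_lit 0x800068605850a) (nat_lit 0) (p (nat_lit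 0x705850682) (nat_lit 0) (p (nat_lit 0x685048402) (nat_lit 0) (p (nat_lit 0x160014) (nat_lit 0) (p (nat_lit 0x16000c) (nat_lit 0) (p (nat_lit 0x60592) (nat_lit 0) (p (nat_lit 0x48512) (nat_lit 0) (p (nat_lit 0x50392) (nat_lit 0) (p (nat_lit 0x38312) (nat_lit 0) (p (nat_lit 0x40212) (nat_lit 0) (p (nat_lit 0x28192) (nat_lit 0) (p (nat_lit 0x30092) (nat_lit 0) (p (nat_lit 0x18012) (nat_lit 0) pn)))))))))))))))))))))))))) :=
  Cl.node (nat_lit 0xb0014) (nat_lit 2) (by decide +kernel) (ClAll.succ (ClAll.succ ClAll.zero s117) s118)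

def n64 : Cl (O (nat_lit 1)) (R (nat_lit 6353))
    (p (nat_lit 0xb0014) (nat_lit 0) (p (nat_lit 0xb000c) (nat_lit 0) (p (nat_lit 0x200004) (nat_lit 0) (p (nat_lit 0x89) (nat_lit 1) (p (nat_lit 0x101) (nat_lit 1) (p (nat_lit 0xc1) (nat_lit 1) (p (nat_lit 0x119) (nat_lit 1) (p (nat_lit 0xd1) (nat_lit 0) (p (nat_lit 0x81) (nat_lit 0) (p (nat_lit 0x41) (nat_lit 1) (p (nat_lit 0x8090787089a) (nat_lit 0) (p (nat_lit 0x7888706861a) (nat_lit 0) (p (nat_lit 0x800070686078a) (nat_lit 0) (p (nat_lit 0x800068605850a) (nat_lit 0) (p (nat_lit 0x705850682) (nat_lit 0) (p (nat_lit 0x685048402) (nat_lit 0) (p (nat_lit 0x160014) (nat_lit 0) (p (nat_lit 0x16000c) (nat_lit 0) (p (nat_lit 0x60592) (nat_lit 0) (p (nat_lit 0x48512) (nat_lit 0) (p (nat_lit 0x50392) (nat_lit 0) (p (nat_lit 0x38312) (nat_lit 0) (p (nat_lit 0x40212) (nat_lit 0) (p (nat_lit 0x28192) (nat_lit 0) (p (nat_lit 0x30092)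 (nat_lit 0) (p (nat_lit 0x18012) (nat_lit 0) pn)))))))))))))))))))))))))) :=
  Cl.node (nat_lit 0xc9) (nat_lit 2) (by decide +kernel) (ClAll.succ (ClAll.succ ClAll.zero s131) s132)

def n65 : Cl (O (nat_lit 1)) (R (nat_lit 6353))
    (p (nat_lit 0xb0014) (nat_lit 0) (p (nat_lit 0xb000c) (nat_lit 1) (p (nat_lit 0x200004) (nat_lit 0) (p (nat_lit 0x89) (nat_lit 1) (p (nat_lit 0x101) (nat_lit 1) (p (nat_lit 0xc1) (nat_lit 1) (p (nat_lit 0x119) (nat_lit 1) (p (nat_lit 0xd1) (nat_lit 0) (p (nat_lit 0x81) (nat_lit 0) (p (nat_lit 0x41) (nat_lit 1) (p (nat_lit 0x8090787089a) (nat_lit 0) (p (nat_lit 0x7888706861a) (nat_lit 0) (p (nat_lit 0x800070686078a) (nat_lit 0) (p (nat_lit 0x800068605850a) (nat_lit 0) (p (nat_lit 0x705850682) (nat_lit 0) (p (nat_lit 0x685048402) (nat_lit 0) (p (nat_lit 0x160014) (nat_lit 0) (p (nat_lit 0x16000c) (nat_lit 0) (p (nat_lit 0x60592) (nat_lit 0) (p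 (nat_lit 0x48512) (nat_lit 0) (p (nat_lit 0x50392) (nat_lit 0) (p (nat_lit 0x38312) (nat_lit 0) (p (nat_lit 0x40212) (nat_lit 0) (p (nat_lit 0x28192) (nat_lit 0) (p (nat_lit 0x30092) (nat_lit 0) (p (nat_lit 0x18012) (nat_lit 0) pn)))))))))))))))))))))))))) :=
  Cl.node (nat_lit 0x2a825888807870a) (nat_lit 1) (by decide +kernel) (ClAll.succ ClAll.zero n52)

def n66 : Cl (O (nat_lit 1)) (R (nat_lit 6353))
    (p (nat_lit 0x119) (nat_lit 1) (p (nat_lit 0x200004) (nat_lit 0) (p (nat_lit 0xc9) (nat_lit 0) (p (nat_lit 0x89) (nat_lit 1) (p (nat_lit 0x109) (nat_lit 1) (p (nat_lit 0x101) (nat_lit 0) (p (nat_lit 0x111) (nat_lit 0) (p (nat_lit 0xd1) (nat_lit 1) (p (nat_lit 0x81) (nat_lit 0) (p (nat_lit 0x41) (nat_lit 1) (p (nat_lit 0x8090787089a) (nat_lit 0) (p (nat_lit 0x7888706861a) (nat_lit 0) (p (nat_lit 0x800070686078a) (nat_lit 0) (p (nat_lit 0x800068605850a) (nat_lit 0) (p (nat_lit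 0x705850682) (nat_lit 0) (p (nat_lit 0x685048402) (nat_lit 0) (p (nat_lit 0x160014) (nat_lit 0) (p (nat_lit 0x16000c) (nat_lit 0) (p (nat_lit 0x60592) (nat_lit 0) (p (nat_lit 0x48512) (nat_lit 0) (p (nat_lit 0x50392) (nat_lit 0) (p (nat_lit 0x38312) (nat_lit 0) (p (nat_lit 0x40212) (nat_lit 0) (p (nat_lit 0x28192) (nat_lit 0) (p (nat_lit 0x30092) (nat_lit 0) (p (nat_lit 0x18012) (nat_lit 0) pn)))))))))))))))))))))))))) :=
  Cl.node (nat_lit 0xb000c) (nat_lit 2) (by decide +kernel) (ClAll.succ (ClAll.succ ClAll.zero s144) s145)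

def n67 : Cl (O (nat_lit 1)) (R (nat_lit 6353))
    (p (nat_lit 0xb0014) (nat_lit 0) (p (nat_lit 0xb000c) (nat_lit 0) (p (nat_lit 0x200004) (nat_lit 0) (p (nat_lit 0xc9) (nat_lit 0) (p (nat_lit 0x89) (nat_lit 1) (p (nat_lit 0x101) (nat_lit 1) (p (nat_lit 0x111) (nat_lit 0) (p (nat_lit 0xd1) (nat_lit 1) (p (nat_lit 0x81) (nat_lit 0) (p (nat_lit 0x41) (nat_lit 1) (p (nat_lit 0x8090787089a) (nat_lit 0) (p (nat_lit 0x7888706861a) (nat_lit 0) (p (nat_lit 0x800070686078a) (nat_lit 0) (p (nat_lit 0x800068605850a) (nat_lit 0) (p (nat_lit 0x705850682) (nat_lit 0) (p (nat_lit 0x685048402) (nat_lit 0) (p (nat_lit 0x160014) (nat_lit 0) (p (nat_lit 0x16000c) (nat_lit 0) (p (nat_lit 0x60592) (nat_lit 0) (p (nat_lit 0x48512) (nat_lit 0) (p (nat_lit 0x50392) (nat_lit 0) (p (nat_lit 0x38312) (nat_lit 0) (p (nat_lit 0x40212) (nat_lit 0) (p (nat_lit 0x28192) (nat_lit 0) (p (nat_lit 0x30092)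 (nat_lit 0) (p (nat_lit 0x18012) (nat_lit 0) pn)))))))))))))))))))))))))) :=
  Cl.node (nat_lit 0x119) (nat_lit 2) (by decide +kernel) (ClAll.succ (ClAll.succ ClAll.zero s149) s150)

def n68 : Cl (O (nat_lit 1)) (R (nat_lit 6353))
    (p (nat_lit 0xb0014) (nat_lit 0) (p (nat_lit 0xb000c) (nat_lit 1) (p (nat_lit 0x200004) (nat_lit 0) (p (nat_lit 0xc9) (nat_lit 0) (p (nat_lit 0x89) (nat_lit 1) (p (nat_lit 0x101) (nat_lit 1) (p (nat_lit 0x111) (nat_lit 0) (p (nat_lit 0xd1) (nat_lit 1) (p (nat_lit 0x81) (nat_lit 0) (p (nat_lit 0x41) (nat_lit 1) (p (nat_lit 0x8090787089a) (nat_lit 0) (p (nat_lit 0x7888706861a) (nat_lit 0) (p (nat_lit 0x800070686078a) (nat_lit 0) (p (nat_lit 0x800068605850a) (nat_lit 0) (p (nat_lit 0x705850682) (nat_lit 0) (p (nat_lit 0x685048402) (nat_lit 0) (p (nat_lit 0x160014) (nat_lit 0) (p (nat_lit 0x16000c) (nat_lit 0) (p (nat_lit 0x60592) (nat_lit 0) (p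 (nat_lit 0x48512) (nat_lit 0) (p (nat_lit 0x50392) (nat_lit 0) (p (nat_lit 0x38312) (nat_lit 0) (p (nat_lit 0x40212) (nat_lit 0) (p (nat_lit 0x28192) (nat_lit 0) (p (nat_lit 0x30092) (nat_lit 0) (p (nat_lit 0x18012) (nat_lit 0) pn)))))))))))))))))))))))))) :=
  Cl.node (nat_lit 0x2a825888807870a) (nat_lit 1) (by decide +kernel) (ClAll.succ ClAll.zero n53)

def n69 : Cl (O (nat_lit 1)) (R (nat_lit 6353))
    (p (nat_lit 0x2a825888807870a) (nat_lit 0) (p (nat_lit 0xb0014) (nat_lit 0) (p (nat_lit 0xb000c) (nat_lit 1) (p (nat_lit 0x200004) (nat_lit 0) (p (nat_lit 0x109) (nat_lit 1) (p (nat_lit 0xc9) (nat_lit 1) (p (nat_lit 0x119) (nat_lit 1) (p (nat_lit 0xc1) (nat_lit 0) (p (nat_lit 0x81) (nat_lit 1) (p (nat_lit 0x41) (nat_lit 1) (p (nat_lit 0x8090787089a) (nat_lit 0) (p (nat_lit 0x7888706861a) (nat_lit 0) (p (nat_lit 0x800070686078a) (nat_lit 0) (p (nat_lit 0x800068605850a)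 (nat_lit 0) (p (nat_lit 0x705850682) (nat_lit 0) (p (nat_lit 0x685048402) (nat_lit 0) (p (nat_lit 0x160014) (nat_lit 0) (p (nat_lit 0x16000c) (nat_lit 0) (p (nat_lit 0x60592) (nat_lit 0) (p (nat_lit 0x48512) (nat_lit 0) (p (nat_lit 0x50392) (nat_lit 0) (p (nat_lit 0x38312) (nat_lit 0) (p (nat_lit 0x40212) (nat_lit 0) (p (nat_lit 0x28192) (nat_lit 0) (p (nat_lit 0x30092) (nat_lit 0) (p (nat_lit 0x18012) (nat_lit 0) pn)))))))))))))))))))))))))) :=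
  Cl.node (nat_lit 0x2a825890888098a) (nat_lit 1) (by decide +kernel) (ClAll.succ ClAll.zero n54)

def n70 : Cl (O (nat_lit 1)) (R (nat_lit 6353))
    (p (nat_lit 0x111) (nat_lit 0) (p (nat_lit 0x200004) (nat_lit 0) (p (nat_lit 0xc9) (nat_lit 0) (p (nat_lit 0x81) (nat_lit 0) (p (nat_lit 0x101) (nat_lit 1) (p (nat_lit 0x119) (nat_lit 0) (p (nat_lit 0xd1) (nat_lit 0) (p (nat_lit 0x89) (nat_lit 0) (p (nat_lit 0x41) (nat_lit 0) (p (nat_lit 0x8090787089a) (nat_lit 0) (p (nat_lit 0x7888706861a) (nat_lit 0) (p (nat_lit 0x800070686078a) (nat_lit 0) (p (nat_lit 0x800068605850a) (nat_lit 0) (p (nat_lit 0x705850682) (nat_lit 0) (p (nat_lit 0x685048402) (nat_lit 0) (p (nat_lit 0x160014) (nat_lit 0) (p (nat_lit 0x16000c) (nat_lit 0) (p (nat_lit 0x60592) (nat_lit 0) (p (nat_lit 0x48512) (nat_lit 0) (p (nat_lit 0x50392) (nat_lit 0) (p (nat_lit 0x38312) (nat_lit 0) (p (nat_lit 0x40212) (nat_lit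 0) (p (nat_lit 0x28192) (nat_lit 0) (p (nat_lit 0x30092) (nat_lit 0) (p (nat_lit 0x18012) (nat_lit 0) pn))))))))))))))))))))))))) :=
  Cl.node (nat_lit 0xb000c) (nat_lit 2) (by decide +kernel) (ClAll.succ (ClAll.succ ClAll.zero s3) n55)

def n71 : Cl (O (nat_lit 1)) (R (nat_lit 6353))
    (p (nat_lit 0x111) (nat_lit 0) (p (nat_lit 0x200004) (nat_lit 0) (p (nat_lit 0xc9) (nat_lit 1) (p (nat_lit 0x81) (nat_lit 0) (p (nat_lit 0x101) (nat_lit 1) (p (nat_lit 0x119) (nat_lit 0) (p (nat_lit 0xd1) (nat_lit 0) (p (nat_lit 0x89) (nat_lit 0) (p (nat_lit 0x41) (nat_lit 0) (p (nat_lit 0x8090787089a) (nat_lit 0) (p (nat_lit 0x7888706861a) (nat_lit 0) (p (nat_lit 0x800070686078a) (nat_lit 0) (p (nat_lit 0x800068605850a) (nat_lit 0) (p (nat_lit 0x705850682) (nat_lit 0) (p (nat_lit 0x685048402) (nat_lit 0) (p (nat_lit 0x160014) (nat_lit 0) (p (nat_lit 0x16000c) (nat_lit 0) (p (nat_lit 0x60592)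 (nat_lit 0) (p (nat_lit 0x48512) (nat_lit 0) (p (nat_lit 0x50392) (nat_lit 0) (p (nat_lit 0x38312) (nat_lit 0) (p (nat_lit 0x40212) (nat_lit 0) (p (nat_lit 0x28192) (nat_lit 0) (p (nat_lit 0x30092) (nat_lit 0) (p (nat_lit 0x18012) (nat_lit 0) pn))))))))))))))))))))))))) :=
  Cl.node (nat_lit 0xb000c) (nat_lit 2) (by decide +kernel) (ClAll.succ (ClAll.succ ClAll.zero n56) n57)

def n72 : Cl (O (nat_lit 1)) (R (nat_lit 6353))
    (p (nat_lit 0x200004) (nat_lit 0) (p (nat_lit 0xc9) (nat_lit 0) (p (nat_lit 0xc1) (nat_lit 0) (p (nat_lit 0x81) (nat_lit 1) (p (nat_lit 0x101) (nat_lit 1) (p (nat_lit 0x119) (nat_lit 0) (p (nat_lit 0xd1) (nat_lit 0) (p (nat_lit 0x89) (nat_lit 0) (p (nat_lit 0x41) (nat_lit 0) (p (nat_lit 0x8090787089a) (nat_lit 0) (p (nat_lit 0x7888706861a) (nat_lit 0) (p (nat_lit 0x800070686078a) (nat_lit 0) (p (nat_lit 0x800068605850a) (nat_lit 0) (p (nat_lit 0x705850682)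 (nat_lit 0) (p (nat_lit 0x685048402) (nat_lit 0) (p (nat_lit 0x160014) (nat_lit 0) (p (nat_lit 0x16000c) (nat_lit 0) (p (nat_lit 0x60592) (nat_lit 0) (p (nat_lit 0x48512) (nat_lit 0) (p (nat_lit 0x50392) (nat_lit 0) (p (nat_lit 0x38312) (nat_lit 0) (p (nat_lit 0x40212) (nat_lit 0) (p (nat_lit 0x28192) (nat_lit 0) (p (nat_lit 0x30092) (nat_lit 0) (p (nat_lit 0x18012) (nat_lit 0) pn))))))))))))))))))))))))) :=
  Cl.node (nat_lit 0xb000c) (nat_lit 2) (by decide +kernel) (ClAll.succ (ClAll.succ ClAll.zero s21) s22)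

def n73 : Cl (O (nat_lit 1)) (R (nat_lit 6353))
    (p (nat_lit 0xb000c) (nat_lit 0) (p (nat_lit 0x200004) (nat_lit 0) (p (nat_lit 0x109) (nat_lit 1) (p (nat_lit 0xc9) (nat_lit 1) (p (nat_lit 0xc1) (nat_lit 0) (p (nat_lit 0x119) (nat_lit 1) (p (nat_lit 0xd1) (nat_lit 0) (p (nat_lit 0x89) (nat_lit 0) (p (nat_lit 0x41) (nat_lit 0) (p (nat_lit 0x8090787089a) (nat_lit 0) (p (nat_lit 0x7888706861a) (nat_lit 0) (p (nat_lit 0x800070686078a) (nat_lit 0) (p (nat_lit 0x800068605850a) (nat_lit 0) (p (nat_lit 0x705850682) (nat_lit 0) (p (nat_lit 0x685048402) (nat_lit 0) (p (nat_lit 0x160014) (nat_lit 0) (p (nat_lit 0x16000c) (nat_lit 0) (p (nat_lit 0x60592) (nat_lit 0) (p (nat_lit 0x48512) (nat_lit 0) (p (nat_lit 0x50392) (nat_lit 0) (p (nat_lit 0x38312) (nat_lit 0) (p (nat_lit 0x40212) (nat_lit 0) (p (nat_lit 0x28192) (nat_lit 0) (p (nat_lit 0x30092) (nat_lit 0) (p (nat_lit 0x18012)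 (nat_lit 0) pn))))))))))))))))))))))))) :=
  Cl.node (nat_lit 0xb0014) (nat_lit 2) (by decide +kernel) (ClAll.succ (ClAll.succ ClAll.zero s28) s29)

def n74 : Cl (O (nat_lit 1)) (R (nat_lit 6353))
    (p (nat_lit 0xb000c) (nat_lit 1) (p (nat_lit 0x200004) (nat_lit 0) (p (nat_lit 0x109) (nat_lit 1) (p (nat_lit 0xc9) (nat_lit 1) (p (nat_lit 0xc1) (nat_lit 0) (p (nat_lit 0x119) (nat_lit 1) (p (nat_lit 0xd1) (nat_lit 0) (p (nat_lit 0x89) (nat_lit 0) (p (nat_lit 0x41) (nat_lit 0) (p (nat_lit 0x8090787089a) (nat_lit 0) (p (nat_lit 0x7888706861a) (nat_lit 0) (p (nat_lit 0x800070686078a) (nat_lit 0) (p (nat_lit 0x800068605850a) (nat_lit 0) (p (nat_lit 0x705850682) (nat_lit 0) (p (nat_lit 0x685048402) (nat_lit 0) (p (nat_lit 0x160014) (nat_lit 0) (p (nat_lit 0x16000c) (nat_lit 0) (p (nat_lit 0x60592) (nat_lit 0) (p (nat_lit 0x48512) (nat_lit 0) (p (nat_lit 0x50392) (nat_lit 0) (p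 (nat_lit 0x38312) (nat_lit 0) (p (nat_lit 0x40212) (nat_lit 0) (p (nat_lit 0x28192) (nat_lit 0) (p (nat_lit 0x30092) (nat_lit 0) (p (nat_lit 0x18012) (nat_lit 0) pn))))))))))))))))))))))))) :=
  Cl.node (nat_lit 0xb0014) (nat_lit 2) (by decide +kernel) (ClAll.succ (ClAll.succ ClAll.zero n58) s33)

def n75 : Cl (O (nat_lit 1)) (R (nat_lit 6353))
    (p (nat_lit 0x200004) (nat_lit 0) (p (nat_lit 0x109) (nat_lit 0) (p (nat_lit 0x101) (nat_lit 0) (p (nat_lit 0x81) (nat_lit 1) (p (nat_lit 0xc1) (nat_lit 1) (p (nat_lit 0x119) (nat_lit 1) (p (nat_lit 0xd1) (nat_lit 0) (p (nat_lit 0x89) (nat_lit 0) (p (nat_lit 0x41) (nat_lit 0) (p (nat_lit 0x8090787089a) (nat_lit 0) (p (nat_lit 0x7888706861a) (nat_lit 0) (p (nat_lit 0x800070686078a) (nat_lit 0) (p (nat_lit 0x800068605850a) (nat_lit 0) (p (nat_lit 0x705850682) (nat_lit 0) (p (nat_lit 0x685048402) (nat_lit 0) (p (nat_lit 0x160014)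 (nat_lit 0) (p (nat_lit 0x16000c) (nat_lit 0) (p (nat_lit 0x60592) (nat_lit 0) (p (nat_lit 0x48512) (nat_lit 0) (p (nat_lit 0x50392) (nat_lit 0) (p (nat_lit 0x38312) (nat_lit 0) (p (nat_lit 0x40212) (nat_lit 0) (p (nat_lit 0x28192) (nat_lit 0) (p (nat_lit 0x30092) (nat_lit 0) (p (nat_lit 0x18012) (nat_lit 0) pn))))))))))))))))))))))))) :=
  Cl.node (nat_lit 0xb000c) (nat_lit 2) (by decide +kernel) (ClAll.succ (ClAll.succ ClAll.zero s39) s40)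

def n76 : Cl (O (nat_lit 1)) (R (nat_lit 6353))
    (p (nat_lit 0x200004) (nat_lit 0) (p (nat_lit 0x109) (nat_lit 1) (p (nat_lit 0x101) (nat_lit 0) (p (nat_lit 0x81) (nat_lit 1) (p (nat_lit 0xc1) (nat_lit 1) (p (nat_lit 0x119) (nat_lit 1) (p (nat_lit 0xd1) (nat_lit 0) (p (nat_lit 0x89) (nat_lit 0) (p (nat_lit 0x41) (nat_lit 0) (p (nat_lit 0x8090787089a) (nat_lit 0) (p (nat_lit 0x7888706861a) (nat_lit 0) (p (nat_lit 0x800070686078a) (nat_lit 0) (p (nat_lit 0x800068605850a) (nat_lit 0) (p (nat_lit 0x705850682) (nat_lit 0) (p (nat_lit 0x685048402) (nat_lit 0) (p (nat_lit 0x160014) (nat_lit 0) (p (nat_lit 0x16000c) (nat_lit 0) (p (nat_lit 0x60592) (nat_lit 0) (p (nat_lit 0x48512) (nat_lit 0) (p (nat_lit 0x50392) (nat_lit 0) (p (nat_lit 0x38312) (nat_lit 0) (p (nat_lit 0x40212) (nat_lit 0) (p (nat_lit 0x28192) (nat_lit 0) (p (nat_lit 0x30092) (nat_lit 0) (p (nat_lit 0x18012)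 (nat_lit 0) pn))))))))))))))))))))))))) :=
  Cl.node (nat_lit 0xb000c) (nat_lit 2) (by decide +kernel) (ClAll.succ (ClAll.succ ClAll.zero s42) s43)

def n77 : Cl (O (nat_lit 1)) (R (nat_lit 6353))
    (p (nat_lit 0xb000c) (nat_lit 0) (p (nat_lit 0x200004) (nat_lit 0) (p (nat_lit 0x101) (nat_lit 1) (p (nat_lit 0x81) (nat_lit 1) (p (nat_lit 0xc1) (nat_lit 1) (p (nat_lit 0x119) (nat_lit 1) (p (nat_lit 0xd1) (nat_lit 0) (p (nat_lit 0x89) (nat_lit 0) (p (nat_lit 0x41) (nat_lit 0) (p (nat_lit 0x8090787089a) (nat_lit 0) (p (nat_lit 0x7888706861a) (nat_lit 0) (p (nat_lit 0x800070686078a) (nat_lit 0) (p (nat_lit 0x800068605850a) (nat_lit 0) (p (nat_lit 0x705850682) (nat_lit 0) (p (nat_lit 0x685048402) (nat_lit 0) (p (nat_lit 0x160014) (nat_lit 0) (p (nat_lit 0x16000c) (nat_lit 0) (p (nat_lit 0x60592) (nat_lit 0) (p (nat_lit 0x48512) (nat_lit 0) (p (nat_lit 0x50392) (nat_lit 0) (p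 (nat_lit 0x38312) (nat_lit 0) (p (nat_lit 0x40212) (nat_lit 0) (p (nat_lit 0x28192) (nat_lit 0) (p (nat_lit 0x30092) (nat_lit 0) (p (nat_lit 0x18012) (nat_lit 0) pn))))))))))))))))))))))))) :=
  Cl.node (nat_lit 0xb0014) (nat_lit 2) (by decide +kernel) (ClAll.succ (ClAll.succ ClAll.zero s45) s46)

def n78 : Cl (O (nat_lit 1)) (R (nat_lit 6353))
    (p (nat_lit 0x119) (nat_lit 1) (p (nat_lit 0x200004) (nat_lit 0) (p (nat_lit 0xc1) (nat_lit 0) (p (nat_lit 0x81) (nat_lit 1) (p (nat_lit 0x101) (nat_lit 1) (p (nat_lit 0x111) (nat_lit 0) (p (nat_lit 0xd1) (nat_lit 1) (p (nat_lit 0x89) (nat_lit 0) (p (nat_lit 0x41) (nat_lit 0) (p (nat_lit 0x8090787089a) (nat_lit 0) (p (nat_lit 0x7888706861a) (nat_lit 0) (p (nat_lit 0x800070686078a) (nat_lit 0) (p (nat_lit 0x800068605850a) (nat_lit 0) (p (nat_lit 0x705850682) (nat_lit 0) (p (nat_lit 0x685048402) (nat_lit 0) (p (nat_lit 0x160014)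 (nat_lit 0) (p (nat_lit 0x16000c) (nat_lit 0) (p (nat_lit 0x60592) (nat_lit 0) (p (nat_lit 0x48512) (nat_lit 0) (p (nat_lit 0x50392) (nat_lit 0) (p (nat_lit 0x38312) (nat_lit 0) (p (nat_lit 0x40212) (nat_lit 0) (p (nat_lit 0x28192) (nat_lit 0) (p (nat_lit 0x30092) (nat_lit 0) (p (nat_lit 0x18012) (nat_lit 0) pn))))))))))))))))))))))))) :=
  Cl.node (nat_lit 0xb000c) (nat_lit 2) (by decide +kernel) (ClAll.succ (ClAll.succ ClAll.zero s54) s55)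

def n79 : Cl (O (nat_lit 1)) (R (nat_lit 6353))
    (p (nat_lit 0xb000c) (nat_lit 1) (p (nat_lit 0x200004) (nat_lit 0) (p (nat_lit 0x111) (nat_lit 1) (p (nat_lit 0xd1) (nat_lit 1) (p (nat_lit 0xc1) (nat_lit 0) (p (nat_lit 0x119) (nat_lit 1) (p (nat_lit 0xc9) (nat_lit 0) (p (nat_lit 0x89) (nat_lit 1) (p (nat_lit 0x41) (nat_lit 0) (p (nat_lit 0x8090787089a) (nat_lit 0) (p (nat_lit 0x7888706861a) (nat_lit 0) (p (nat_lit 0x800070686078a) (nat_lit 0) (p (nat_lit 0x800068605850a) (nat_lit 0) (p (nat_lit 0x705850682) (nat_lit 0) (p (nat_lit 0x685048402) (nat_lit 0) (p (nat_lit 0x160014) (nat_lit 0) (p (nat_lit 0x16000c) (nat_lit 0) (p (nat_lit 0x60592) (nat_lit 0) (p (nat_lit 0x48512) (nat_lit 0) (p (nat_lit 0x50392) (nat_lit 0) (p (nat_lit 0x38312) (nat_lit 0) (p (nat_lit 0x40212) (nat_lit 0) (p (nat_lit 0x28192) (nat_lit 0) (p (nat_lit 0x30092) (nat_lit 0) (p (nat_lit 0x18012)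 (nat_lit 0) pn))))))))))))))))))))))))) :=
  Cl.node (nat_lit 0xb0014) (nat_lit 2) (by decide +kernel) (ClAll.succ (ClAll.succ ClAll.zero n59) s77)

def n80 : Cl (O (nat_lit 1)) (R (nat_lit 6353))
    (p (nat_lit 0x111) (nat_lit 0) (p (nat_lit 0x200004) (nat_lit 0) (p (nat_lit 0x89) (nat_lit 0) (p (nat_lit 0x109) (nat_lit 1) (p (nat_lit 0x101) (nat_lit 0) (p (nat_lit 0x119) (nat_lit 0) (p (nat_lit 0xd1) (nat_lit 0) (p (nat_lit 0x81) (nat_lit 0) (p (nat_lit 0x41) (nat_lit 1) (p (nat_lit 0x8090787089a) (nat_lit 0) (p (nat_lit 0x7888706861a) (nat_lit 0) (p (nat_lit 0x800070686078a) (nat_lit 0) (p (nat_lit 0x800068605850a) (nat_lit 0) (p (nat_lit 0x705850682) (nat_lit 0) (p (nat_lit 0x685048402) (nat_lit 0) (p (nat_lit 0x160014) (nat_lit 0) (p (nat_lit 0x16000c) (nat_lit 0) (p (nat_lit 0x60592) (nat_lit 0) (p (nat_lit 0x48512) (nat_lit 0) (p (nat_lit 0x50392) (nat_lit 0) (p (nat_lit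 0x38312) (nat_lit 0) (p (nat_lit 0x40212) (nat_lit 0) (p (nat_lit 0x28192) (nat_lit 0) (p (nat_lit 0x30092) (nat_lit 0) (p (nat_lit 0x18012) (nat_lit 0) pn))))))))))))))))))))))))) :=
  Cl.node (nat_lit 0xb000c) (nat_lit 2) (by decide +kernel) (ClAll.succ (ClAll.succ ClAll.zero s87) s88)

def n81 : Cl (O (nat_lit 1)) (R (nat_lit 6353))
    (p (nat_lit 0x200004) (nat_lit 0) (p (nat_lit 0xc9) (nat_lit 0) (p (nat_lit 0x89) (nat_lit 1) (p (nat_lit 0x109) (nat_lit 1) (p (nat_lit 0x101) (nat_lit 0) (p (nat_lit 0x119) (nat_lit 0) (p (nat_lit 0xd1) (nat_lit 0) (p (nat_lit 0x81) (nat_lit 0) (p (nat_lit 0x41) (nat_lit 1) (p (nat_lit 0x8090787089a) (nat_lit 0) (p (nat_lit 0x7888706861a) (nat_lit 0) (p (nat_lit 0x800070686078a) (nat_lit 0) (p (nat_lit 0x800068605850a) (nat_lit 0) (p (nat_lit 0x705850682) (nat_lit 0) (p (nat_lit 0x685048402) (nat_lit 0) (p (nat_lit 0x160014) (nat_lit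 0) (p (nat_lit 0x16000c) (nat_lit 0) (p (nat_lit 0x60592) (nat_lit 0) (p (nat_lit 0x48512) (nat_lit 0) (p (nat_lit 0x50392) (nat_lit 0) (p (nat_lit 0x38312) (nat_lit 0) (p (nat_lit 0x40212) (nat_lit 0) (p (nat_lit 0x28192) (nat_lit 0) (p (nat_lit 0x30092) (nat_lit 0) (p (nat_lit 0x18012) (nat_lit 0) pn))))))))))))))))))))))))) :=
  Cl.node (nat_lit 0xb000c) (nat_lit 2) (by decide +kernel) (ClAll.succ (ClAll.succ ClAll.zero s91) s92)

def n82 : Cl (O (nat_lit 1)) (R (nat_lit 6353))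
    (p (nat_lit 0x200004) (nat_lit 0) (p (nat_lit 0xc9) (nat_lit 0) (p (nat_lit 0x89) (nat_lit 1) (p (nat_lit 0xc1) (nat_lit 0) (p (nat_lit 0x101) (nat_lit 1) (p (nat_lit 0x119) (nat_lit 0) (p (nat_lit 0xd1) (nat_lit 0) (p (nat_lit 0x81) (nat_lit 0) (p (nat_lit 0x41) (nat_lit 1) (p (nat_lit 0x8090787089a) (nat_lit 0) (p (nat_lit 0x7888706861a) (nat_lit 0) (p (nat_lit 0x800070686078a) (nat_lit 0) (p (nat_lit 0x800068605850a) (nat_lit 0) (p (nat_lit 0x705850682) (nat_lit 0) (p (nat_lit 0x685048402) (nat_lit 0) (p (nat_lit 0x160014) (nat_lit 0) (p (nat_lit 0x16000c) (nat_lit 0) (p (nat_lit 0x60592) (nat_lit 0) (p (nat_lit 0x48512) (nat_lit 0) (p (nat_lit 0x50392) (nat_lit 0) (p (nat_lit 0x38312) (nat_lit 0) (p (nat_lit 0x40212) (nat_lit 0) (p (nat_lit 0x28192) (nat_lit 0) (p (nat_lit 0x30092) (nat_lit 0) (p (nat_lit 0x18012) (nat_lit 0) pn))))))))))))))))))))))))) :=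
  Cl.node (nat_lit 0xb000c) (nat_lit 2) (by decide +kernel) (ClAll.succ (ClAll.succ ClAll.zero s96) s97)

def n83 : Cl (O (nat_lit 1)) (R (nat_lit 6353))
    (p (nat_lit 0x200004) (nat_lit 0) (p (nat_lit 0xc9) (nat_lit 1) (p (nat_lit 0x89) (nat_lit 1) (p (nat_lit 0xc1) (nat_lit 0) (p (nat_lit 0x101) (nat_lit 1) (p (nat_lit 0x119) (nat_lit 0) (p (nat_lit 0xd1) (nat_lit 0) (p (nat_lit 0x81) (nat_lit 0) (p (nat_lit 0x41) (nat_lit 1) (p (nat_lit 0x8090787089a) (nat_lit 0) (p (nat_lit 0x7888706861a) (nat_lit 0) (p (nat_lit 0x800070686078a) (nat_lit 0) (p (nat_lit 0x800068605850a) (nat_lit 0) (p (nat_lit 0x705850682) (nat_lit 0) (p (nat_lit 0x685048402) (nat_lit 0) (p (nat_lit 0x160014) (nat_lit 0) (p (nat_lit 0x16000c) (nat_lit 0) (p (nat_lit 0x60592) (nat_lit 0) (p (nat_lit 0x48512) (nat_lit 0) (p (nat_lit 0x50392) (nat_lit 0) (p (nat_lit 0x38312) (nat_lit 0) (p (nat_lit 0x40212)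 (nat_lit 0) (p (nat_lit 0x28192) (nat_lit 0) (p (nat_lit 0x30092) (nat_lit 0) (p (nat_lit 0x18012) (nat_lit 0) pn))))))))))))))))))))))))) :=
  Cl.node (nat_lit 0xb000c) (nat_lit 2) (by decide +kernel) (ClAll.succ (ClAll.succ ClAll.zero s99) n60)

def n84 : Cl (O (nat_lit 1)) (R (nat_lit 6353))
    (p (nat_lit 0xb000c) (nat_lit 1) (p (nat_lit 0x200004) (nat_lit 0) (p (nat_lit 0x89) (nat_lit 1) (p (nat_lit 0xc1) (nat_lit 1) (p (nat_lit 0x101) (nat_lit 1) (p (nat_lit 0x119) (nat_lit 0) (p (nat_lit 0xd1) (nat_lit 0) (p (nat_lit 0x81) (nat_lit 0) (p (nat_lit 0x41) (nat_lit 1) (p (nat_lit 0x8090787089a) (nat_lit 0) (p (nat_lit 0x7888706861a) (nat_lit 0) (p (nat_lit 0x800070686078a) (nat_lit 0) (p (nat_lit 0x800068605850a) (nat_lit 0) (p (nat_lit 0x705850682) (nat_lit 0) (p (nat_lit 0x685048402) (nat_lit 0) (p (nat_lit 0x160014) (nat_lit 0) (p (nat_lit 0x16000c) (nat_lit 0) (p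 (nat_lit 0x60592) (nat_lit 0) (p (nat_lit 0x48512) (nat_lit 0) (p (nat_lit 0x50392) (nat_lit 0) (p (nat_lit 0x38312) (nat_lit 0) (p (nat_lit 0x40212) (nat_lit 0) (p (nat_lit 0x28192) (nat_lit 0) (p (nat_lit 0x30092) (nat_lit 0) (p (nat_lit 0x18012) (nat_lit 0) pn))))))))))))))))))))))))) :=
  Cl.node (nat_lit 0xb0014) (nat_lit 2) (by decide +kernel) (ClAll.succ (ClAll.succ ClAll.zero n61) s108)

def n85 : Cl (O (nat_lit 1)) (R (nat_lit 6353))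
    (p (nat_lit 0x200004) (nat_lit 0) (p (nat_lit 0x109) (nat_lit 0) (p (nat_lit 0x89) (nat_lit 1) (p (nat_lit 0xc9) (nat_lit 1) (p (nat_lit 0xc1) (nat_lit 0) (p (nat_lit 0x119) (nat_lit 1) (p (nat_lit 0xd1) (nat_lit 0) (p (nat_lit 0x81) (nat_lit 0) (p (nat_lit 0x41) (nat_lit 1) (p (nat_lit 0x8090787089a) (nat_lit 0) (p (nat_lit 0x7888706861a) (nat_lit 0) (p (nat_lit 0x800070686078a) (nat_lit 0) (p (nat_lit 0x800068605850a) (nat_lit 0) (p (nat_lit 0x705850682) (nat_lit 0) (p (nat_lit 0x685048402) (nat_lit 0) (p (nat_lit 0x160014) (nat_lit 0) (p (nat_lit 0x16000c) (nat_lit 0) (p (nat_lit 0x60592) (nat_lit 0) (p (nat_lit 0x48512) (nat_lit 0) (p (nat_lit 0x50392) (nat_lit 0) (p (nat_lit 0x38312) (nat_lit 0) (p (nat_lit 0x40212) (nat_lit 0) (p (nat_lit 0x28192) (nat_lit 0) (p (nat_lit 0x30092) (nat_lit 0) (p (nat_lit 0x18012) (nat_lit 0) pn))))))))))))))))))))))))) :=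
  Cl.node (nat_lit 0xb000c) (nat_lit 2) (by decide +kernel) (ClAll.succ (ClAll.succ ClAll.zero s112) n62)

def n86 : Cl (O (nat_lit 1)) (R (nat_lit 6353))
    (p (nat_lit 0x200004) (nat_lit 0) (p (nat_lit 0x109) (nat_lit 1) (p (nat_lit 0x89) (nat_lit 1) (p (nat_lit 0xc9) (nat_lit 1) (p (nat_lit 0xc1) (nat_lit 0) (p (nat_lit 0x119) (nat_lit 1) (p (nat_lit 0xd1) (nat_lit 0) (p (nat_lit 0x81) (nat_lit 0) (p (nat_lit 0x41) (nat_lit 1) (p (nat_lit 0x8090787089a) (nat_lit 0) (p (nat_lit 0x7888706861a) (nat_lit 0) (p (nat_lit 0x800070686078a) (nat_lit 0) (p (nat_lit 0x800068605850a) (nat_lit 0) (p (nat_lit 0x705850682) (nat_lit 0) (p (nat_lit 0x685048402) (nat_lit 0) (p (nat_lit 0x160014) (nat_lit 0) (p (nat_lit 0x16000c) (nat_lit 0) (p (nat_lit 0x60592) (nat_lit 0) (p (nat_lit 0x48512) (nat_lit 0) (p (nat_lit 0x50392) (nat_lit 0) (p (nat_lit 0x38312) (nat_lit 0) (p (nat_lit 0x40212)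 (nat_lit 0) (p (nat_lit 0x28192) (nat_lit 0) (p (nat_lit 0x30092) (nat_lit 0) (p (nat_lit 0x18012) (nat_lit 0) pn))))))))))))))))))))))))) :=
  Cl.node (nat_lit 0xb000c) (nat_lit 2) (by decide +kernel) (ClAll.succ (ClAll.succ ClAll.zero n63) s119)

def n87 : Cl (O (nat_lit 1)) (R (nat_lit 6353))
    (p (nat_lit 0x200004) (nat_lit 0) (p (nat_lit 0x109) (nat_lit 0) (p (nat_lit 0x89) (nat_lit 1) (p (nat_lit 0x101) (nat_lit 0) (p (nat_lit 0xc1) (nat_lit 1) (p (nat_lit 0x119) (nat_lit 1) (p (nat_lit 0xd1) (nat_lit 0) (p (nat_lit 0x81) (nat_lit 0) (p (nat_lit 0x41) (nat_lit 1) (p (nat_lit 0x8090787089a) (nat_lit 0) (p (nat_lit 0x7888706861a) (nat_lit 0) (p (nat_lit 0x800070686078a) (nat_lit 0) (p (nat_lit 0x800068605850a) (nat_lit 0) (p (nat_lit 0x705850682) (nat_lit 0) (p (nat_lit 0x685048402) (nat_lit 0) (p (nat_lit 0x160014) (nat_lit 0) (p (nat_lit 0x16000c) (nat_lit 0) (p (nat_lit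 0x60592) (nat_lit 0) (p (nat_lit 0x48512) (nat_lit 0) (p (nat_lit 0x50392) (nat_lit 0) (p (nat_lit 0x38312) (nat_lit 0) (p (nat_lit 0x40212) (nat_lit 0) (p (nat_lit 0x28192) (nat_lit 0) (p (nat_lit 0x30092) (nat_lit 0) (p (nat_lit 0x18012) (nat_lit 0) pn))))))))))))))))))))))))) :=
  Cl.node (nat_lit 0xb000c) (nat_lit 2) (by decide +kernel) (ClAll.succ (ClAll.succ ClAll.zero s122) s123)

def n88 : Cl (O (nat_lit 1)) (R (nat_lit 6353))
    (p (nat_lit 0x200004) (nat_lit 0) (p (nat_lit 0x109) (nat_lit 1) (p (nat_lit 0x89) (nat_lit 1) (p (nat_lit 0x101) (nat_lit 0) (p (nat_lit 0xc1) (nat_lit 1) (p (nat_lit 0x119) (nat_lit 1) (p (nat_lit 0xd1) (nat_lit 0) (p (nat_lit 0x81) (nat_lit 0) (p (nat_lit 0x41) (nat_lit 1) (p (nat_lit 0x8090787089a) (nat_lit 0) (p (nat_lit 0x7888706861a) (nat_lit 0) (p (nat_lit 0x800070686078a) (nat_lit 0) (p (nat_lit 0x800068605850a) (nat_lit 0) (p (nat_lit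 0x705850682) (nat_lit 0) (p (nat_lit 0x685048402) (nat_lit 0) (p (nat_lit 0x160014) (nat_lit 0) (p (nat_lit 0x16000c) (nat_lit 0) (p (nat_lit 0x60592) (nat_lit 0) (p (nat_lit 0x48512) (nat_lit 0) (p (nat_lit 0x50392) (nat_lit 0) (p (nat_lit 0x38312) (nat_lit 0) (p (nat_lit 0x40212) (nat_lit 0) (p (nat_lit 0x28192) (nat_lit 0) (p (nat_lit 0x30092) (nat_lit 0) (p (nat_lit 0x18012) (nat_lit 0) pn))))))))))))))))))))))))) :=
  Cl.node (nat_lit 0xb000c) (nat_lit 2) (by decide +kernel) (ClAll.succ (ClAll.succ ClAll.zero s125) s126)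

def n89 : Cl (O (nat_lit 1)) (R (nat_lit 6353))
    (p (nat_lit 0xb000c) (nat_lit 0) (p (nat_lit 0x200004) (nat_lit 0) (p (nat_lit 0x89) (nat_lit 1) (p (nat_lit 0x101) (nat_lit 1) (p (nat_lit 0xc1) (nat_lit 1) (p (nat_lit 0x119) (nat_lit 1) (p (nat_lit 0xd1) (nat_lit 0) (p (nat_lit 0x81) (nat_lit 0) (p (nat_lit 0x41) (nat_lit 1) (p (nat_lit 0x8090787089a) (nat_lit 0) (p (nat_lit 0x7888706861a) (nat_lit 0) (p (nat_lit 0x800070686078a) (nat_lit 0) (p (nat_lit 0x800068605850a) (nat_lit 0) (p (nat_lit 0x705850682) (nat_lit 0) (p (nat_lit 0x685048402) (nat_lit 0) (p (nat_lit 0x160014) (nat_lit 0) (p (nat_lit 0x16000c) (nat_lit 0) (p (nat_lit 0x60592) (nat_lit 0) (p (nat_lit 0x48512) (nat_lit 0) (p (nat_lit 0x50392) (nat_lit 0) (p (nat_lit 0x38312) (nat_lit 0) (p (nat_lit 0x40212) (nat_lit 0) (p (nat_lit 0x28192) (nat_lit 0) (p (nat_lit 0x30092) (nat_lit 0) (p (nat_lit 0x18012)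 (nat_lit 0) pn))))))))))))))))))))))))) :=
  Cl.node (nat_lit 0xb0014) (nat_lit 2) (by decide +kernel) (ClAll.succ (ClAll.succ ClAll.zero n64) s133)

def n90 : Cl (O (nat_lit 1)) (R (nat_lit 6353))
    (p (nat_lit 0xb000c) (nat_lit 1) (p (nat_lit 0x200004) (nat_lit 0) (p (nat_lit 0x89) (nat_lit 1) (p (nat_lit 0x101) (nat_lit 1) (p (nat_lit 0xc1) (nat_lit 1) (p (nat_lit 0x119) (nat_lit 1) (p (nat_lit 0xd1) (nat_lit 0) (p (nat_lit 0x81) (nat_lit 0) (p (nat_lit 0x41) (nat_lit 1) (p (nat_lit 0x8090787089a) (nat_lit 0) (p (nat_lit 0x7888706861a) (nat_lit 0) (p (nat_lit 0x800070686078a) (nat_lit 0) (p (nat_lit 0x800068605850a) (nat_lit 0) (p (nat_lit 0x705850682) (nat_lit 0) (p (nat_lit 0x685048402) (nat_lit 0) (p (nat_lit 0x160014) (nat_lit 0) (p (nat_lit 0x16000c) (nat_lit 0) (p (nat_lit 0x60592) (nat_lit 0) (p (nat_lit 0x48512) (nat_lit 0) (p (nat_lit 0x50392) (nat_lit 0) (p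 (nat_lit 0x38312) (nat_lit 0) (p (nat_lit 0x40212) (nat_lit 0) (p (nat_lit 0x28192) (nat_lit 0) (p (nat_lit 0x30092) (nat_lit 0) (p (nat_lit 0x18012) (nat_lit 0) pn))))))))))))))))))))))))) :=
  Cl.node (nat_lit 0xb0014) (nat_lit 2) (by decide +kernel) (ClAll.succ (ClAll.succ ClAll.zero n65) s139)

def n91 : Cl (O (nat_lit 1)) (R (nat_lit 6353))
    (p (nat_lit 0x200004) (nat_lit 0) (p (nat_lit 0xc9) (nat_lit 0) (p (nat_lit 0x89) (nat_lit 1) (p (nat_lit 0x109) (nat_lit 1) (p (nat_lit 0x101) (nat_lit 0) (p (nat_lit 0x111) (nat_lit 0) (p (nat_lit 0xd1) (nat_lit 1) (p (nat_lit 0x81) (nat_lit 0) (p (nat_lit 0x41) (nat_lit 1) (p (nat_lit 0x8090787089a) (nat_lit 0) (p (nat_lit 0x7888706861a) (nat_lit 0) (p (nat_lit 0x800070686078a) (nat_lit 0) (p (nat_lit 0x800068605850a) (nat_lit 0) (p (nat_lit 0x705850682) (nat_lit 0) (p (nat_lit 0x685048402) (nat_lit 0) (p (nat_lit 0x160014)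 (nat_lit 0) (p (nat_lit 0x16000c) (nat_lit 0) (p (nat_lit 0x60592) (nat_lit 0) (p (nat_lit 0x48512) (nat_lit 0) (p (nat_lit 0x50392) (nat_lit 0) (p (nat_lit 0x38312) (nat_lit 0) (p (nat_lit 0x40212) (nat_lit 0) (p (nat_lit 0x28192) (nat_lit 0) (p (nat_lit 0x30092) (nat_lit 0) (p (nat_lit 0x18012) (nat_lit 0) pn))))))))))))))))))))))))) :=
  Cl.node (nat_lit 0x119) (nat_lit 2) (by decide +kernel) (ClAll.succ (ClAll.succ ClAll.zero s143) n66)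

def n92 : Cl (O (nat_lit 1)) (R (nat_lit 6353))
    (p (nat_lit 0xb000c) (nat_lit 0) (p (nat_lit 0x200004) (nat_lit 0) (p (nat_lit 0xc9) (nat_lit 0) (p (nat_lit 0x89) (nat_lit 1) (p (nat_lit 0x101) (nat_lit 1) (p (nat_lit 0x111) (nat_lit 0) (p (nat_lit 0xd1) (nat_lit 1) (p (nat_lit 0x81) (nat_lit 0) (p (nat_lit 0x41) (nat_lit 1) (p (nat_lit 0x8090787089a) (nat_lit 0) (p (nat_lit 0x7888706861a) (nat_lit 0) (p (nat_lit 0x800070686078a) (nat_lit 0) (p (nat_lit 0x800068605850a) (nat_lit 0) (p (nat_lit 0x705850682) (nat_lit 0) (p (nat_lit 0x685048402) (nat_lit 0) (p (nat_lit 0x160014) (nat_lit 0) (p (nat_lit 0x16000c) (nat_lit 0) (p (nat_lit 0x60592) (nat_lit 0) (p (nat_lit 0x48512) (nat_lit 0) (p (nat_lit 0x50392) (nat_lit 0) (p (nat_lit 0x38312) (nat_lit 0) (p (nat_lit 0x40212) (nat_lit 0) (p (nat_lit 0x28192) (nat_lit 0) (p (nat_lit 0x30092) (nat_lit 0) (p (nat_lit 0x18012)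 (nat_lit 0) pn))))))))))))))))))))))))) :=
  Cl.node (nat_lit 0xb0014) (nat_lit 2) (by decide +kernel) (ClAll.succ (ClAll.succ ClAll.zero n67) s151)

def n93 : Cl (O (nat_lit 1)) (R (nat_lit 6353))
    (p (nat_lit 0xb000c) (nat_lit 1) (p (nat_lit 0x200004) (nat_lit 0) (p (nat_lit 0xc9) (nat_lit 0) (p (nat_lit 0x89) (nat_lit 1) (p (nat_lit 0x101) (nat_lit 1) (p (nat_lit 0x111) (nat_lit 0) (p (nat_lit 0xd1) (nat_lit 1) (p (nat_lit 0x81) (nat_lit 0) (p (nat_lit 0x41) (nat_lit 1) (p (nat_lit 0x8090787089a) (nat_lit 0) (p (nat_lit 0x7888706861a) (nat_lit 0) (p (nat_lit 0x800070686078a) (nat_lit 0) (p (nat_lit 0x800068605850a) (nat_lit 0) (p (nat_lit 0x705850682) (nat_lit 0) (p (nat_lit 0x685048402) (nat_lit 0) (p (nat_lit 0x160014) (nat_lit 0) (p (nat_lit 0x16000c) (nat_lit 0) (p (nat_lit 0x60592) (nat_lit 0) (p (nat_lit 0x48512) (nat_lit 0) (p (nat_lit 0x50392) (nat_lit 0) (p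 (nat_lit 0x38312) (nat_lit 0) (p (nat_lit 0x40212) (nat_lit 0) (p (nat_lit 0x28192) (nat_lit 0) (p (nat_lit 0x30092) (nat_lit 0) (p (nat_lit 0x18012) (nat_lit 0) pn))))))))))))))))))))))))) :=
  Cl.node (nat_lit 0xb0014) (nat_lit 2) (by decide +kernel) (ClAll.succ (ClAll.succ ClAll.zero n68) s155)

def n94 : Cl (O (nat_lit 1)) (R (nat_lit 6353))
    (p (nat_lit 0xb0014) (nat_lit 0) (p (nat_lit 0xb000c) (nat_lit 1) (p (nat_lit 0x200004) (nat_lit 0) (p (nat_lit 0x109) (nat_lit 1) (p (nat_lit 0xc9) (nat_lit 1) (p (nat_lit 0x119) (nat_lit 1) (p (nat_lit 0xc1) (nat_lit 0) (p (nat_lit 0x81) (nat_lit 1) (p (nat_lit 0x41) (nat_lit 1) (p (nat_lit 0x8090787089a) (nat_lit 0) (p (nat_lit 0x7888706861a) (nat_lit 0) (p (nat_lit 0x800070686078a) (nat_lit 0) (p (nat_lit 0x800068605850a) (nat_lit 0) (p (nat_lit 0x705850682) (nat_lit 0) (p (nat_lit 0x685048402) (nat_lit 0) (p (nat_lit 0x160014)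 (nat_lit 0) (p (nat_lit 0x16000c) (nat_lit 0) (p (nat_lit 0x60592) (nat_lit 0) (p (nat_lit 0x48512) (nat_lit 0) (p (nat_lit 0x50392) (nat_lit 0) (p (nat_lit 0x38312) (nat_lit 0) (p (nat_lit 0x40212) (nat_lit 0) (p (nat_lit 0x28192) (nat_lit 0) (p (nat_lit 0x30092) (nat_lit 0) (p (nat_lit 0x18012) (nat_lit 0) pn))))))))))))))))))))))))) :=
  Cl.node (nat_lit 0x2a825888807870a) (nat_lit 1) (by decide +kernel) (ClAll.succ ClAll.zero n69)

def n95 : Cl (O (nat_lit 1)) (R (nat_lit 6353))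
    (p (nat_lit 0x200004) (nat_lit 0) (p (nat_lit 0xc9) (nat_lit 0) (p (nat_lit 0x81) (nat_lit 0) (p (nat_lit 0x101) (nat_lit 1) (p (nat_lit 0x119) (nat_lit 0) (p (nat_lit 0xd1) (nat_lit 0) (p (nat_lit 0x89) (nat_lit 0) (p (nat_lit 0x41) (nat_lit 0) (p (nat_lit 0x8090787089a) (nat_lit 0) (p (nat_lit 0x7888706861a) (nat_lit 0) (p (nat_lit 0x800070686078a) (nat_lit 0) (p (nat_lit 0x800068605850a) (nat_lit 0) (p (nat_lit 0x705850682) (nat_lit 0) (p (nat_lit 0x685048402) (nat_lit 0) (p (nat_lit 0x160014) (nat_lit 0) (p (nat_lit 0x16000c) (nat_lit 0) (p (nat_lit 0x60592) (nat_lit 0) (p (nat_lit 0x48512) (nat_lit 0) (p (nat_lit 0x50392) (nat_lit 0) (p (nat_lit 0x38312) (nat_lit 0) (p (nat_lit 0x40212) (nat_lit 0) (p (nat_lit 0x28192) (nat_lit 0) (p (nat_lit 0x30092) (nat_lit 0) (p (nat_lit 0x18012) (nat_lit 0) pn)))))))))))))))))))))))) :=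
  Cl.node (nat_lit 0x111) (nat_lit 2) (by decide +kernel) (ClAll.succ (ClAll.succ ClAll.zero n70) s9)

def n96 : Cl (O (nat_lit 1)) (R (nat_lit 6353))
    (p (nat_lit 0x200004) (nat_lit 0) (p (nat_lit 0xc9) (nat_lit 1) (p (nat_lit 0x81) (nat_lit 0) (p (nat_lit 0x101) (nat_lit 1) (p (nat_lit 0x119) (nat_lit 0) (p (nat_lit 0xd1) (nat_lit 0) (p (nat_lit 0x89) (nat_lit 0) (p (nat_lit 0x41) (nat_lit 0) (p (nat_lit 0x8090787089a) (nat_lit 0) (p (nat_lit 0x7888706861a) (nat_lit 0) (p (nat_lit 0x800070686078a) (nat_lit 0) (p (nat_lit 0x800068605850a) (nat_lit 0) (p (nat_lit 0x705850682) (nat_lit 0) (p (nat_lit 0x685048402) (nat_lit 0) (p (nat_lit 0x160014) (nat_lit 0) (p (nat_lit 0x16000c) (nat_lit 0) (p (nat_lit 0x60592) (nat_lit 0) (p (nat_lit 0x48512) (nat_lit 0) (p (nat_lit 0x50392) (nat_lit 0) (p (nat_lit 0x38312) (nat_lit 0) (p (nat_lit 0x40212) (nat_lit 0) (p (nat_lit 0x28192)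 (nat_lit 0) (p (nat_lit 0x30092) (nat_lit 0) (p (nat_lit 0x18012) (nat_lit 0) pn)))))))))))))))))))))))) :=
  Cl.node (nat_lit 0x111) (nat_lit 2) (by decide +kernel) (ClAll.succ (ClAll.succ ClAll.zero n71) s19)

def n97 : Cl (O (nat_lit 1)) (R (nat_lit 6353))
    (p (nat_lit 0xc9) (nat_lit 0) (p (nat_lit 0xc1) (nat_lit 0) (p (nat_lit 0x81) (nat_lit 1) (p (nat_lit 0x101) (nat_lit 1) (p (nat_lit 0x119) (nat_lit 0) (p (nat_lit 0xd1) (nat_lit 0) (p (nat_lit 0x89) (nat_lit 0) (p (nat_lit 0x41) (nat_lit 0) (p (nat_lit 0x8090787089a) (nat_lit 0) (p (nat_lit 0x7888706861a) (nat_lit 0) (p (nat_lit 0x800070686078a) (nat_lit 0) (p (nat_lit 0x800068605850a) (nat_lit 0) (p (nat_lit 0x705850682) (nat_lit 0) (p (nat_lit 0x685048402) (nat_lit 0) (p (nat_lit 0x160014) (nat_lit 0) (p (nat_lit 0x16000c) (nat_lit 0) (p (nat_lit 0x60592) (nat_lit 0) (p (nat_lit 0x48512) (nat_lit 0) (p (nat_lit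 0x50392) (nat_lit 0) (p (nat_lit 0x38312) (nat_lit 0) (p (nat_lit 0x40212) (nat_lit 0) (p (nat_lit 0x28192) (nat_lit 0) (p (nat_lit 0x30092) (nat_lit 0) (p (nat_lit 0x18012) (nat_lit 0) pn)))))))))))))))))))))))) :=
  Cl.node (nat_lit 0x200004) (nat_lit 2) (by decide +kernel) (ClAll.succ (ClAll.succ ClAll.zero n72) s23)

def n98 : Cl (O (nat_lit 1)) (R (nat_lit 6353))
    (p (nat_lit 0x200004) (nat_lit 0) (p (nat_lit 0x109) (nat_lit 1) (p (nat_lit 0xc9) (nat_lit 1) (p (nat_lit 0xc1) (nat_lit 0) (p (nat_lit 0x119) (nat_lit 1) (p (nat_lit 0xd1) (nat_lit 0) (p (nat_lit 0x89) (nat_lit 0) (p (nat_lit 0x41) (nat_lit 0) (p (nat_lit 0x8090787089a) (nat_lit 0) (p (nat_lit 0x7888706861a) (nat_lit 0) (p (nat_lit 0x800070686078a) (nat_lit 0) (p (nat_lit 0x800068605850a) (nat_lit 0) (p (nat_lit 0x705850682) (nat_lit 0) (p (nat_lit 0x685048402) (nat_lit 0) (p (nat_lit 0x160014) (nat_lit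 0) (p (nat_lit 0x16000c) (nat_lit 0) (p (nat_lit 0x60592) (nat_lit 0) (p (nat_lit 0x48512) (nat_lit 0) (p (nat_lit 0x50392) (nat_lit 0) (p (nat_lit 0x38312) (nat_lit 0) (p (nat_lit 0x40212) (nat_lit 0) (p (nat_lit 0x28192) (nat_lit 0) (p (nat_lit 0x30092) (nat_lit 0) (p (nat_lit 0x18012) (nat_lit 0) pn)))))))))))))))))))))))) :=
  Cl.node (nat_lit 0xb000c) (nat_lit 2) (by decide +kernel) (ClAll.succ (ClAll.succ ClAll.zero n73) n74)

def n99 : Cl (O (nat_lit 1)) (R (nat_lit 6353))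
    (p (nat_lit 0x200004) (nat_lit 0) (p (nat_lit 0x109) (nat_lit 1) (p (nat_lit 0x81) (nat_lit 0) (p (nat_lit 0xc1) (nat_lit 1) (p (nat_lit 0x119) (nat_lit 1) (p (nat_lit 0xd1) (nat_lit 0) (p (nat_lit 0x89) (nat_lit 0) (p (nat_lit 0x41) (nat_lit 0) (p (nat_lit 0x8090787089a) (nat_lit 0) (p (nat_lit 0x7888706861a) (nat_lit 0) (p (nat_lit 0x800070686078a) (nat_lit 0) (p (nat_lit 0x800068605850a) (nat_lit 0) (p (nat_lit 0x705850682) (nat_lit 0) (p (nat_lit 0x685048402) (nat_lit 0) (p (nat_lit 0x160014) (nat_lit 0) (p (nat_lit 0x16000c) (nat_lit 0) (p (nat_lit 0x60592) (nat_lit 0) (p (nat_lit 0x48512) (nat_lit 0) (p (nat_lit 0x50392) (nat_lit 0) (p (nat_lit 0x38312) (nat_lit 0) (p (nat_lit 0x40212) (nat_lit 0) (p (nat_lit 0x28192) (nat_lit 0) (p (nat_lit 0x30092) (nat_lit 0) (p (nat_lit 0x18012) (nat_lit 0) pn)))))))))))))))))))))))) :=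
  Cl.node (nat_lit 0xb000c) (nat_lit 2) (by decide +kernel) (ClAll.succ (ClAll.succ ClAll.zero s36) s37)

def n100 : Cl (O (nat_lit 1)) (R (nat_lit 6353))
    (p (nat_lit 0x109) (nat_lit 0) (p (nat_lit 0x101) (nat_lit 0) (p (nat_lit 0x81) (nat_lit 1) (p (nat_lit 0xc1) (nat_lit 1) (p (nat_lit 0x119) (nat_lit 1) (p (nat_lit 0xd1) (nat_lit 0) (p (nat_lit 0x89) (nat_lit 0) (p (nat_lit 0x41) (nat_lit 0) (p (nat_lit 0x8090787089a) (nat_lit 0) (p (nat_lit 0x7888706861a) (nat_lit 0) (p (nat_lit 0x800070686078a) (nat_lit 0) (p (nat_lit 0x800068605850a) (nat_lit 0) (p (nat_lit 0x705850682) (nat_lit 0) (p (nat_lit 0x685048402) (nat_lit 0) (p (nat_lit 0x160014) (nat_lit 0) (p (nat_lit 0x16000c) (nat_lit 0) (p (nat_lit 0x60592) (nat_lit 0) (p (nat_lit 0x48512) (nat_lit 0) (p (nat_lit 0x50392) (nat_lit 0) (p (nat_lit 0x38312) (nat_lit 0) (p (nat_lit 0x40212) (nat_lit 0) (p (nat_lit 0x28192)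 (nat_lit 0) (p (nat_lit 0x30092) (nat_lit 0) (p (nat_lit 0x18012) (nat_lit 0) pn)))))))))))))))))))))))) :=
  Cl.node (nat_lit 0x200004) (nat_lit 2) (by decide +kernel) (ClAll.succ (ClAll.succ ClAll.zero n75) s41)

def n101 : Cl (O (nat_lit 1)) (R (nat_lit 6353))
    (p (nat_lit 0x109) (nat_lit 1) (p (nat_lit 0x101) (nat_lit 0) (p (nat_lit 0x81) (nat_lit 1) (p (nat_lit 0xc1) (nat_lit 1) (p (nat_lit 0x119) (nat_lit 1) (p (nat_lit 0xd1) (nat_lit 0) (p (nat_lit 0x89) (nat_lit 0) (p (nat_lit 0x41) (nat_lit 0) (p (nat_lit 0x8090787089a) (nat_lit 0) (p (nat_lit 0x7888706861a) (nat_lit 0) (p (nat_lit 0x800070686078a) (nat_lit 0) (p (nat_lit 0x800068605850a) (nat_lit 0) (p (nat_lit 0x705850682) (nat_lit 0) (p (nat_lit 0x685048402) (nat_lit 0) (p (nat_lit 0x160014) (nat_lit 0) (p (nat_lit 0x16000c) (nat_lit 0) (p (nat_lit 0x60592) (nat_lit 0) (p (nat_lit 0x48512) (nat_lit 0) (p (nat_lit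 0x50392) (nat_lit 0) (p (nat_lit 0x38312) (nat_lit 0) (p (nat_lit 0x40212) (nat_lit 0) (p (nat_lit 0x28192) (nat_lit 0) (p (nat_lit 0x30092) (nat_lit 0) (p (nat_lit 0x18012) (nat_lit 0) pn)))))))))))))))))))))))) :=
  Cl.node (nat_lit 0x200004) (nat_lit 2) (by decide +kernel) (ClAll.succ (ClAll.succ ClAll.zero n76) s44)

def n102 : Cl (O (nat_lit 1)) (R (nat_lit 6353))
    (p (nat_lit 0x200004) (nat_lit 0) (p (nat_lit 0x101) (nat_lit 1) (p (nat_lit 0x81) (nat_lit 1) (p (nat_lit 0xc1) (nat_lit 1) (p (nat_lit 0x119) (nat_lit 1) (p (nat_lit 0xd1) (nat_lit 0) (p (nat_lit 0x89) (nat_lit 0) (p (nat_lit 0x41) (nat_lit 0) (p (nat_lit 0x8090787089a) (nat_lit 0) (p (nat_lit 0x7888706861a) (nat_lit 0) (p (nat_lit 0x800070686078a) (nat_lit 0) (p (nat_lit 0x800068605850a) (nat_lit 0) (p (nat_lit 0x705850682) (nat_lit 0) (p (nat_lit 0x685048402) (nat_lit 0) (p (nat_lit 0x160014) (nat_lit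 0) (p (nat_lit 0x16000c) (nat_lit 0) (p (nat_lit 0x60592) (nat_lit 0) (p (nat_lit 0x48512) (nat_lit 0) (p (nat_lit 0x50392) (nat_lit 0) (p (nat_lit 0x38312) (nat_lit 0) (p (nat_lit 0x40212) (nat_lit 0) (p (nat_lit 0x28192) (nat_lit 0) (p (nat_lit 0x30092) (nat_lit 0) (p (nat_lit 0x18012) (nat_lit 0) pn)))))))))))))))))))))))) :=
  Cl.node (nat_lit 0xb000c) (nat_lit 2) (by decide +kernel) (ClAll.succ (ClAll.succ ClAll.zero n77) s47)

def n103 : Cl (O (nat_lit 1)) (R (nat_lit 6353))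
    (p (nat_lit 0x200004) (nat_lit 0) (p (nat_lit 0xc1) (nat_lit 0) (p (nat_lit 0x81) (nat_lit 1) (p (nat_lit 0x101) (nat_lit 1) (p (nat_lit 0x111) (nat_lit 0) (p (nat_lit 0xd1) (nat_lit 1) (p (nat_lit 0x89) (nat_lit 0) (p (nat_lit 0x41) (nat_lit 0) (p (nat_lit 0x8090787089a) (nat_lit 0) (p (nat_lit 0x7888706861a) (nat_lit 0) (p (nat_lit 0x800070686078a) (nat_lit 0) (p (nat_lit 0x800068605850a) (nat_lit 0) (p (nat_lit 0x705850682) (nat_lit 0) (p (nat_lit 0x685048402) (nat_lit 0) (p (nat_lit 0x160014) (nat_lit 0) (p (nat_lit 0x16000c) (nat_lit 0) (p (nat_lit 0x60592) (nat_lit 0) (p (nat_lit 0x48512) (nat_lit 0) (p (nat_lit 0x50392) (nat_lit 0) (p (nat_lit 0x38312) (nat_lit 0) (p (nat_lit 0x40212) (nat_lit 0) (p (nat_lit 0x28192) (nat_lit 0) (p (nat_lit 0x30092) (nat_lit 0) (p (nat_lit 0x18012) (nat_lit 0) pn)))))))))))))))))))))))) :=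
  Cl.node (nat_lit 0x119) (nat_lit 2) (by decide +kernel) (ClAll.succ (ClAll.succ ClAll.zero s53) n78)

def n104 : Cl (O (nat_lit 1)) (R (nat_lit 6353))
    (p (nat_lit 0x200004) (nat_lit 0) (p (nat_lit 0xd1) (nat_lit 0) (p (nat_lit 0xc1) (nat_lit 0) (p (nat_lit 0x101) (nat_lit 1) (p (nat_lit 0x119) (nat_lit 0) (p (nat_lit 0xc9) (nat_lit 0) (p (nat_lit 0x89) (nat_lit 1) (p (nat_lit 0x41) (nat_lit 0) (p (nat_lit 0x8090787089a) (nat_lit 0) (p (nat_lit 0x7888706861a) (nat_lit 0) (p (nat_lit 0x800070686078a) (nat_lit 0) (p (nat_lit 0x800068605850a) (nat_lit 0) (p (nat_lit 0x705850682) (nat_lit 0) (p (nat_lit 0x685048402) (nat_lit 0) (p (nat_lit 0x160014) (nat_lit 0) (p (nat_lit 0x16000c) (nat_lit 0) (p (nat_lit 0x60592) (nat_lit 0) (p (nat_lit 0x48512) (nat_lit 0) (p (nat_lit 0x50392) (nat_lit 0) (p (nat_lit 0x38312) (nat_lit 0) (p (nat_lit 0x40212) (nat_lit 0) (p (nat_lit 0x28192)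 (nat_lit 0) (p (nat_lit 0x30092) (nat_lit 0) (p (nat_lit 0x18012) (nat_lit 0) pn)))))))))))))))))))))))) :=
  Cl.node (nat_lit 0xb000c) (nat_lit 2) (by decide +kernel) (ClAll.succ (ClAll.succ ClAll.zero s66) s67)

def n105 : Cl (O (nat_lit 1)) (R (nat_lit 6353))
    (p (nat_lit 0x200004) (nat_lit 0) (p (nat_lit 0x111) (nat_lit 1) (p (nat_lit 0xd1) (nat_lit 1) (p (nat_lit 0xc1) (nat_lit 0) (p (nat_lit 0x119) (nat_lit 1) (p (nat_lit 0xc9) (nat_lit 0) (p (nat_lit 0x89) (nat_lit 1) (p (nat_lit 0x41) (nat_lit 0) (p (nat_lit 0x8090787089a) (nat_lit 0) (p (nat_lit 0x7888706861a) (nat_lit 0) (p (nat_lit 0x800070686078a) (nat_lit 0) (p (nat_lit 0x800068605850a) (nat_lit 0) (p (nat_lit 0x705850682) (nat_lit 0) (p (nat_lit 0x685048402) (nat_lit 0) (p (nat_lit 0x160014) (nat_lit 0) (p (nat_lit 0x16000c) (nat_lit 0) (p (nat_lit 0x60592) (nat_lit 0) (p (nat_lit 0x48512) (nat_lit 0) (p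 (nat_lit 0x50392) (nat_lit 0) (p (nat_lit 0x38312) (nat_lit 0) (p (nat_lit 0x40212) (nat_lit 0) (p (nat_lit 0x28192) (nat_lit 0) (p (nat_lit 0x30092) (nat_lit 0) (p (nat_lit 0x18012) (nat_lit 0) pn)))))))))))))))))))))))) :=
  Cl.node (nat_lit 0xb000c) (nat_lit 2) (by decide +kernel) (ClAll.succ (ClAll.succ ClAll.zero s73) n79)

def n106 : Cl (O (nat_lit 1)) (R (nat_lit 6353))
    (p (nat_lit 0x200004) (nat_lit 0) (p (nat_lit 0x111) (nat_lit 1) (p (nat_lit 0x101) (nat_lit 0) (p (nat_lit 0xc1) (nat_lit 1) (p (nat_lit 0x119) (nat_lit 1) (p (nat_lit 0xc9) (nat_lit 0) (p (nat_lit 0x89) (nat_lit 1) (p (nat_lit 0x41) (nat_lit 0) (p (nat_lit 0x8090787089a) (nat_lit 0) (p (nat_lit 0x7888706861a) (nat_lit 0) (p (nat_lit 0x800070686078a) (nat_lit 0) (p (nat_lit 0x800068605850a) (nat_lit 0) (p (nat_lit 0x705850682) (nat_lit 0) (p (nat_lit 0x685048402) (nat_lit 0) (p (nat_lit 0x160014)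 (nat_lit 0) (p (nat_lit 0x16000c) (nat_lit 0) (p (nat_lit 0x60592) (nat_lit 0) (p (nat_lit 0x48512) (nat_lit 0) (p (nat_lit 0x50392) (nat_lit 0) (p (nat_lit 0x38312) (nat_lit 0) (p (nat_lit 0x40212) (nat_lit 0) (p (nat_lit 0x28192) (nat_lit 0) (p (nat_lit 0x30092) (nat_lit 0) (p (nat_lit 0x18012) (nat_lit 0) pn)))))))))))))))))))))))) :=
  Cl.node (nat_lit 0xb000c) (nat_lit 2) (by decide +kernel) (ClAll.succ (ClAll.succ ClAll.zero s80) s81)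

def n107 : Cl (O (nat_lit 1)) (R (nat_lit 6353))
    (p (nat_lit 0x200004) (nat_lit 0) (p (nat_lit 0x89) (nat_lit 0) (p (nat_lit 0x109) (nat_lit 1) (p (nat_lit 0x101) (nat_lit 0) (p (nat_lit 0x119) (nat_lit 0) (p (nat_lit 0xd1) (nat_lit 0) (p (nat_lit 0x81) (nat_lit 0) (p (nat_lit 0x41) (nat_lit 1) (p (nat_lit 0x8090787089a) (nat_lit 0) (p (nat_lit 0x7888706861a) (nat_lit 0) (p (nat_lit 0x800070686078a) (nat_lit 0) (p (nat_lit 0x800068605850a) (nat_lit 0) (p (nat_lit 0x705850682) (nat_lit 0) (p (nat_lit 0x685048402) (nat_lit 0) (p (nat_lit 0x160014) (nat_lit 0) (p (nat_lit 0x16000c) (nat_lit 0) (p (nat_lit 0x60592) (nat_lit 0) (p (nat_lit 0x48512) (nat_lit 0) (p (nat_lit 0x50392) (nat_lit 0) (p (nat_lit 0x38312) (nat_lit 0) (p (nat_lit 0x40212) (nat_lit 0) (p (nat_lit 0x28192) (nat_lit 0) (p (nat_lit 0x30092) (nat_lit 0) (p (nat_lit 0x18012) (nat_lit 0) pn))))))))))))))))))))))))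 :=
  Cl.node (nat_lit 0x111) (nat_lit 2) (by decide +kernel) (ClAll.succ (ClAll.succ ClAll.zero n80) s89)

def n108 : Cl (O (nat_lit 1)) (R (nat_lit 6353))
    (p (nat_lit 0xc9) (nat_lit 0) (p (nat_lit 0x89) (nat_lit 1) (p (nat_lit 0x109) (nat_lit 1) (p (nat_lit 0x101) (nat_lit 0) (p (nat_lit 0x119) (nat_lit 0) (p (nat_lit 0xd1) (nat_lit 0) (p (nat_lit 0x81) (nat_lit 0) (p (nat_lit 0x41) (nat_lit 1) (p (nat_lit 0x8090787089a) (nat_lit 0) (p (nat_lit 0x7888706861a) (nat_lit 0) (p (nat_lit 0x800070686078a) (nat_lit 0) (p (nat_lit 0x800068605850a) (nat_lit 0) (p (nat_lit 0x705850682) (nat_lit 0) (p (nat_lit 0x685048402) (nat_lit 0) (p (nat_lit 0x160014) (nat_lit 0) (p (nat_lit 0x16000c) (nat_lit 0) (p (nat_lit 0x60592) (nat_lit 0) (p (nat_lit 0x48512) (nat_lit 0) (p (nat_lit 0x50392) (nat_lit 0) (p (nat_lit 0x38312) (nat_lit 0) (p (nat_lit 0x40212) (nat_lit 0) (p (nat_lit 0x28192)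 (nat_lit 0) (p (nat_lit 0x30092) (nat_lit 0) (p (nat_lit 0x18012) (nat_lit 0) pn)))))))))))))))))))))))) :=
  Cl.node (nat_lit 0x200004) (nat_lit 2) (by decide +kernel) (ClAll.succ (ClAll.succ ClAll.zero n81) s93)

def n109 : Cl (O (nat_lit 1)) (R (nat_lit 6353))
    (p (nat_lit 0xc9) (nat_lit 0) (p (nat_lit 0x89) (nat_lit 1) (p (nat_lit 0xc1) (nat_lit 0) (p (nat_lit 0x101) (nat_lit 1) (p (nat_lit 0x119) (nat_lit 0) (p (nat_lit 0xd1) (nat_lit 0) (p (nat_lit 0x81) (nat_lit 0) (p (nat_lit 0x41) (nat_lit 1) (p (nat_lit 0x8090787089a) (nat_lit 0) (p (nat_lit 0x7888706861a) (nat_lit 0) (p (nat_lit 0x800070686078a) (nat_lit 0) (p (nat_lit 0x800068605850a) (nat_lit 0) (p (nat_lit 0x705850682) (nat_lit 0) (p (nat_lit 0x685048402) (nat_lit 0) (p (nat_lit 0x160014) (nat_lit 0) (p (nat_lit 0x16000c) (nat_lit 0) (p (nat_lit 0x60592) (nat_lit 0) (p (nat_lit 0x48512) (nat_lit 0) (p (nat_lit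 0x50392) (nat_lit 0) (p (nat_lit 0x38312) (nat_lit 0) (p (nat_lit 0x40212) (nat_lit 0) (p (nat_lit 0x28192) (nat_lit 0) (p (nat_lit 0x30092) (nat_lit 0) (p (nat_lit 0x18012) (nat_lit 0) pn)))))))))))))))))))))))) :=
  Cl.node (nat_lit 0x200004) (nat_lit 2) (by decide +kernel) (ClAll.succ (ClAll.succ ClAll.zero n82) s98)

def n110 : Cl (O (nat_lit 1)) (R (nat_lit 6353))
    (p (nat_lit 0xc9) (nat_lit 1) (p (nat_lit 0x89) (nat_lit 1) (p (nat_lit 0xc1) (nat_lit 0) (p (nat_lit 0x101) (nat_lit 1) (p (nat_lit 0x119) (nat_lit 0) (p (nat_lit 0xd1) (nat_lit 0) (p (nat_lit 0x81) (nat_lit 0) (p (nat_lit 0x41) (nat_lit 1) (p (nat_lit 0x8090787089a) (nat_lit 0) (p (nat_lit 0x7888706861a) (nat_lit 0) (p (nat_lit 0x800070686078a) (nat_lit 0) (p (nat_lit 0x800068605850a) (nat_lit 0) (p (nat_lit 0x705850682) (nat_lit 0) (p (nat_lit 0x685048402) (nat_lit 0) (p (nat_lit 0x160014) (nat_lit 0)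 (p (nat_lit 0x16000c) (nat_lit 0) (p (nat_lit 0x60592) (nat_lit 0) (p (nat_lit 0x48512) (nat_lit 0) (p (nat_lit 0x50392) (nat_lit 0) (p (nat_lit 0x38312) (nat_lit 0) (p (nat_lit 0x40212) (nat_lit 0) (p (nat_lit 0x28192) (nat_lit 0) (p (nat_lit 0x30092) (nat_lit 0) (p (nat_lit 0x18012) (nat_lit 0) pn)))))))))))))))))))))))) :=
  Cl.node (nat_lit 0x200004) (nat_lit 2) (by decide +kernel) (ClAll.succ (ClAll.succ ClAll.zero n83) s103)

def n111 : Cl (O (nat_lit 1)) (R (nat_lit 6353))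
    (p (nat_lit 0x200004) (nat_lit 0) (p (nat_lit 0x89) (nat_lit 1) (p (nat_lit 0xc1) (nat_lit 1) (p (nat_lit 0x101) (nat_lit 1) (p (nat_lit 0x119) (nat_lit 0) (p (nat_lit 0xd1) (nat_lit 0) (p (nat_lit 0x81) (nat_lit 0) (p (nat_lit 0x41) (nat_lit 1) (p (nat_lit 0x8090787089a) (nat_lit 0) (p (nat_lit 0x7888706861a) (nat_lit 0) (p (nat_lit 0x800070686078a) (nat_lit 0) (p (nat_lit 0x800068605850a) (nat_lit 0) (p (nat_lit 0x705850682) (nat_lit 0) (p (nat_lit 0x685048402) (nat_lit 0) (p (nat_lit 0x160014) (nat_lit 0) (p (nat_lit 0x16000c) (nat_lit 0) (p (nat_lit 0x60592) (nat_lit 0) (p (nat_lit 0x48512) (nat_lit 0) (p (nat_lit 0x50392) (nat_lit 0) (p (nat_lit 0x38312) (nat_lit 0) (p (nat_lit 0x40212) (nat_lit 0) (p (nat_lit 0x28192) (nat_lit 0) (p (nat_lit 0x30092) (nat_lit 0) (p (nat_lit 0x18012) (nat_lit 0) pn)))))))))))))))))))))))) :=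
  Cl.node (nat_lit 0xb000c) (nat_lit 2) (by decide +kernel) (ClAll.succ (ClAll.succ ClAll.zero s105) n84)

def n112 : Cl (O (nat_lit 1)) (R (nat_lit 6353))
    (p (nat_lit 0x109) (nat_lit 0) (p (nat_lit 0x89) (nat_lit 1) (p (nat_lit 0xc9) (nat_lit 1) (p (nat_lit 0xc1) (nat_lit 0) (p (nat_lit 0x119) (nat_lit 1) (p (nat_lit 0xd1) (nat_lit 0) (p (nat_lit 0x81) (nat_lit 0) (p (nat_lit 0x41) (nat_lit 1) (p (nat_lit 0x8090787089a) (nat_lit 0) (p (nat_lit 0x7888706861a) (nat_lit 0) (p (nat_lit 0x800070686078a) (nat_lit 0) (p (nat_lit 0x800068605850a) (nat_lit 0) (p (nat_lit 0x705850682) (nat_lit 0) (p (nat_lit 0x685048402) (nat_lit 0) (p (nat_lit 0x160014) (nat_lit 0) (p (nat_lit 0x16000c) (nat_lit 0) (p (nat_lit 0x60592) (nat_lit 0) (p (nat_lit 0x48512) (nat_lit 0) (p (nat_lit 0x50392) (nat_lit 0) (p (nat_lit 0x38312) (nat_lit 0) (p (nat_lit 0x40212) (nat_lit 0) (p (nat_lit 0x28192)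 (nat_lit 0) (p (nat_lit 0x30092) (nat_lit 0) (p (nat_lit 0x18012) (nat_lit 0) pn)))))))))))))))))))))))) :=
  Cl.node (nat_lit 0x200004) (nat_lit 2) (by decide +kernel) (ClAll.succ (ClAll.succ ClAll.zero n85) s116)

def n113 : Cl (O (nat_lit 1)) (R (nat_lit 6353))
    (p (nat_lit 0x109) (nat_lit 1) (p (nat_lit 0x89) (nat_lit 1) (p (nat_lit 0xc9) (nat_lit 1) (p (nat_lit 0xc1) (nat_lit 0) (p (nat_lit 0x119) (nat_lit 1) (p (nat_lit 0xd1) (nat_lit 0) (p (nat_lit 0x81) (nat_lit 0) (p (nat_lit 0x41) (nat_lit 1) (p (nat_lit 0x8090787089a) (nat_lit 0) (p (nat_lit 0x7888706861a) (nat_lit 0) (p (nat_lit 0x800070686078a) (nat_lit 0) (p (nat_lit 0x800068605850a) (nat_lit 0) (p (nat_lit 0x705850682) (nat_lit 0) (p (nat_lit 0x685048402) (nat_lit 0) (p (nat_lit 0x160014) (nat_lit 0) (p (nat_lit 0x16000c) (nat_lit 0) (p (nat_lit 0x60592) (nat_lit 0) (p (nat_lit 0x48512) (nat_lit 0) (p (nat_lit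 0x50392) (nat_lit 0) (p (nat_lit 0x38312) (nat_lit 0) (p (nat_lit 0x40212) (nat_lit 0) (p (nat_lit 0x28192) (nat_lit 0) (p (nat_lit 0x30092) (nat_lit 0) (p (nat_lit 0x18012) (nat_lit 0) pn)))))))))))))))))))))))) :=
  Cl.node (nat_lit 0x200004) (nat_lit 2) (by decide +kernel) (ClAll.succ (ClAll.succ ClAll.zero n86) s120)

def n114 : Cl (O (nat_lit 1)) (R (nat_lit 6353))
    (p (nat_lit 0x109) (nat_lit 0) (p (nat_lit 0x89) (nat_lit 1) (p (nat_lit 0x101) (nat_lit 0) (p (nat_lit 0xc1) (nat_lit 1) (p (nat_lit 0x119) (nat_lit 1) (p (nat_lit 0xd1) (nat_lit 0) (p (nat_lit 0x81) (nat_lit 0) (p (nat_lit 0x41) (nat_lit 1) (p (nat_lit 0x8090787089a) (nat_lit 0) (p (nat_lit 0x7888706861a) (nat_lit 0) (p (nat_lit 0x800070686078a) (nat_lit 0) (p (nat_lit 0x800068605850a) (nat_lit 0) (p (nat_lit 0x705850682) (nat_lit 0) (p (nat_lit 0x685048402) (nat_lit 0) (p (nat_lit 0x160014) (nat_lit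 0) (p (nat_lit 0x16000c) (nat_lit 0) (p (nat_lit 0x60592) (nat_lit 0) (p (nat_lit 0x48512) (nat_lit 0) (p (nat_lit 0x50392) (nat_lit 0) (p (nat_lit 0x38312) (nat_lit 0) (p (nat_lit 0x40212) (nat_lit 0) (p (nat_lit 0x28192) (nat_lit 0) (p (nat_lit 0x30092) (nat_lit 0) (p (nat_lit 0x18012) (nat_lit 0) pn)))))))))))))))))))))))) :=
  Cl.node (nat_lit 0x200004) (nat_lit 2) (by decide +kernel) (ClAll.succ (ClAll.succ ClAll.zero n87) s124)

def n115 : Cl (O (nat_lit 1)) (R (nat_lit 6353))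
    (p (nat_lit 0x109) (nat_lit 1) (p (nat_lit 0x89) (nat_lit 1) (p (nat_lit 0x101) (nat_lit 0) (p (nat_lit 0xc1) (nat_lit 1) (p (nat_lit 0x119) (nat_lit 1) (p (nat_lit 0xd1) (nat_lit 0) (p (nat_lit 0x81) (nat_lit 0) (p (nat_lit 0x41) (nat_lit 1) (p (nat_lit 0x8090787089a) (nat_lit 0) (p (nat_lit 0x7888706861a) (nat_lit 0) (p (nat_lit 0x800070686078a) (nat_lit 0) (p (nat_lit 0x800068605850a) (nat_lit 0) (p (nat_lit 0x705850682) (nat_lit 0) (p (nat_lit 0x685048402) (nat_lit 0) (p (nat_lit 0x160014) (nat_lit 0) (p (nat_lit 0x16000c) (nat_lit 0) (p (nat_lit 0x60592) (nat_lit 0) (p (nat_lit 0x48512) (nat_lit 0) (p (nat_lit 0x50392) (nat_lit 0) (p (nat_lit 0x38312) (nat_lit 0) (p (nat_lit 0x40212) (nat_lit 0) (p (nat_lit 0x28192) (nat_lit 0) (p (nat_lit 0x30092) (nat_lit 0) (p (nat_lit 0x18012) (nat_lit 0) pn)))))))))))))))))))))))) :=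
  Cl.node (nat_lit 0x200004) (nat_lit 2) (by decide +kernel) (ClAll.succ (ClAll.succ ClAll.zero n88) s127)

def n116 : Cl (O (nat_lit 1)) (R (nat_lit 6353))
    (p (nat_lit 0x200004) (nat_lit 0) (p (nat_lit 0x89) (nat_lit 0) (p (nat_lit 0x101) (nat_lit 1) (p (nat_lit 0xc1) (nat_lit 1) (p (nat_lit 0x119) (nat_lit 1) (p (nat_lit 0xd1) (nat_lit 0) (p (nat_lit 0x81) (nat_lit 0) (p (nat_lit 0x41) (nat_lit 1) (p (nat_lit 0x8090787089a) (nat_lit 0) (p (nat_lit 0x7888706861a) (nat_lit 0) (p (nat_lit 0x800070686078a) (nat_lit 0) (p (nat_lit 0x800068605850a) (nat_lit 0) (p (nat_lit 0x705850682) (nat_lit 0) (p (nat_lit 0x685048402) (nat_lit 0) (p (nat_lit 0x160014) (nat_lit 0) (p (nat_lit 0x16000c) (nat_lit 0) (p (nat_lit 0x60592) (nat_lit 0) (p (nat_lit 0x48512) (nat_lit 0) (p (nat_lit 0x50392) (nat_lit 0) (p (nat_lit 0x38312) (nat_lit 0) (p (nat_lit 0x40212) (nat_lit 0) (p (nat_lit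 0x28192) (nat_lit 0) (p (nat_lit 0x30092) (nat_lit 0) (p (nat_lit 0x18012) (nat_lit 0) pn)))))))))))))))))))))))) :=
  Cl.node (nat_lit 0xb000c) (nat_lit 2) (by decide +kernel) (ClAll.succ (ClAll.succ ClAll.zero s128) s129)

def n117 : Cl (O (nat_lit 1)) (R (nat_lit 6353))
    (p (nat_lit 0x200004) (nat_lit 0) (p (nat_lit 0x89) (nat_lit 1) (p (nat_lit 0x101) (nat_lit 1) (p (nat_lit 0xc1) (nat_lit 1) (p (nat_lit 0x119) (nat_lit 1) (p (nat_lit 0xd1) (nat_lit 0) (p (nat_lit 0x81) (nat_lit 0) (p (nat_lit 0x41) (nat_lit 1) (p (nat_lit 0x8090787089a) (nat_lit 0) (p (nat_lit 0x7888706861a) (nat_lit 0) (p (nat_lit 0x800070686078a) (nat_lit 0) (p (nat_lit 0x800068605850a) (nat_lit 0) (p (nat_lit 0x705850682) (nat_lit 0) (p (nat_lit 0x685048402) (nat_lit 0) (p (nat_lit 0x160014) (nat_lit 0) (p (nat_lit 0x16000c) (nat_lit 0) (p (nat_lit 0x60592) (nat_lit 0) (p (nat_lit 0x48512) (nat_lit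 0) (p (nat_lit 0x50392) (nat_lit 0) (p (nat_lit 0x38312) (nat_lit 0) (p (nat_lit 0x40212) (nat_lit 0) (p (nat_lit 0x28192) (nat_lit 0) (p (nat_lit 0x30092) (nat_lit 0) (p (nat_lit 0x18012) (nat_lit 0) pn)))))))))))))))))))))))) :=
  Cl.node (nat_lit 0xb000c) (nat_lit 2) (by decide +kernel) (ClAll.succ (ClAll.succ ClAll.zero n89) n90)

def n118 : Cl (O (nat_lit 1)) (R (nat_lit 6353))
    (p (nat_lit 0xc9) (nat_lit 0) (p (nat_lit 0x89) (nat_lit 1) (p (nat_lit 0x109) (nat_lit 1) (p (nat_lit 0x101) (nat_lit 0) (p (nat_lit 0x111) (nat_lit 0) (p (nat_lit 0xd1) (nat_lit 1) (p (nat_lit 0x81) (nat_lit 0) (p (nat_lit 0x41) (nat_lit 1) (p (nat_lit 0x8090787089a) (nat_lit 0) (p (nat_lit 0x7888706861a) (nat_lit 0) (p (nat_lit 0x800070686078a) (nat_lit 0) (p (nat_lit 0x800068605850a) (nat_lit 0) (p (nat_lit 0x705850682) (nat_lit 0) (p (nat_lit 0x685048402) (nat_lit 0) (p (nat_lit 0x160014)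 (nat_lit 0) (p (nat_lit 0x16000c) (nat_lit 0) (p (nat_lit 0x60592) (nat_lit 0) (p (nat_lit 0x48512) (nat_lit 0) (p (nat_lit 0x50392) (nat_lit 0) (p (nat_lit 0x38312) (nat_lit 0) (p (nat_lit 0x40212) (nat_lit 0) (p (nat_lit 0x28192) (nat_lit 0) (p (nat_lit 0x30092) (nat_lit 0) (p (nat_lit 0x18012) (nat_lit 0) pn)))))))))))))))))))))))) :=
  Cl.node (nat_lit 0x200004) (nat_lit 2) (by decide +kernel) (ClAll.succ (ClAll.succ ClAll.zero n91) s146)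

def n119 : Cl (O (nat_lit 1)) (R (nat_lit 6353))
    (p (nat_lit 0x200004) (nat_lit 0) (p (nat_lit 0xc9) (nat_lit 0) (p (nat_lit 0x89) (nat_lit 1) (p (nat_lit 0x101) (nat_lit 1) (p (nat_lit 0x111) (nat_lit 0) (p (nat_lit 0xd1) (nat_lit 1) (p (nat_lit 0x81) (nat_lit 0) (p (nat_lit 0x41) (nat_lit 1) (p (nat_lit 0x8090787089a) (nat_lit 0) (p (nat_lit 0x7888706861a) (nat_lit 0) (p (nat_lit 0x800070686078a) (nat_lit 0) (p (nat_lit 0x800068605850a) (nat_lit 0) (p (nat_lit 0x705850682) (nat_lit 0) (p (nat_lit 0x685048402) (nat_lit 0) (p (nat_lit 0x160014) (nat_lit 0) (p (nat_lit 0x16000c) (nat_lit 0) (p (nat_lit 0x60592) (nat_lit 0) (p (nat_lit 0x48512) (nat_lit 0) (p (nat_lit 0x50392) (nat_lit 0) (p (nat_lit 0x38312) (nat_lit 0) (p (nat_lit 0x40212) (nat_lit 0) (p (nat_lit 0x28192) (nat_lit 0) (p (nat_lit 0x30092) (nat_lit 0) (p (nat_lit 0x18012) (nat_lit 0) pn))))))))))))))))))))))))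 :=
  Cl.node (nat_lit 0xb000c) (nat_lit 2) (by decide +kernel) (ClAll.succ (ClAll.succ ClAll.zero n92) n93)

def n120 : Cl (O (nat_lit 1)) (R (nat_lit 6353))
    (p (nat_lit 0x200004) (nat_lit 0) (p (nat_lit 0x109) (nat_lit 1) (p (nat_lit 0xc9) (nat_lit 1) (p (nat_lit 0x89) (nat_lit 1) (p (nat_lit 0x111) (nat_lit 1) (p (nat_lit 0xd1) (nat_lit 1) (p (nat_lit 0x81) (nat_lit 0) (p (nat_lit 0x41) (nat_lit 1) (p (nat_lit 0x8090787089a) (nat_lit 0) (p (nat_lit 0x7888706861a) (nat_lit 0) (p (nat_lit 0x800070686078a) (nat_lit 0) (p (nat_lit 0x800068605850a) (nat_lit 0) (p (nat_lit 0x705850682) (nat_lit 0) (p (nat_lit 0x685048402) (nat_lit 0) (p (nat_lit 0x160014) (nat_lit 0) (p (nat_lit 0x16000c) (nat_lit 0) (p (nat_lit 0x60592) (nat_lit 0) (p (nat_lit 0x48512) (nat_lit 0) (p (nat_lit 0x50392) (nat_lit 0) (p (nat_lit 0x38312) (nat_lit 0) (p (nat_lit 0x40212) (nat_lit 0) (p (nat_lit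 0x28192) (nat_lit 0) (p (nat_lit 0x30092) (nat_lit 0) (p (nat_lit 0x18012) (nat_lit 0) pn)))))))))))))))))))))))) :=
  Cl.node (nat_lit 0xb000c) (nat_lit 2) (by decide +kernel) (ClAll.succ (ClAll.succ ClAll.zero s162) s163)

def n121 : Cl (O (nat_lit 1)) (R (nat_lit 6353))
    (p (nat_lit 0x200004) (nat_lit 0) (p (nat_lit 0x111) (nat_lit 1) (p (nat_lit 0xd1) (nat_lit 1) (p (nat_lit 0xc9) (nat_lit 0) (p (nat_lit 0x119) (nat_lit 1) (p (nat_lit 0xc1) (nat_lit 0) (p (nat_lit 0x81) (nat_lit 1) (p (nat_lit 0x41) (nat_lit 1) (p (nat_lit 0x8090787089a) (nat_lit 0) (p (nat_lit 0x7888706861a) (nat_lit 0) (p (nat_lit 0x800070686078a) (nat_lit 0) (p (nat_lit 0x800068605850a) (nat_lit 0) (p (nat_lit 0x705850682) (nat_lit 0) (p (nat_lit 0x685048402) (nat_lit 0) (p (nat_lit 0x160014) (nat_lit 0) (p (nat_lit 0x16000c) (nat_lit 0) (p (nat_lit 0x60592) (nat_lit 0) (p (nat_lit 0x48512) (nat_lit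 0) (p (nat_lit 0x50392) (nat_lit 0) (p (nat_lit 0x38312) (nat_lit 0) (p (nat_lit 0x40212) (nat_lit 0) (p (nat_lit 0x28192) (nat_lit 0) (p (nat_lit 0x30092) (nat_lit 0) (p (nat_lit 0x18012) (nat_lit 0) pn)))))))))))))))))))))))) :=
  Cl.node (nat_lit 0xb000c) (nat_lit 2) (by decide +kernel) (ClAll.succ (ClAll.succ ClAll.zero s172) s173)

def n122 : Cl (O (nat_lit 1)) (R (nat_lit 6353))
    (p (nat_lit 0x200004) (nat_lit 0) (p (nat_lit 0x111) (nat_lit 1) (p (nat_lit 0x109) (nat_lit 0) (p (nat_lit 0xc9) (nat_lit 1) (p (nat_lit 0x119) (nat_lit 1) (p (nat_lit 0xc1) (nat_lit 0) (p (nat_lit 0x81) (nat_lit 1) (p (nat_lit 0x41) (nat_lit 1) (p (nat_lit 0x8090787089a) (nat_lit 0) (p (nat_lit 0x7888706861a) (nat_lit 0) (p (nat_lit 0x800070686078a) (nat_lit 0) (p (nat_lit 0x800068605850a) (nat_lit 0) (p (nat_lit 0x705850682) (nat_lit 0) (p (nat_lit 0x685048402) (nat_lit 0) (p (nat_lit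 0x160014) (nat_lit 0) (p (nat_lit 0x16000c) (nat_lit 0) (p (nat_lit 0x60592) (nat_lit 0) (p (nat_lit 0x48512) (nat_lit 0) (p (nat_lit 0x50392) (nat_lit 0) (p (nat_lit 0x38312) (nat_lit 0) (p (nat_lit 0x40212) (nat_lit 0) (p (nat_lit 0x28192) (nat_lit 0) (p (nat_lit 0x30092) (nat_lit 0) (p (nat_lit 0x18012) (nat_lit 0) pn)))))))))))))))))))))))) :=
  Cl.node (nat_lit 0xb000c) (nat_lit 2) (by decide +kernel) (ClAll.succ (ClAll.succ ClAll.zero s176) s177)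

def n123 : Cl (O (nat_lit 1)) (R (nat_lit 6353))
    (p (nat_lit 0xb000c) (nat_lit 0) (p (nat_lit 0x200004) (nat_lit 0) (p (nat_lit 0x109) (nat_lit 1) (p (nat_lit 0xc9) (nat_lit 1) (p (nat_lit 0x119) (nat_lit 1) (p (nat_lit 0xc1) (nat_lit 0) (p (nat_lit 0x81) (nat_lit 1) (p (nat_lit 0x41) (nat_lit 1) (p (nat_lit 0x8090787089a) (nat_lit 0) (p (nat_lit 0x7888706861a) (nat_lit 0) (p (nat_lit 0x800070686078a) (nat_lit 0) (p (nat_lit 0x800068605850a) (nat_lit 0) (p (nat_lit 0x705850682) (nat_lit 0) (p (nat_lit 0x685048402) (nat_lit 0) (p (nat_lit 0x160014) (nat_lit 0) (p (nat_lit 0x16000c) (nat_lit 0) (p (nat_lit 0x60592) (nat_lit 0) (p (nat_lit 0x48512) (nat_lit 0) (p (nat_lit 0x50392) (nat_lit 0) (p (nat_lit 0x38312) (nat_lit 0) (p (nat_lit 0x40212) (nat_lit 0) (p (nat_lit 0x28192) (nat_lit 0) (p (nat_lit 0x30092) (nat_lit 0) (p (nat_lit 0x18012) (nat_lit 0) pn))))))))))))))))))))))))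 :=
  Cl.node (nat_lit 0xb0014) (nat_lit 2) (by decide +kernel) (ClAll.succ (ClAll.succ ClAll.zero s179) s180)

def n124 : Cl (O (nat_lit 1)) (R (nat_lit 6353))
    (p (nat_lit 0xb000c) (nat_lit 1) (p (nat_lit 0x200004) (nat_lit 0) (p (nat_lit 0x109) (nat_lit 1) (p (nat_lit 0xc9) (nat_lit 1) (p (nat_lit 0x119) (nat_lit 1) (p (nat_lit 0xc1) (nat_lit 0) (p (nat_lit 0x81) (nat_lit 1) (p (nat_lit 0x41) (nat_lit 1) (p (nat_lit 0x8090787089a) (nat_lit 0) (p (nat_lit 0x7888706861a) (nat_lit 0) (p (nat_lit 0x800070686078a) (nat_lit 0) (p (nat_lit 0x800068605850a) (nat_lit 0) (p (nat_lit 0x705850682) (nat_lit 0) (p (nat_lit 0x685048402) (nat_lit 0) (p (nat_lit 0x160014) (nat_lit 0) (p (nat_lit 0x16000c) (nat_lit 0) (p (nat_lit 0x60592) (nat_lit 0) (p (nat_lit 0x48512) (nat_lit 0) (p (nat_lit 0x50392) (nat_lit 0) (p (nat_lit 0x38312) (nat_lit 0) (p (nat_lit 0x40212) (nat_lit 0) (p (nat_lit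 0x28192) (nat_lit 0) (p (nat_lit 0x30092) (nat_lit 0) (p (nat_lit 0x18012) (nat_lit 0) pn)))))))))))))))))))))))) :=
  Cl.node (nat_lit 0xb0014) (nat_lit 2) (by decide +kernel) (ClAll.succ (ClAll.succ ClAll.zero n94) s184)

def n125 : Cl (O (nat_lit 1)) (R (nat_lit 6353))
    (p (nat_lit 0xc9) (nat_lit 0) (p (nat_lit 0x81) (nat_lit 0) (p (nat_lit 0x101) (nat_lit 1) (p (nat_lit 0x119) (nat_lit 0) (p (nat_lit 0xd1) (nat_lit 0) (p (nat_lit 0x89) (nat_lit 0) (p (nat_lit 0x41) (nat_lit 0) (p (nat_lit 0x8090787089a) (nat_lit 0) (p (nat_lit 0x7888706861a) (nat_lit 0) (p (nat_lit 0x800070686078a) (nat_lit 0) (p (nat_lit 0x800068605850a) (nat_lit 0) (p (nat_lit 0x705850682) (nat_lit 0) (p (nat_lit 0x685048402) (nat_lit 0) (p (nat_lit 0x160014) (nat_lit 0) (p (nat_lit 0x16000c) (nat_lit 0) (p (nat_lit 0x60592) (nat_lit 0) (p (nat_lit 0x48512) (nat_lit 0) (p (nat_lit 0x50392) (nat_lit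 0) (p (nat_lit 0x38312) (nat_lit 0) (p (nat_lit 0x40212) (nat_lit 0) (p (nat_lit 0x28192) (nat_lit 0) (p (nat_lit 0x30092) (nat_lit 0) (p (nat_lit 0x18012) (nat_lit 0) pn))))))))))))))))))))))) :=
  Cl.node (nat_lit 0x200004) (nat_lit 2) (by decide +kernel) (ClAll.succ (ClAll.succ ClAll.zero n95) s10)

def n126 : Cl (O (nat_lit 1)) (R (nat_lit 6353))
    (p (nat_lit 0xc9) (nat_lit 1) (p (nat_lit 0x81) (nat_lit 0) (p (nat_lit 0x101) (nat_lit 1) (p (nat_lit 0x119) (nat_lit 0) (p (nat_lit 0xd1) (nat_lit 0) (p (nat_lit 0x89) (nat_lit 0) (p (nat_lit 0x41) (nat_lit 0) (p (nat_lit 0x8090787089a) (nat_lit 0) (p (nat_lit 0x7888706861a) (nat_lit 0) (p (nat_lit 0x800070686078a) (nat_lit 0) (p (nat_lit 0x800068605850a) (nat_lit 0) (p (nat_lit 0x705850682) (nat_lit 0) (p (nat_lit 0x685048402) (nat_lit 0) (p (nat_lit 0x160014) (nat_lit 0) (p (nat_lit 0x16000c) (nat_lit 0) (p (nat_lit 0x60592)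 (nat_lit 0) (p (nat_lit 0x48512) (nat_lit 0) (p (nat_lit 0x50392) (nat_lit 0) (p (nat_lit 0x38312) (nat_lit 0) (p (nat_lit 0x40212) (nat_lit 0) (p (nat_lit 0x28192) (nat_lit 0) (p (nat_lit 0x30092) (nat_lit 0) (p (nat_lit 0x18012) (nat_lit 0) pn))))))))))))))))))))))) :=
  Cl.node (nat_lit 0x200004) (nat_lit 2) (by decide +kernel) (ClAll.succ (ClAll.succ ClAll.zero n96) s20)

def n127 : Cl (O (nat_lit 1)) (R (nat_lit 6353))
    (p (nat_lit 0xc1) (nat_lit 0) (p (nat_lit 0x81) (nat_lit 1) (p (nat_lit 0x101) (nat_lit 1) (p (nat_lit 0x119) (nat_lit 0) (p (nat_lit 0xd1) (nat_lit 0) (p (nat_lit 0x89) (nat_lit 0) (p (nat_lit 0x41) (nat_lit 0) (p (nat_lit 0x8090787089a) (nat_lit 0) (p (nat_lit 0x7888706861a) (nat_lit 0) (p (nat_lit 0x800070686078a) (nat_lit 0) (p (nat_lit 0x800068605850a) (nat_lit 0) (p (nat_lit 0x705850682) (nat_lit 0) (p (nat_lit 0x685048402) (nat_lit 0) (p (nat_lit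 0x160014) (nat_lit 0) (p (nat_lit 0x16000c) (nat_lit 0) (p (nat_lit 0x60592) (nat_lit 0) (p (nat_lit 0x48512) (nat_lit 0) (p (nat_lit 0x50392) (nat_lit 0) (p (nat_lit 0x38312) (nat_lit 0) (p (nat_lit 0x40212) (nat_lit 0) (p (nat_lit 0x28192) (nat_lit 0) (p (nat_lit 0x30092) (nat_lit 0) (p (nat_lit 0x18012) (nat_lit 0) pn))))))))))))))))))))))) :=
  Cl.node (nat_lit 0xc9) (nat_lit 2) (by decide +kernel) (ClAll.succ (ClAll.succ ClAll.zero n97) s24)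

def n128 : Cl (O (nat_lit 1)) (R (nat_lit 6353))
    (p (nat_lit 0x109) (nat_lit 1) (p (nat_lit 0xc9) (nat_lit 1) (p (nat_lit 0xc1) (nat_lit 0) (p (nat_lit 0x119) (nat_lit 1) (p (nat_lit 0xd1) (nat_lit 0) (p (nat_lit 0x89) (nat_lit 0) (p (nat_lit 0x41) (nat_lit 0) (p (nat_lit 0x8090787089a) (nat_lit 0) (p (nat_lit 0x7888706861a) (nat_lit 0) (p (nat_lit 0x800070686078a) (nat_lit 0) (p (nat_lit 0x800068605850a) (nat_lit 0) (p (nat_lit 0x705850682) (nat_lit 0) (p (nat_lit 0x685048402) (nat_lit 0) (p (nat_lit 0x160014) (nat_lit 0) (p (nat_lit 0x16000c) (nat_lit 0) (p (nat_lit 0x60592) (nat_lit 0) (p (nat_lit 0x48512) (nat_lit 0) (p (nat_lit 0x50392) (nat_lit 0) (p (nat_lit 0x38312) (nat_lit 0) (p (nat_lit 0x40212) (nat_lit 0) (p (nat_lit 0x28192) (nat_lit 0) (p (nat_lit 0x30092) (nat_lit 0) (p (nat_lit 0x18012) (nat_lit 0) pn))))))))))))))))))))))) :=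
  Cl.node (nat_lit 0x200004) (nat_lit 2) (by decide +kernel) (ClAll.succ (ClAll.succ ClAll.zero n98) s34)

def n129 : Cl (O (nat_lit 1)) (R (nat_lit 6353))
    (p (nat_lit 0x109) (nat_lit 1) (p (nat_lit 0x81) (nat_lit 0) (p (nat_lit 0xc1) (nat_lit 1) (p (nat_lit 0x119) (nat_lit 1) (p (nat_lit 0xd1) (nat_lit 0) (p (nat_lit 0x89) (nat_lit 0) (p (nat_lit 0x41) (nat_lit 0) (p (nat_lit 0x8090787089a) (nat_lit 0) (p (nat_lit 0x7888706861a) (nat_lit 0) (p (nat_lit 0x800070686078a) (nat_lit 0) (p (nat_lit 0x800068605850a) (nat_lit 0) (p (nat_lit 0x705850682) (nat_lit 0) (p (nat_lit 0x685048402) (nat_lit 0) (p (nat_lit 0x160014) (nat_lit 0) (p (nat_lit 0x16000c) (nat_lit 0) (p (nat_lit 0x60592) (nat_lit 0) (p (nat_lit 0x48512) (nat_lit 0) (p (nat_lit 0x50392) (nat_lit 0) (p (nat_lit 0x38312) (nat_lit 0) (p (nat_lit 0x40212) (nat_lit 0) (p (nat_lit 0x28192) (nat_lit 0) (p (nat_lit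 0x30092) (nat_lit 0) (p (nat_lit 0x18012) (nat_lit 0) pn))))))))))))))))))))))) :=
  Cl.node (nat_lit 0x200004) (nat_lit 2) (by decide +kernel) (ClAll.succ (ClAll.succ ClAll.zero n99) s38)

def n130 : Cl (O (nat_lit 1)) (R (nat_lit 6353))
    (p (nat_lit 0x101) (nat_lit 0) (p (nat_lit 0x81) (nat_lit 1) (p (nat_lit 0xc1) (nat_lit 1) (p (nat_lit 0x119) (nat_lit 1) (p (nat_lit 0xd1) (nat_lit 0) (p (nat_lit 0x89) (nat_lit 0) (p (nat_lit 0x41) (nat_lit 0) (p (nat_lit 0x8090787089a) (nat_lit 0) (p (nat_lit 0x7888706861a) (nat_lit 0) (p (nat_lit 0x800070686078a) (nat_lit 0) (p (nat_lit 0x800068605850a) (nat_lit 0) (p (nat_lit 0x705850682) (nat_lit 0) (p (nat_lit 0x685048402) (nat_lit 0) (p (nat_lit 0x160014) (nat_lit 0) (p (nat_lit 0x16000c) (nat_lit 0) (p (nat_lit 0x60592) (nat_lit 0) (p (nat_lit 0x48512) (nat_lit 0) (p (nat_lit 0x50392) (nat_lit 0) (p (nat_lit 0x38312) (nat_lit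 0) (p (nat_lit 0x40212) (nat_lit 0) (p (nat_lit 0x28192) (nat_lit 0) (p (nat_lit 0x30092) (nat_lit 0) (p (nat_lit 0x18012) (nat_lit 0) pn))))))))))))))))))))))) :=
  Cl.node (nat_lit 0x109) (nat_lit 2) (by decide +kernel) (ClAll.succ (ClAll.succ ClAll.zero n100) n101)

def n131 : Cl (O (nat_lit 1)) (R (nat_lit 6353))
    (p (nat_lit 0x101) (nat_lit 1) (p (nat_lit 0x81) (nat_lit 1) (p (nat_lit 0xc1) (nat_lit 1) (p (nat_lit 0x119) (nat_lit 1) (p (nat_lit 0xd1) (nat_lit 0) (p (nat_lit 0x89) (nat_lit 0) (p (nat_lit 0x41) (nat_lit 0) (p (nat_lit 0x8090787089a) (nat_lit 0) (p (nat_lit 0x7888706861a) (nat_lit 0) (p (nat_lit 0x800070686078a) (nat_lit 0) (p (nat_lit 0x800068605850a) (nat_lit 0) (p (nat_lit 0x705850682) (nat_lit 0) (p (nat_lit 0x685048402) (nat_lit 0) (p (nat_lit 0x160014) (nat_lit 0) (p (nat_lit 0x16000c) (nat_lit 0) (p (nat_lit 0x60592) (nat_lit 0) (p (nat_lit 0x48512)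 (nat_lit 0) (p (nat_lit 0x50392) (nat_lit 0) (p (nat_lit 0x38312) (nat_lit 0) (p (nat_lit 0x40212) (nat_lit 0) (p (nat_lit 0x28192) (nat_lit 0) (p (nat_lit 0x30092) (nat_lit 0) (p (nat_lit 0x18012) (nat_lit 0) pn))))))))))))))))))))))) :=
  Cl.node (nat_lit 0x200004) (nat_lit 2) (by decide +kernel) (ClAll.succ (ClAll.succ ClAll.zero n102) s48)

def n132 : Cl (O (nat_lit 1)) (R (nat_lit 6353))
    (p (nat_lit 0x200004) (nat_lit 0) (p (nat_lit 0x81) (nat_lit 0) (p (nat_lit 0x101) (nat_lit 1) (p (nat_lit 0x111) (nat_lit 0) (p (nat_lit 0xd1) (nat_lit 1) (p (nat_lit 0x89) (nat_lit 0) (p (nat_lit 0x41) (nat_lit 0) (p (nat_lit 0x8090787089a) (nat_lit 0) (p (nat_lit 0x7888706861a) (nat_lit 0) (p (nat_lit 0x800070686078a) (nat_lit 0) (p (nat_lit 0x800068605850a) (nat_lit 0) (p (nat_lit 0x705850682) (nat_lit 0) (p (nat_lit 0x685048402) (nat_lit 0) (p (nat_lit 0x160014) (nat_lit 0)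 (p (nat_lit 0x16000c) (nat_lit 0) (p (nat_lit 0x60592) (nat_lit 0) (p (nat_lit 0x48512) (nat_lit 0) (p (nat_lit 0x50392) (nat_lit 0) (p (nat_lit 0x38312) (nat_lit 0) (p (nat_lit 0x40212) (nat_lit 0) (p (nat_lit 0x28192) (nat_lit 0) (p (nat_lit 0x30092) (nat_lit 0) (p (nat_lit 0x18012) (nat_lit 0) pn))))))))))))))))))))))) :=
  Cl.node (nat_lit 0x119) (nat_lit 2) (by decide +kernel) (ClAll.succ (ClAll.succ ClAll.zero s50) s51)

def n133 : Cl (O (nat_lit 1)) (R (nat_lit 6353))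
    (p (nat_lit 0xc1) (nat_lit 0) (p (nat_lit 0x81) (nat_lit 1) (p (nat_lit 0x101) (nat_lit 1) (p (nat_lit 0x111) (nat_lit 0) (p (nat_lit 0xd1) (nat_lit 1) (p (nat_lit 0x89) (nat_lit 0) (p (nat_lit 0x41) (nat_lit 0) (p (nat_lit 0x8090787089a) (nat_lit 0) (p (nat_lit 0x7888706861a) (nat_lit 0) (p (nat_lit 0x800070686078a) (nat_lit 0) (p (nat_lit 0x800068605850a) (nat_lit 0) (p (nat_lit 0x705850682) (nat_lit 0) (p (nat_lit 0x685048402) (nat_lit 0) (p (nat_lit 0x160014) (nat_lit 0) (p (nat_lit 0x16000c) (nat_lit 0) (p (nat_lit 0x60592) (nat_lit 0) (p (nat_lit 0x48512) (nat_lit 0) (p (nat_lit 0x50392) (nat_lit 0) (p (nat_lit 0x38312) (nat_lit 0) (p (nat_lit 0x40212) (nat_lit 0) (p (nat_lit 0x28192) (nat_lit 0) (p (nat_lit 0x30092) (nat_lit 0) (p (nat_lit 0x18012) (nat_lit 0) pn))))))))))))))))))))))) :=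
  Cl.node (nat_lit 0x200004) (nat_lit 2) (by decide +kernel) (ClAll.succ (ClAll.succ ClAll.zero n103) s56)

def n134 : Cl (O (nat_lit 1)) (R (nat_lit 6353))
    (p (nat_lit 0x101) (nat_lit 0) (p (nat_lit 0xc1) (nat_lit 1) (p (nat_lit 0x81) (nat_lit 1) (p (nat_lit 0x111) (nat_lit 1) (p (nat_lit 0xd1) (nat_lit 1) (p (nat_lit 0x89) (nat_lit 0) (p (nat_lit 0x41) (nat_lit 0) (p (nat_lit 0x8090787089a) (nat_lit 0) (p (nat_lit 0x7888706861a) (nat_lit 0) (p (nat_lit 0x800070686078a) (nat_lit 0) (p (nat_lit 0x800068605850a) (nat_lit 0) (p (nat_lit 0x705850682) (nat_lit 0) (p (nat_lit 0x685048402) (nat_lit 0) (p (nat_lit 0x160014) (nat_lit 0) (p (nat_lit 0x16000c) (nat_lit 0) (p (nat_lit 0x60592) (nat_lit 0) (p (nat_lit 0x48512) (nat_lit 0) (p (nat_lit 0x50392) (nat_lit 0) (p (nat_lit 0x38312) (nat_lit 0) (p (nat_lit 0x40212) (nat_lit 0) (p (nat_lit 0x28192) (nat_lit 0) (p (nat_lit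 0x30092) (nat_lit 0) (p (nat_lit 0x18012) (nat_lit 0) pn))))))))))))))))))))))) :=
  Cl.node (nat_lit 0x200004) (nat_lit 2) (by decide +kernel) (ClAll.succ (ClAll.succ ClAll.zero s60) s61)

def n135 : Cl (O (nat_lit 1)) (R (nat_lit 6353))
    (p (nat_lit 0xd1) (nat_lit 0) (p (nat_lit 0xc1) (nat_lit 0) (p (nat_lit 0x101) (nat_lit 1) (p (nat_lit 0x119) (nat_lit 0) (p (nat_lit 0xc9) (nat_lit 0) (p (nat_lit 0x89) (nat_lit 1) (p (nat_lit 0x41) (nat_lit 0) (p (nat_lit 0x8090787089a) (nat_lit 0) (p (nat_lit 0x7888706861a) (nat_lit 0) (p (nat_lit 0x800070686078a) (nat_lit 0) (p (nat_lit 0x800068605850a) (nat_lit 0) (p (nat_lit 0x705850682) (nat_lit 0) (p (nat_lit 0x685048402) (nat_lit 0) (p (nat_lit 0x160014) (nat_lit 0) (p (nat_lit 0x16000c) (nat_lit 0) (p (nat_lit 0x60592) (nat_lit 0) (p (nat_lit 0x48512) (nat_lit 0) (p (nat_lit 0x50392) (nat_lit 0) (p (nat_lit 0x38312) (nat_lit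 0) (p (nat_lit 0x40212) (nat_lit 0) (p (nat_lit 0x28192) (nat_lit 0) (p (nat_lit 0x30092) (nat_lit 0) (p (nat_lit 0x18012) (nat_lit 0) pn))))))))))))))))))))))) :=
  Cl.node (nat_lit 0x200004) (nat_lit 2) (by decide +kernel) (ClAll.succ (ClAll.succ ClAll.zero n104) s68)

def n136 : Cl (O (nat_lit 1)) (R (nat_lit 6353))
    (p (nat_lit 0x111) (nat_lit 1) (p (nat_lit 0xd1) (nat_lit 1) (p (nat_lit 0xc1) (nat_lit 0) (p (nat_lit 0x119) (nat_lit 1) (p (nat_lit 0xc9) (nat_lit 0) (p (nat_lit 0x89) (nat_lit 1) (p (nat_lit 0x41) (nat_lit 0) (p (nat_lit 0x8090787089a) (nat_lit 0) (p (nat_lit 0x7888706861a) (nat_lit 0) (p (nat_lit 0x800070686078a) (nat_lit 0) (p (nat_lit 0x800068605850a) (nat_lit 0) (p (nat_lit 0x705850682) (nat_lit 0) (p (nat_lit 0x685048402) (nat_lit 0) (p (nat_lit 0x160014) (nat_lit 0) (p (nat_lit 0x16000c) (nat_lit 0) (p (nat_lit 0x60592) (nat_lit 0) (p (nat_lit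 0x48512) (nat_lit 0) (p (nat_lit 0x50392) (nat_lit 0) (p (nat_lit 0x38312) (nat_lit 0) (p (nat_lit 0x40212) (nat_lit 0) (p (nat_lit 0x28192) (nat_lit 0) (p (nat_lit 0x30092) (nat_lit 0) (p (nat_lit 0x18012) (nat_lit 0) pn))))))))))))))))))))))) :=
  Cl.node (nat_lit 0x200004) (nat_lit 2) (by decide +kernel) (ClAll.succ (ClAll.succ ClAll.zero n105) s78)

def n137 : Cl (O (nat_lit 1)) (R (nat_lit 6353))
    (p (nat_lit 0x111) (nat_lit 1) (p (nat_lit 0x101) (nat_lit 0) (p (nat_lit 0xc1) (nat_lit 1) (p (nat_lit 0x119) (nat_lit 1) (p (nat_lit 0xc9) (nat_lit 0) (p (nat_lit 0x89) (nat_lit 1) (p (nat_lit 0x41) (nat_lit 0) (p (nat_lit 0x8090787089a) (nat_lit 0) (p (nat_lit 0x7888706861a) (nat_lit 0) (p (nat_lit 0x800070686078a) (nat_lit 0) (p (nat_lit 0x800068605850a) (nat_lit 0) (p (nat_lit 0x705850682) (nat_lit 0) (p (nat_lit 0x685048402) (nat_lit 0) (p (nat_lit 0x160014) (nat_lit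 0) (p (nat_lit 0x16000c) (nat_lit 0) (p (nat_lit 0x60592) (nat_lit 0) (p (nat_lit 0x48512) (nat_lit 0) (p (nat_lit 0x50392) (nat_lit 0) (p (nat_lit 0x38312) (nat_lit 0) (p (nat_lit 0x40212) (nat_lit 0) (p (nat_lit 0x28192) (nat_lit 0) (p (nat_lit 0x30092) (nat_lit 0) (p (nat_lit 0x18012) (nat_lit 0) pn))))))))))))))))))))))) :=
  Cl.node (nat_lit 0x200004) (nat_lit 2) (by decide +kernel) (ClAll.succ (ClAll.succ ClAll.zero n106) s82)

def n138 : Cl (O (nat_lit 1)) (R (nat_lit 6353))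
    (p (nat_lit 0x89) (nat_lit 0) (p (nat_lit 0x109) (nat_lit 1) (p (nat_lit 0x101) (nat_lit 0) (p (nat_lit 0x119) (nat_lit 0) (p (nat_lit 0xd1) (nat_lit 0) (p (nat_lit 0x81) (nat_lit 0) (p (nat_lit 0x41) (nat_lit 1) (p (nat_lit 0x8090787089a) (nat_lit 0) (p (nat_lit 0x7888706861a) (nat_lit 0) (p (nat_lit 0x800070686078a) (nat_lit 0) (p (nat_lit 0x800068605850a) (nat_lit 0) (p (nat_lit 0x705850682) (nat_lit 0) (p (nat_lit 0x685048402) (nat_lit 0) (p (nat_lit 0x160014) (nat_lit 0) (p (nat_lit 0x16000c) (nat_lit 0) (p (nat_lit 0x60592) (nat_lit 0) (p (nat_lit 0x48512) (nat_lit 0) (p (nat_lit 0x50392) (nat_lit 0) (p (nat_lit 0x38312) (nat_lit 0) (p (nat_lit 0x40212) (nat_lit 0) (p (nat_lit 0x28192) (nat_lit 0) (p (nat_lit 0x30092) (nat_lit 0) (p (nat_lit 0x18012) (nat_lit 0) pn))))))))))))))))))))))) :=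
  Cl.node (nat_lit 0x200004) (nat_lit 2) (by decide +kernel) (ClAll.succ (ClAll.succ ClAll.zero n107) s90)

def n139 : Cl (O (nat_lit 1)) (R (nat_lit 6353))
    (p (nat_lit 0x89) (nat_lit 1) (p (nat_lit 0x109) (nat_lit 1) (p (nat_lit 0x101) (nat_lit 0) (p (nat_lit 0x119) (nat_lit 0) (p (nat_lit 0xd1) (nat_lit 0) (p (nat_lit 0x81) (nat_lit 0) (p (nat_lit 0x41) (nat_lit 1) (p (nat_lit 0x8090787089a) (nat_lit 0) (p (nat_lit 0x7888706861a) (nat_lit 0) (p (nat_lit 0x800070686078a) (nat_lit 0) (p (nat_lit 0x800068605850a) (nat_lit 0) (p (nat_lit 0x705850682) (nat_lit 0) (p (nat_lit 0x685048402) (nat_lit 0) (p (nat_lit 0x160014) (nat_lit 0) (p (nat_lit 0x16000c) (nat_lit 0) (p (nat_lit 0x60592) (nat_lit 0) (p (nat_lit 0x48512) (nat_lit 0) (p (nat_lit 0x50392) (nat_lit 0) (p (nat_lit 0x38312) (nat_lit 0) (p (nat_lit 0x40212) (nat_lit 0) (p (nat_lit 0x28192) (nat_lit 0) (p (nat_lit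 0x30092) (nat_lit 0) (p (nat_lit 0x18012) (nat_lit 0) pn))))))))))))))))))))))) :=
  Cl.node (nat_lit 0xc9) (nat_lit 2) (by decide +kernel) (ClAll.succ (ClAll.succ ClAll.zero n108) s94)

def n140 : Cl (O (nat_lit 1)) (R (nat_lit 6353))
    (p (nat_lit 0x89) (nat_lit 1) (p (nat_lit 0xc1) (nat_lit 0) (p (nat_lit 0x101) (nat_lit 1) (p (nat_lit 0x119) (nat_lit 0) (p (nat_lit 0xd1) (nat_lit 0) (p (nat_lit 0x81) (nat_lit 0) (p (nat_lit 0x41) (nat_lit 1) (p (nat_lit 0x8090787089a) (nat_lit 0) (p (nat_lit 0x7888706861a) (nat_lit 0) (p (nat_lit 0x800070686078a) (nat_lit 0) (p (nat_lit 0x800068605850a) (nat_lit 0) (p (nat_lit 0x705850682) (nat_lit 0) (p (nat_lit 0x685048402) (nat_lit 0) (p (nat_lit 0x160014) (nat_lit 0) (p (nat_lit 0x16000c) (nat_lit 0) (p (nat_lit 0x60592) (nat_lit 0) (p (nat_lit 0x48512) (nat_lit 0) (p (nat_lit 0x50392) (nat_lit 0) (p (nat_lit 0x38312) (nat_lit 0)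 (p (nat_lit 0x40212) (nat_lit 0) (p (nat_lit 0x28192) (nat_lit 0) (p (nat_lit 0x30092) (nat_lit 0) (p (nat_lit 0x18012) (nat_lit 0) pn))))))))))))))))))))))) :=
  Cl.node (nat_lit 0xc9) (nat_lit 2) (by decide +kernel) (ClAll.succ (ClAll.succ ClAll.zero n109) n110)

def n141 : Cl (O (nat_lit 1)) (R (nat_lit 6353))
    (p (nat_lit 0x89) (nat_lit 1) (p (nat_lit 0xc1) (nat_lit 1) (p (nat_lit 0x101) (nat_lit 1) (p (nat_lit 0x119) (nat_lit 0) (p (nat_lit 0xd1) (nat_lit 0) (p (nat_lit 0x81) (nat_lit 0) (p (nat_lit 0x41) (nat_lit 1) (p (nat_lit 0x8090787089a) (nat_lit 0) (p (nat_lit 0x7888706861a) (nat_lit 0) (p (nat_lit 0x800070686078a) (nat_lit 0) (p (nat_lit 0x800068605850a) (nat_lit 0) (p (nat_lit 0x705850682) (nat_lit 0) (p (nat_lit 0x685048402) (nat_lit 0) (p (nat_lit 0x160014) (nat_lit 0) (p (nat_lit 0x16000c) (nat_lit 0) (p (nat_lit 0x60592) (nat_lit 0) (p (nat_lit 0x48512)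 (nat_lit 0) (p (nat_lit 0x50392) (nat_lit 0) (p (nat_lit 0x38312) (nat_lit 0) (p (nat_lit 0x40212) (nat_lit 0) (p (nat_lit 0x28192) (nat_lit 0) (p (nat_lit 0x30092) (nat_lit 0) (p (nat_lit 0x18012) (nat_lit 0) pn))))))))))))))))))))))) :=
  Cl.node (nat_lit 0x200004) (nat_lit 2) (by decide +kernel) (ClAll.succ (ClAll.succ ClAll.zero n111) s109)

def n142 : Cl (O (nat_lit 1)) (R (nat_lit 6353))
    (p (nat_lit 0x89) (nat_lit 1) (p (nat_lit 0xc9) (nat_lit 1) (p (nat_lit 0xc1) (nat_lit 0) (p (nat_lit 0x119) (nat_lit 1) (p (nat_lit 0xd1) (nat_lit 0) (p (nat_lit 0x81) (nat_lit 0) (p (nat_lit 0x41) (nat_lit 1) (p (nat_lit 0x8090787089a) (nat_lit 0) (p (nat_lit 0x7888706861a) (nat_lit 0) (p (nat_lit 0x800070686078a) (nat_lit 0) (p (nat_lit 0x800068605850a) (nat_lit 0) (p (nat_lit 0x705850682) (nat_lit 0) (p (nat_lit 0x685048402) (nat_lit 0) (p (nat_lit 0x160014) (nat_lit 0) (p (nat_lit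 0x16000c) (nat_lit 0) (p (nat_lit 0x60592) (nat_lit 0) (p (nat_lit 0x48512) (nat_lit 0) (p (nat_lit 0x50392) (nat_lit 0) (p (nat_lit 0x38312) (nat_lit 0) (p (nat_lit 0x40212) (nat_lit 0) (p (nat_lit 0x28192) (nat_lit 0) (p (nat_lit 0x30092) (nat_lit 0) (p (nat_lit 0x18012) (nat_lit 0) pn))))))))))))))))))))))) :=
  Cl.node (nat_lit 0x109) (nat_lit 2) (by decide +kernel) (ClAll.succ (ClAll.succ ClAll.zero n112) n113)

def n143 : Cl (O (nat_lit 1)) (R (nat_lit 6353))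
    (p (nat_lit 0x89) (nat_lit 1) (p (nat_lit 0x101) (nat_lit 0) (p (nat_lit 0xc1) (nat_lit 1) (p (nat_lit 0x119) (nat_lit 1) (p (nat_lit 0xd1) (nat_lit 0) (p (nat_lit 0x81) (nat_lit 0) (p (nat_lit 0x41) (nat_lit 1) (p (nat_lit 0x8090787089a) (nat_lit 0) (p (nat_lit 0x7888706861a) (nat_lit 0) (p (nat_lit 0x800070686078a) (nat_lit 0) (p (nat_lit 0x800068605850a) (nat_lit 0) (p (nat_lit 0x705850682) (nat_lit 0) (p (nat_lit 0x685048402) (nat_lit 0) (p (nat_lit 0x160014) (nat_lit 0) (p (nat_lit 0x16000c) (nat_lit 0) (p (nat_lit 0x60592) (nat_lit 0) (p (nat_lit 0x48512) (nat_lit 0) (p (nat_lit 0x50392) (nat_lit 0) (p (nat_lit 0x38312) (nat_lit 0) (p (nat_lit 0x40212) (nat_lit 0) (p (nat_lit 0x28192) (nat_lit 0) (p (nat_lit 0x30092) (nat_lit 0) (p (nat_lit 0x18012) (nat_lit 0) pn))))))))))))))))))))))) :=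
  Cl.node (nat_lit 0x109) (nat_lit 2) (by decide +kernel) (ClAll.succ (ClAll.succ ClAll.zero n114) n115)

def n144 : Cl (O (nat_lit 1)) (R (nat_lit 6353))
    (p (nat_lit 0x89) (nat_lit 0) (p (nat_lit 0x101) (nat_lit 1) (p (nat_lit 0xc1) (nat_lit 1) (p (nat_lit 0x119) (nat_lit 1) (p (nat_lit 0xd1) (nat_lit 0) (p (nat_lit 0x81) (nat_lit 0) (p (nat_lit 0x41) (nat_lit 1) (p (nat_lit 0x8090787089a) (nat_lit 0) (p (nat_lit 0x7888706861a) (nat_lit 0) (p (nat_lit 0x800070686078a) (nat_lit 0) (p (nat_lit 0x800068605850a) (nat_lit 0) (p (nat_lit 0x705850682) (nat_lit 0) (p (nat_lit 0x685048402) (nat_lit 0) (p (nat_lit 0x160014) (nat_lit 0) (p (nat_lit 0x16000c) (nat_lit 0) (p (nat_lit 0x60592) (nat_lit 0) (p (nat_lit 0x48512) (nat_lit 0) (p (nat_lit 0x50392) (nat_lit 0) (p (nat_lit 0x38312) (nat_lit 0) (p (nat_lit 0x40212) (nat_lit 0) (p (nat_lit 0x28192) (nat_lit 0) (p (nat_lit 0x30092)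 (nat_lit 0) (p (nat_lit 0x18012) (nat_lit 0) pn))))))))))))))))))))))) :=
  Cl.node (nat_lit 0x200004) (nat_lit 2) (by decide +kernel) (ClAll.succ (ClAll.succ ClAll.zero n116) s130)

def n145 : Cl (O (nat_lit 1)) (R (nat_lit 6353))
    (p (nat_lit 0x89) (nat_lit 1) (p (nat_lit 0x101) (nat_lit 1) (p (nat_lit 0xc1) (nat_lit 1) (p (nat_lit 0x119) (nat_lit 1) (p (nat_lit 0xd1) (nat_lit 0) (p (nat_lit 0x81) (nat_lit 0) (p (nat_lit 0x41) (nat_lit 1) (p (nat_lit 0x8090787089a) (nat_lit 0) (p (nat_lit 0x7888706861a) (nat_lit 0) (p (nat_lit 0x800070686078a) (nat_lit 0) (p (nat_lit 0x800068605850a) (nat_lit 0) (p (nat_lit 0x705850682) (nat_lit 0) (p (nat_lit 0x685048402) (nat_lit 0) (p (nat_lit 0x160014) (nat_lit 0) (p (nat_lit 0x16000c) (nat_lit 0) (p (nat_lit 0x60592) (nat_lit 0) (p (nat_lit 0x48512) (nat_lit 0) (p (nat_lit 0x50392) (nat_lit 0) (p (nat_lit 0x38312) (nat_lit 0) (p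 (nat_lit 0x40212) (nat_lit 0) (p (nat_lit 0x28192) (nat_lit 0) (p (nat_lit 0x30092) (nat_lit 0) (p (nat_lit 0x18012) (nat_lit 0) pn))))))))))))))))))))))) :=
  Cl.node (nat_lit 0x200004) (nat_lit 2) (by decide +kernel) (ClAll.succ (ClAll.succ ClAll.zero n117) s140)

def n146 : Cl (O (nat_lit 1)) (R (nat_lit 6353))
    (p (nat_lit 0x89) (nat_lit 1) (p (nat_lit 0x109) (nat_lit 1) (p (nat_lit 0x101) (nat_lit 0) (p (nat_lit 0x111) (nat_lit 0) (p (nat_lit 0xd1) (nat_lit 1) (p (nat_lit 0x81) (nat_lit 0) (p (nat_lit 0x41) (nat_lit 1) (p (nat_lit 0x8090787089a) (nat_lit 0) (p (nat_lit 0x7888706861a) (nat_lit 0) (p (nat_lit 0x800070686078a) (nat_lit 0) (p (nat_lit 0x800068605850a) (nat_lit 0) (p (nat_lit 0x705850682) (nat_lit 0) (p (nat_lit 0x685048402) (nat_lit 0) (p (nat_lit 0x160014) (nat_lit 0) (p (nat_lit 0x16000c) (nat_lit 0) (p (nat_lit 0x60592) (nat_lit 0) (p (nat_lit 0x48512)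 (nat_lit 0) (p (nat_lit 0x50392) (nat_lit 0) (p (nat_lit 0x38312) (nat_lit 0) (p (nat_lit 0x40212) (nat_lit 0) (p (nat_lit 0x28192) (nat_lit 0) (p (nat_lit 0x30092) (nat_lit 0) (p (nat_lit 0x18012) (nat_lit 0) pn))))))))))))))))))))))) :=
  Cl.node (nat_lit 0xc9) (nat_lit 2) (by decide +kernel) (ClAll.succ (ClAll.succ ClAll.zero n118) s147)

def n147 : Cl (O (nat_lit 1)) (R (nat_lit 6353))
    (p (nat_lit 0xc9) (nat_lit 0) (p (nat_lit 0x89) (nat_lit 1) (p (nat_lit 0x101) (nat_lit 1) (p (nat_lit 0x111) (nat_lit 0) (p (nat_lit 0xd1) (nat_lit 1) (p (nat_lit 0x81) (nat_lit 0) (p (nat_lit 0x41) (nat_lit 1) (p (nat_lit 0x8090787089a) (nat_lit 0) (p (nat_lit 0x7888706861a) (nat_lit 0) (p (nat_lit 0x800070686078a) (nat_lit 0) (p (nat_lit 0x800068605850a) (nat_lit 0) (p (nat_lit 0x705850682) (nat_lit 0) (p (nat_lit 0x685048402) (nat_lit 0) (p (nat_lit 0x160014) (nat_lit 0) (p (nat_lit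 0x16000c) (nat_lit 0) (p (nat_lit 0x60592) (nat_lit 0) (p (nat_lit 0x48512) (nat_lit 0) (p (nat_lit 0x50392) (nat_lit 0) (p (nat_lit 0x38312) (nat_lit 0) (p (nat_lit 0x40212) (nat_lit 0) (p (nat_lit 0x28192) (nat_lit 0) (p (nat_lit 0x30092) (nat_lit 0) (p (nat_lit 0x18012) (nat_lit 0) pn))))))))))))))))))))))) :=
  Cl.node (nat_lit 0x200004) (nat_lit 2) (by decide +kernel) (ClAll.succ (ClAll.succ ClAll.zero n119) s156)

def n148 : Cl (O (nat_lit 1)) (R (nat_lit 6353))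
    (p (nat_lit 0x109) (nat_lit 0) (p (nat_lit 0xc9) (nat_lit 1) (p (nat_lit 0x89) (nat_lit 1) (p (nat_lit 0x111) (nat_lit 1) (p (nat_lit 0xd1) (nat_lit 1) (p (nat_lit 0x81) (nat_lit 0) (p (nat_lit 0x41) (nat_lit 1) (p (nat_lit 0x8090787089a) (nat_lit 0) (p (nat_lit 0x7888706861a) (nat_lit 0) (p (nat_lit 0x800070686078a) (nat_lit 0) (p (nat_lit 0x800068605850a) (nat_lit 0) (p (nat_lit 0x705850682) (nat_lit 0) (p (nat_lit 0x685048402) (nat_lit 0) (p (nat_lit 0x160014) (nat_lit 0) (p (nat_lit 0x16000c) (nat_lit 0) (p (nat_lit 0x60592) (nat_lit 0) (p (nat_lit 0x48512) (nat_lit 0) (p (nat_lit 0x50392) (nat_lit 0) (p (nat_lit 0x38312) (nat_lit 0) (p (nat_lit 0x40212) (nat_lit 0) (p (nat_lit 0x28192) (nat_lit 0) (p (nat_lit 0x30092) (nat_lit 0) (p (nat_lit 0x18012) (nat_lit 0) pn))))))))))))))))))))))) :=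
  Cl.node (nat_lit 0x200004) (nat_lit 2) (by decide +kernel) (ClAll.succ (ClAll.succ ClAll.zero s160) s161)

def n149 : Cl (O (nat_lit 1)) (R (nat_lit 6353))
    (p (nat_lit 0x109) (nat_lit 1) (p (nat_lit 0xc9) (nat_lit 1) (p (nat_lit 0x89) (nat_lit 1) (p (nat_lit 0x111) (nat_lit 1) (p (nat_lit 0xd1) (nat_lit 1) (p (nat_lit 0x81) (nat_lit 0) (p (nat_lit 0x41) (nat_lit 1) (p (nat_lit 0x8090787089a) (nat_lit 0) (p (nat_lit 0x7888706861a) (nat_lit 0) (p (nat_lit 0x800070686078a) (nat_lit 0) (p (nat_lit 0x800068605850a) (nat_lit 0) (p (nat_lit 0x705850682) (nat_lit 0) (p (nat_lit 0x685048402) (nat_lit 0) (p (nat_lit 0x160014) (nat_lit 0) (p (nat_lit 0x16000c) (nat_lit 0) (p (nat_lit 0x60592) (nat_lit 0) (p (nat_lit 0x48512) (nat_lit 0) (p (nat_lit 0x50392) (nat_lit 0) (p (nat_lit 0x38312) (nat_lit 0) (p (nat_lit 0x40212) (nat_lit 0) (p (nat_lit 0x28192) (nat_lit 0) (p (nat_lit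 0x30092) (nat_lit 0) (p (nat_lit 0x18012) (nat_lit 0) pn))))))))))))))))))))))) :=
  Cl.node (nat_lit 0x200004) (nat_lit 2) (by decide +kernel) (ClAll.succ (ClAll.succ ClAll.zero n120) s164)

def n150 : Cl (O (nat_lit 1)) (R (nat_lit 6353))
    (p (nat_lit 0x111) (nat_lit 1) (p (nat_lit 0xd1) (nat_lit 1) (p (nat_lit 0xc9) (nat_lit 0) (p (nat_lit 0x119) (nat_lit 1) (p (nat_lit 0xc1) (nat_lit 0) (p (nat_lit 0x81) (nat_lit 1) (p (nat_lit 0x41) (nat_lit 1) (p (nat_lit 0x8090787089a) (nat_lit 0) (p (nat_lit 0x7888706861a) (nat_lit 0) (p (nat_lit 0x800070686078a) (nat_lit 0) (p (nat_lit 0x800068605850a) (nat_lit 0) (p (nat_lit 0x705850682) (nat_lit 0) (p (nat_lit 0x685048402) (nat_lit 0) (p (nat_lit 0x160014) (nat_lit 0) (p (nat_lit 0x16000c) (nat_lit 0) (p (nat_lit 0x60592) (nat_lit 0) (p (nat_lit 0x48512) (nat_lit 0) (p (nat_lit 0x50392) (nat_lit 0) (p (nat_lit 0x38312) (nat_lit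 0) (p (nat_lit 0x40212) (nat_lit 0) (p (nat_lit 0x28192) (nat_lit 0) (p (nat_lit 0x30092) (nat_lit 0) (p (nat_lit 0x18012) (nat_lit 0) pn))))))))))))))))))))))) :=
  Cl.node (nat_lit 0x200004) (nat_lit 2) (by decide +kernel) (ClAll.succ (ClAll.succ ClAll.zero n121) s174)

def n151 : Cl (O (nat_lit 1)) (R (nat_lit 6353))
    (p (nat_lit 0x111) (nat_lit 1) (p (nat_lit 0x109) (nat_lit 0) (p (nat_lit 0xc9) (nat_lit 1) (p (nat_lit 0x119) (nat_lit 1) (p (nat_lit 0xc1) (nat_lit 0) (p (nat_lit 0x81) (nat_lit 1) (p (nat_lit 0x41) (nat_lit 1) (p (nat_lit 0x8090787089a) (nat_lit 0) (p (nat_lit 0x7888706861a) (nat_lit 0) (p (nat_lit 0x800070686078a) (nat_lit 0) (p (nat_lit 0x800068605850a) (nat_lit 0) (p (nat_lit 0x705850682) (nat_lit 0) (p (nat_lit 0x685048402) (nat_lit 0) (p (nat_lit 0x160014) (nat_lit 0) (p (nat_lit 0x16000c) (nat_lit 0) (p (nat_lit 0x60592) (nat_lit 0) (p (nat_lit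 0x48512) (nat_lit 0) (p (nat_lit 0x50392) (nat_lit 0) (p (nat_lit 0x38312) (nat_lit 0) (p (nat_lit 0x40212) (nat_lit 0) (p (nat_lit 0x28192) (nat_lit 0) (p (nat_lit 0x30092) (nat_lit 0) (p (nat_lit 0x18012) (nat_lit 0) pn))))))))))))))))))))))) :=
  Cl.node (nat_lit 0x200004) (nat_lit 2) (by decide +kernel) (ClAll.succ (ClAll.succ ClAll.zero n122) s178)

def n152 : Cl (O (nat_lit 1)) (R (nat_lit 6353))
    (p (nat_lit 0x200004) (nat_lit 0) (p (nat_lit 0x109) (nat_lit 1) (p (nat_lit 0xc9) (nat_lit 1) (p (nat_lit 0x119) (nat_lit 1) (p (nat_lit 0xc1) (nat_lit 0) (p (nat_lit 0x81) (nat_lit 1) (p (nat_lit 0x41) (nat_lit 1) (p (nat_lit 0x8090787089a) (nat_lit 0) (p (nat_lit 0x7888706861a) (nat_lit 0) (p (nat_lit 0x800070686078a) (nat_lit 0) (p (nat_lit 0x800068605850a) (nat_lit 0) (p (nat_lit 0x705850682) (nat_lit 0) (p (nat_lit 0x685048402) (nat_lit 0) (p (nat_lit 0x160014) (nat_lit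 0) (p (nat_lit 0x16000c) (nat_lit 0) (p (nat_lit 0x60592) (nat_lit 0) (p (nat_lit 0x48512) (nat_lit 0) (p (nat_lit 0x50392) (nat_lit 0) (p (nat_lit 0x38312) (nat_lit 0) (p (nat_lit 0x40212) (nat_lit 0) (p (nat_lit 0x28192) (nat_lit 0) (p (nat_lit 0x30092) (nat_lit 0) (p (nat_lit 0x18012) (nat_lit 0) pn))))))))))))))))))))))) :=
  Cl.node (nat_lit 0xb000c) (nat_lit 2) (by decide +kernel) (ClAll.succ (ClAll.succ ClAll.zero n123) n124)

def n153 : Cl (O (nat_lit 1)) (R (nat_lit 6353))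
    (p (nat_lit 0x109) (nat_lit 1) (p (nat_lit 0x101) (nat_lit 0) (p (nat_lit 0x119) (nat_lit 0) (p (nat_lit 0xd1) (nat_lit 0) (p (nat_lit 0x89) (nat_lit 0) (p (nat_lit 0x41) (nat_lit 0) (p (nat_lit 0x8090787089a) (nat_lit 0) (p (nat_lit 0x7888706861a) (nat_lit 0) (p (nat_lit 0x800070686078a) (nat_lit 0) (p (nat_lit 0x800068605850a) (nat_lit 0) (p (nat_lit 0x705850682) (nat_lit 0) (p (nat_lit 0x685048402) (nat_lit 0) (p (nat_lit 0x160014) (nat_lit 0) (p (nat_lit 0x16000c) (nat_lit 0) (p (nat_lit 0x60592) (nat_lit 0) (p (nat_lit 0x48512) (nat_lit 0) (p (nat_lit 0x50392) (nat_lit 0) (p (nat_lit 0x38312) (nat_lit 0) (p (nat_lit 0x40212) (nat_lit 0) (p (nat_lit 0x28192) (nat_lit 0) (p (nat_lit 0x30092) (nat_lit 0) (p (nat_lit 0x18012) (nat_lit 0) pn)))))))))))))))))))))) :=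
  Cl.node (nat_lit 0xc9) (nat_lit 2) (by decide +kernel) (ClAll.succ (ClAll.succ ClAll.zero s1) s2)

def n154 : Cl (O (nat_lit 1)) (R (nat_lit 6353))
    (p (nat_lit 0x81) (nat_lit 0) (p (nat_lit 0x101) (nat_lit 1) (p (nat_lit 0x119) (nat_lit 0) (p (nat_lit 0xd1) (nat_lit 0) (p (nat_lit 0x89) (nat_lit 0) (p (nat_lit 0x41) (nat_lit 0) (p (nat_lit 0x8090787089a) (nat_lit 0) (p (nat_lit 0x7888706861a) (nat_lit 0) (p (nat_lit 0x800070686078a) (nat_lit 0) (p (nat_lit 0x800068605850a) (nat_lit 0) (p (nat_lit 0x705850682) (nat_lit 0) (p (nat_lit 0x685048402) (nat_lit 0) (p (nat_lit 0x160014) (nat_lit 0) (p (nat_lit 0x16000c) (nat_lit 0) (p (nat_lit 0x60592) (nat_lit 0) (p (nat_lit 0x48512) (nat_lit 0) (p (nat_lit 0x50392) (nat_lit 0) (p (nat_lit 0x38312) (nat_lit 0) (p (nat_lit 0x40212) (nat_lit 0) (p (nat_lit 0x28192) (nat_lit 0) (p (nat_lit 0x30092) (nat_lit 0) (p (nat_lit 0x18012)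 (nat_lit 0) pn)))))))))))))))))))))) :=
  Cl.node (nat_lit 0xc9) (nat_lit 2) (by decide +kernel) (ClAll.succ (ClAll.succ ClAll.zero n125) n126)

def n155 : Cl (O (nat_lit 1)) (R (nat_lit 6353))
    (p (nat_lit 0x81) (nat_lit 1) (p (nat_lit 0x101) (nat_lit 1) (p (nat_lit 0x119) (nat_lit 0) (p (nat_lit 0xd1) (nat_lit 0) (p (nat_lit 0x89) (nat_lit 0) (p (nat_lit 0x41) (nat_lit 0) (p (nat_lit 0x8090787089a) (nat_lit 0) (p (nat_lit 0x7888706861a) (nat_lit 0) (p (nat_lit 0x800070686078a) (nat_lit 0) (p (nat_lit 0x800068605850a) (nat_lit 0) (p (nat_lit 0x705850682) (nat_lit 0) (p (nat_lit 0x685048402) (nat_lit 0) (p (nat_lit 0x160014) (nat_lit 0) (p (nat_lit 0x16000c) (nat_lit 0) (p (nat_lit 0x60592) (nat_lit 0) (p (nat_lit 0x48512) (nat_lit 0) (p (nat_lit 0x50392) (nat_lit 0) (p (nat_lit 0x38312) (nat_lit 0) (p (nat_lit 0x40212) (nat_lit 0) (p (nat_lit 0x28192) (nat_lit 0) (p (nat_lit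 0x30092) (nat_lit 0) (p (nat_lit 0x18012) (nat_lit 0) pn)))))))))))))))))))))) :=
  Cl.node (nat_lit 0xc1) (nat_lit 2) (by decide +kernel) (ClAll.succ (ClAll.succ ClAll.zero n127) s25)

def n156 : Cl (O (nat_lit 1)) (R (nat_lit 6353))
    (p (nat_lit 0xc9) (nat_lit 1) (p (nat_lit 0xc1) (nat_lit 0) (p (nat_lit 0x119) (nat_lit 1) (p (nat_lit 0xd1) (nat_lit 0) (p (nat_lit 0x89) (nat_lit 0) (p (nat_lit 0x41) (nat_lit 0) (p (nat_lit 0x8090787089a) (nat_lit 0) (p (nat_lit 0x7888706861a) (nat_lit 0) (p (nat_lit 0x800070686078a) (nat_lit 0) (p (nat_lit 0x800068605850a) (nat_lit 0) (p (nat_lit 0x705850682) (nat_lit 0) (p (nat_lit 0x685048402) (nat_lit 0) (p (nat_lit 0x160014) (nat_lit 0) (p (nat_lit 0x16000c) (nat_lit 0) (p (nat_lit 0x60592) (nat_lit 0) (p (nat_lit 0x48512) (nat_lit 0) (p (nat_lit 0x50392) (nat_lit 0) (p (nat_lit 0x38312) (nat_lit 0) (p (nat_lit 0x40212) (nat_lit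 0) (p (nat_lit 0x28192) (nat_lit 0) (p (nat_lit 0x30092) (nat_lit 0) (p (nat_lit 0x18012) (nat_lit 0) pn)))))))))))))))))))))) :=
  Cl.node (nat_lit 0x109) (nat_lit 2) (by decide +kernel) (ClAll.succ (ClAll.succ ClAll.zero s27) n128)

def n157 : Cl (O (nat_lit 1)) (R (nat_lit 6353))
    (p (nat_lit 0x81) (nat_lit 0) (p (nat_lit 0xc1) (nat_lit 1) (p (nat_lit 0x119) (nat_lit 1) (p (nat_lit 0xd1) (nat_lit 0) (p (nat_lit 0x89) (nat_lit 0) (p (nat_lit 0x41) (nat_lit 0) (p (nat_lit 0x8090787089a) (nat_lit 0) (p (nat_lit 0x7888706861a) (nat_lit 0) (p (nat_lit 0x800070686078a) (nat_lit 0) (p (nat_lit 0x800068605850a) (nat_lit 0) (p (nat_lit 0x705850682) (nat_lit 0) (p (nat_lit 0x685048402) (nat_lit 0) (p (nat_lit 0x160014) (nat_lit 0) (p (nat_lit 0x16000c) (nat_lit 0) (p (nat_lit 0x60592) (nat_lit 0) (p (nat_lit 0x48512) (nat_lit 0) (p (nat_lit 0x50392) (nat_lit 0) (p (nat_lit 0x38312)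 (nat_lit 0) (p (nat_lit 0x40212) (nat_lit 0) (p (nat_lit 0x28192) (nat_lit 0) (p (nat_lit 0x30092) (nat_lit 0) (p (nat_lit 0x18012) (nat_lit 0) pn)))))))))))))))))))))) :=
  Cl.node (nat_lit 0x109) (nat_lit 2) (by decide +kernel) (ClAll.succ (ClAll.succ ClAll.zero s35) n129)

def n158 : Cl (O (nat_lit 1)) (R (nat_lit 6353))
    (p (nat_lit 0x81) (nat_lit 1) (p (nat_lit 0xc1) (nat_lit 1) (p (nat_lit 0x119) (nat_lit 1) (p (nat_lit 0xd1) (nat_lit 0) (p (nat_lit 0x89) (nat_lit 0) (p (nat_lit 0x41) (nat_lit 0) (p (nat_lit 0x8090787089a) (nat_lit 0) (p (nat_lit 0x7888706861a) (nat_lit 0) (p (nat_lit 0x800070686078a) (nat_lit 0) (p (nat_lit 0x800068605850a) (nat_lit 0) (p (nat_lit 0x705850682) (nat_lit 0) (p (nat_lit 0x685048402) (nat_lit 0) (p (nat_lit 0x160014) (nat_lit 0) (p (nat_lit 0x16000c) (nat_lit 0) (p (nat_lit 0x60592) (nat_lit 0) (p (nat_lit 0x48512) (nat_lit 0) (p (nat_lit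 0x50392) (nat_lit 0) (p (nat_lit 0x38312) (nat_lit 0) (p (nat_lit 0x40212) (nat_lit 0) (p (nat_lit 0x28192) (nat_lit 0) (p (nat_lit 0x30092) (nat_lit 0) (p (nat_lit 0x18012) (nat_lit 0) pn)))))))))))))))))))))) :=
  Cl.node (nat_lit 0x101) (nat_lit 2) (by decide +kernel) (ClAll.succ (ClAll.succ ClAll.zero n130) n131)

def n159 : Cl (O (nat_lit 1)) (R (nat_lit 6353))
    (p (nat_lit 0x81) (nat_lit 0) (p (nat_lit 0x101) (nat_lit 1) (p (nat_lit 0x111) (nat_lit 0) (p (nat_lit 0xd1) (nat_lit 1) (p (nat_lit 0x89) (nat_lit 0) (p (nat_lit 0x41) (nat_lit 0) (p (nat_lit 0x8090787089a) (nat_lit 0) (p (nat_lit 0x7888706861a) (nat_lit 0) (p (nat_lit 0x800070686078a) (nat_lit 0) (p (nat_lit 0x800068605850a) (nat_lit 0) (p (nat_lit 0x705850682) (nat_lit 0) (p (nat_lit 0x685048402) (nat_lit 0) (p (nat_lit 0x160014) (nat_lit 0) (p (nat_lit 0x16000c) (nat_lit 0) (p (nat_lit 0x60592) (nat_lit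 0) (p (nat_lit 0x48512) (nat_lit 0) (p (nat_lit 0x50392) (nat_lit 0) (p (nat_lit 0x38312) (nat_lit 0) (p (nat_lit 0x40212) (nat_lit 0) (p (nat_lit 0x28192) (nat_lit 0) (p (nat_lit 0x30092) (nat_lit 0) (p (nat_lit 0x18012) (nat_lit 0) pn)))))))))))))))))))))) :=
  Cl.node (nat_lit 0x200004) (nat_lit 2) (by decide +kernel) (ClAll.succ (ClAll.succ ClAll.zero n132) s52)

def n160 : Cl (O (nat_lit 1)) (R (nat_lit 6353))
    (p (nat_lit 0x81) (nat_lit 1) (p (nat_lit 0x101) (nat_lit 1) (p (nat_lit 0x111) (nat_lit 0) (p (nat_lit 0xd1) (nat_lit 1) (p (nat_lit 0x89) (nat_lit 0) (p (nat_lit 0x41) (nat_lit 0) (p (nat_lit 0x8090787089a) (nat_lit 0) (p (nat_lit 0x7888706861a) (nat_lit 0) (p (nat_lit 0x800070686078a) (nat_lit 0) (p (nat_lit 0x800068605850a) (nat_lit 0) (p (nat_lit 0x705850682) (nat_lit 0) (p (nat_lit 0x685048402) (nat_lit 0) (p (nat_lit 0x160014) (nat_lit 0) (p (nat_lit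 0x16000c) (nat_lit 0) (p (nat_lit 0x60592) (nat_lit 0) (p (nat_lit 0x48512) (nat_lit 0) (p (nat_lit 0x50392) (nat_lit 0) (p (nat_lit 0x38312) (nat_lit 0) (p (nat_lit 0x40212) (nat_lit 0) (p (nat_lit 0x28192) (nat_lit 0) (p (nat_lit 0x30092) (nat_lit 0) (p (nat_lit 0x18012) (nat_lit 0) pn)))))))))))))))))))))) :=
  Cl.node (nat_lit 0xc1) (nat_lit 2) (by decide +kernel) (ClAll.succ (ClAll.succ ClAll.zero n133) s57)

def n161 : Cl (O (nat_lit 1)) (R (nat_lit 6353))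
    (p (nat_lit 0xc1) (nat_lit 1) (p (nat_lit 0x81) (nat_lit 1) (p (nat_lit 0x111) (nat_lit 1) (p (nat_lit 0xd1) (nat_lit 1) (p (nat_lit 0x89) (nat_lit 0) (p (nat_lit 0x41) (nat_lit 0) (p (nat_lit 0x8090787089a) (nat_lit 0) (p (nat_lit 0x7888706861a) (nat_lit 0) (p (nat_lit 0x800070686078a) (nat_lit 0) (p (nat_lit 0x800068605850a) (nat_lit 0) (p (nat_lit 0x705850682) (nat_lit 0) (p (nat_lit 0x685048402) (nat_lit 0) (p (nat_lit 0x160014) (nat_lit 0) (p (nat_lit 0x16000c) (nat_lit 0) (p (nat_lit 0x60592) (nat_lit 0) (p (nat_lit 0x48512) (nat_lit 0) (p (nat_lit 0x50392) (nat_lit 0) (p (nat_lit 0x38312) (nat_lit 0) (p (nat_lit 0x40212) (nat_lit 0) (p (nat_lit 0x28192) (nat_lit 0) (p (nat_lit 0x30092) (nat_lit 0) (p (nat_lit 0x18012) (nat_lit 0) pn)))))))))))))))))))))) :=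
  Cl.node (nat_lit 0x101) (nat_lit 2) (by decide +kernel) (ClAll.succ (ClAll.succ ClAll.zero n134) s62)

def n162 : Cl (O (nat_lit 1)) (R (nat_lit 6353))
    (p (nat_lit 0x109) (nat_lit 1) (p (nat_lit 0x101) (nat_lit 0) (p (nat_lit 0x119) (nat_lit 0) (p (nat_lit 0xc9) (nat_lit 0) (p (nat_lit 0x89) (nat_lit 1) (p (nat_lit 0x41) (nat_lit 0) (p (nat_lit 0x8090787089a) (nat_lit 0) (p (nat_lit 0x7888706861a) (nat_lit 0) (p (nat_lit 0x800070686078a) (nat_lit 0) (p (nat_lit 0x800068605850a) (nat_lit 0) (p (nat_lit 0x705850682) (nat_lit 0) (p (nat_lit 0x685048402) (nat_lit 0) (p (nat_lit 0x160014) (nat_lit 0) (p (nat_lit 0x16000c) (nat_lit 0) (p (nat_lit 0x60592) (nat_lit 0) (p (nat_lit 0x48512) (nat_lit 0) (p (nat_lit 0x50392) (nat_lit 0) (p (nat_lit 0x38312) (nat_lit 0) (p (nat_lit 0x40212) (nat_lit 0) (p (nat_lit 0x28192) (nat_lit 0) (p (nat_lit 0x30092) (nat_lit 0) (p (nat_lit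 0x18012) (nat_lit 0) pn)))))))))))))))))))))) :=
  Cl.node (nat_lit 0xd1) (nat_lit 2) (by decide +kernel) (ClAll.succ (ClAll.succ ClAll.zero s64) s65)

def n163 : Cl (O (nat_lit 1)) (R (nat_lit 6353))
    (p (nat_lit 0xc1) (nat_lit 0) (p (nat_lit 0x101) (nat_lit 1) (p (nat_lit 0x119) (nat_lit 0) (p (nat_lit 0xc9) (nat_lit 0) (p (nat_lit 0x89) (nat_lit 1) (p (nat_lit 0x41) (nat_lit 0) (p (nat_lit 0x8090787089a) (nat_lit 0) (p (nat_lit 0x7888706861a) (nat_lit 0) (p (nat_lit 0x800070686078a) (nat_lit 0) (p (nat_lit 0x800068605850a) (nat_lit 0) (p (nat_lit 0x705850682) (nat_lit 0) (p (nat_lit 0x685048402) (nat_lit 0) (p (nat_lit 0x160014) (nat_lit 0) (p (nat_lit 0x16000c) (nat_lit 0) (p (nat_lit 0x60592) (nat_lit 0) (p (nat_lit 0x48512) (nat_lit 0) (p (nat_lit 0x50392) (nat_lit 0) (p (nat_lit 0x38312) (nat_lit 0) (p (nat_lit 0x40212) (nat_lit 0) (p (nat_lit 0x28192) (nat_lit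 0) (p (nat_lit 0x30092) (nat_lit 0) (p (nat_lit 0x18012) (nat_lit 0) pn)))))))))))))))))))))) :=
  Cl.node (nat_lit 0xd1) (nat_lit 2) (by decide +kernel) (ClAll.succ (ClAll.succ ClAll.zero n135) s69)

def n164 : Cl (O (nat_lit 1)) (R (nat_lit 6353))
    (p (nat_lit 0xd1) (nat_lit 1) (p (nat_lit 0xc1) (nat_lit 0) (p (nat_lit 0x119) (nat_lit 1) (p (nat_lit 0xc9) (nat_lit 0) (p (nat_lit 0x89) (nat_lit 1) (p (nat_lit 0x41) (nat_lit 0) (p (nat_lit 0x8090787089a) (nat_lit 0) (p (nat_lit 0x7888706861a) (nat_lit 0) (p (nat_lit 0x800070686078a) (nat_lit 0) (p (nat_lit 0x800068605850a) (nat_lit 0) (p (nat_lit 0x705850682) (nat_lit 0) (p (nat_lit 0x685048402) (nat_lit 0) (p (nat_lit 0x160014) (nat_lit 0) (p (nat_lit 0x16000c) (nat_lit 0) (p (nat_lit 0x60592) (nat_lit 0) (p (nat_lit 0x48512) (nat_lit 0) (p (nat_lit 0x50392) (nat_lit 0) (p (nat_lit 0x38312) (nat_lit 0) (p (nat_lit 0x40212)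 (nat_lit 0) (p (nat_lit 0x28192) (nat_lit 0) (p (nat_lit 0x30092) (nat_lit 0) (p (nat_lit 0x18012) (nat_lit 0) pn)))))))))))))))))))))) :=
  Cl.node (nat_lit 0x111) (nat_lit 2) (by decide +kernel) (ClAll.succ (ClAll.succ ClAll.zero s72) n136)

def n165 : Cl (O (nat_lit 1)) (R (nat_lit 6353))
    (p (nat_lit 0x101) (nat_lit 0) (p (nat_lit 0xc1) (nat_lit 1) (p (nat_lit 0x119) (nat_lit 1) (p (nat_lit 0xc9) (nat_lit 0) (p (nat_lit 0x89) (nat_lit 1) (p (nat_lit 0x41) (nat_lit 0) (p (nat_lit 0x8090787089a) (nat_lit 0) (p (nat_lit 0x7888706861a) (nat_lit 0) (p (nat_lit 0x800070686078a) (nat_lit 0) (p (nat_lit 0x800068605850a) (nat_lit 0) (p (nat_lit 0x705850682) (nat_lit 0) (p (nat_lit 0x685048402) (nat_lit 0) (p (nat_lit 0x160014) (nat_lit 0) (p (nat_lit 0x16000c) (nat_lit 0) (p (nat_lit 0x60592) (nat_lit 0) (p (nat_lit 0x48512) (nat_lit 0) (p (nat_lit 0x50392) (nat_lit 0) (p (nat_lit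 0x38312) (nat_lit 0) (p (nat_lit 0x40212) (nat_lit 0) (p (nat_lit 0x28192) (nat_lit 0) (p (nat_lit 0x30092) (nat_lit 0) (p (nat_lit 0x18012) (nat_lit 0) pn)))))))))))))))))))))) :=
  Cl.node (nat_lit 0x111) (nat_lit 2) (by decide +kernel) (ClAll.succ (ClAll.succ ClAll.zero s79) n137)

def n166 : Cl (O (nat_lit 1)) (R (nat_lit 6353))
    (p (nat_lit 0x101) (nat_lit 1) (p (nat_lit 0xc1) (nat_lit 1) (p (nat_lit 0x119) (nat_lit 1) (p (nat_lit 0xc9) (nat_lit 0) (p (nat_lit 0x89) (nat_lit 1) (p (nat_lit 0x41) (nat_lit 0) (p (nat_lit 0x8090787089a) (nat_lit 0) (p (nat_lit 0x7888706861a) (nat_lit 0) (p (nat_lit 0x800070686078a) (nat_lit 0) (p (nat_lit 0x800068605850a) (nat_lit 0) (p (nat_lit 0x705850682) (nat_lit 0) (p (nat_lit 0x685048402) (nat_lit 0) (p (nat_lit 0x160014) (nat_lit 0) (p (nat_lit 0x16000c) (nat_lit 0) (p (nat_lit 0x60592) (nat_lit 0) (p (nat_lit 0x48512) (nat_lit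 0) (p (nat_lit 0x50392) (nat_lit 0) (p (nat_lit 0x38312) (nat_lit 0) (p (nat_lit 0x40212) (nat_lit 0) (p (nat_lit 0x28192) (nat_lit 0) (p (nat_lit 0x30092) (nat_lit 0) (p (nat_lit 0x18012) (nat_lit 0) pn)))))))))))))))))))))) :=
  Cl.node (nat_lit 0x200004) (nat_lit 2) (by decide +kernel) (ClAll.succ (ClAll.succ ClAll.zero s83) s84)

def n167 : Cl (O (nat_lit 1)) (R (nat_lit 6353))
    (p (nat_lit 0x109) (nat_lit 1) (p (nat_lit 0x101) (nat_lit 0) (p (nat_lit 0x119) (nat_lit 0) (p (nat_lit 0xd1) (nat_lit 0) (p (nat_lit 0x81) (nat_lit 0) (p (nat_lit 0x41) (nat_lit 1) (p (nat_lit 0x8090787089a) (nat_lit 0) (p (nat_lit 0x7888706861a) (nat_lit 0) (p (nat_lit 0x800070686078a) (nat_lit 0) (p (nat_lit 0x800068605850a) (nat_lit 0) (p (nat_lit 0x705850682) (nat_lit 0) (p (nat_lit 0x685048402) (nat_lit 0) (p (nat_lit 0x160014) (nat_lit 0) (p (nat_lit 0x16000c) (nat_lit 0) (p (nat_lit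 0x60592) (nat_lit 0) (p (nat_lit 0x48512) (nat_lit 0) (p (nat_lit 0x50392) (nat_lit 0) (p (nat_lit 0x38312) (nat_lit 0) (p (nat_lit 0x40212) (nat_lit 0) (p (nat_lit 0x28192) (nat_lit 0) (p (nat_lit 0x30092) (nat_lit 0) (p (nat_lit 0x18012) (nat_lit 0) pn)))))))))))))))))))))) :=
  Cl.node (nat_lit 0x89) (nat_lit 2) (by decide +kernel) (ClAll.succ (ClAll.succ ClAll.zero n138) n139)

def n168 : Cl (O (nat_lit 1)) (R (nat_lit 6353))
    (p (nat_lit 0xc1) (nat_lit 0) (p (nat_lit 0x101) (nat_lit 1) (p (nat_lit 0x119) (nat_lit 0) (p (nat_lit 0xd1) (nat_lit 0) (p (nat_lit 0x81) (nat_lit 0) (p (nat_lit 0x41) (nat_lit 1) (p (nat_lit 0x8090787089a) (nat_lit 0) (p (nat_lit 0x7888706861a) (nat_lit 0) (p (nat_lit 0x800070686078a) (nat_lit 0) (p (nat_lit 0x800068605850a) (nat_lit 0) (p (nat_lit 0x705850682) (nat_lit 0) (p (nat_lit 0x685048402) (nat_lit 0) (p (nat_lit 0x160014) (nat_lit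 0) (p (nat_lit 0x16000c) (nat_lit 0) (p (nat_lit 0x60592) (nat_lit 0) (p (nat_lit 0x48512) (nat_lit 0) (p (nat_lit 0x50392) (nat_lit 0) (p (nat_lit 0x38312) (nat_lit 0) (p (nat_lit 0x40212) (nat_lit 0) (p (nat_lit 0x28192) (nat_lit 0) (p (nat_lit 0x30092) (nat_lit 0) (p (nat_lit 0x18012) (nat_lit 0) pn)))))))))))))))))))))) :=
  Cl.node (nat_lit 0x89) (nat_lit 2) (by decide +kernel) (ClAll.succ (ClAll.succ ClAll.zero s95) n140)

def n169 : Cl (O (nat_lit 1)) (R (nat_lit 6353))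
    (p (nat_lit 0xc1) (nat_lit 1) (p (nat_lit 0x101) (nat_lit 1) (p (nat_lit 0x119) (nat_lit 0) (p (nat_lit 0xd1) (nat_lit 0) (p (nat_lit 0x81) (nat_lit 0) (p (nat_lit 0x41) (nat_lit 1) (p (nat_lit 0x8090787089a) (nat_lit 0) (p (nat_lit 0x7888706861a) (nat_lit 0) (p (nat_lit 0x800070686078a) (nat_lit 0) (p (nat_lit 0x800068605850a) (nat_lit 0) (p (nat_lit 0x705850682) (nat_lit 0) (p (nat_lit 0x685048402) (nat_lit 0) (p (nat_lit 0x160014) (nat_lit 0) (p (nat_lit 0x16000c) (nat_lit 0) (p (nat_lit 0x60592) (nat_lit 0) (p (nat_lit 0x48512) (nat_lit 0) (p (nat_lit 0x50392) (nat_lit 0) (p (nat_lit 0x38312) (nat_lit 0) (p (nat_lit 0x40212) (nat_lit 0) (p (nat_lit 0x28192) (nat_lit 0) (p (nat_lit 0x30092) (nat_lit 0) (p (nat_lit 0x18012) (nat_lit 0) pn)))))))))))))))))))))) :=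
  Cl.node (nat_lit 0x89) (nat_lit 2) (by decide +kernel) (ClAll.succ (ClAll.succ ClAll.zero s104) n141)

def n170 : Cl (O (nat_lit 1)) (R (nat_lit 6353))
    (p (nat_lit 0xc9) (nat_lit 1) (p (nat_lit 0xc1) (nat_lit 0) (p (nat_lit 0x119) (nat_lit 1) (p (nat_lit 0xd1) (nat_lit 0) (p (nat_lit 0x81) (nat_lit 0) (p (nat_lit 0x41) (nat_lit 1) (p (nat_lit 0x8090787089a) (nat_lit 0) (p (nat_lit 0x7888706861a) (nat_lit 0) (p (nat_lit 0x800070686078a) (nat_lit 0) (p (nat_lit 0x800068605850a) (nat_lit 0) (p (nat_lit 0x705850682) (nat_lit 0) (p (nat_lit 0x685048402) (nat_lit 0) (p (nat_lit 0x160014) (nat_lit 0) (p (nat_lit 0x16000c) (nat_lit 0) (p (nat_lit 0x60592) (nat_lit 0) (p (nat_lit 0x48512) (nat_lit 0) (p (nat_lit 0x50392) (nat_lit 0) (p (nat_lit 0x38312) (nat_lit 0) (p (nat_lit 0x40212) (nat_lit 0) (p (nat_lit 0x28192) (nat_lit 0) (p (nat_lit 0x30092) (nat_lit 0) (p (nat_lit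 0x18012) (nat_lit 0) pn)))))))))))))))))))))) :=
  Cl.node (nat_lit 0x89) (nat_lit 2) (by decide +kernel) (ClAll.succ (ClAll.succ ClAll.zero s111) n142)

def n171 : Cl (O (nat_lit 1)) (R (nat_lit 6353))
    (p (nat_lit 0x101) (nat_lit 0) (p (nat_lit 0xc1) (nat_lit 1) (p (nat_lit 0x119) (nat_lit 1) (p (nat_lit 0xd1) (nat_lit 0) (p (nat_lit 0x81) (nat_lit 0) (p (nat_lit 0x41) (nat_lit 1) (p (nat_lit 0x8090787089a) (nat_lit 0) (p (nat_lit 0x7888706861a) (nat_lit 0) (p (nat_lit 0x800070686078a) (nat_lit 0) (p (nat_lit 0x800068605850a) (nat_lit 0) (p (nat_lit 0x705850682) (nat_lit 0) (p (nat_lit 0x685048402) (nat_lit 0) (p (nat_lit 0x160014) (nat_lit 0) (p (nat_lit 0x16000c) (nat_lit 0) (p (nat_lit 0x60592) (nat_lit 0) (p (nat_lit 0x48512) (nat_lit 0) (p (nat_lit 0x50392) (nat_lit 0) (p (nat_lit 0x38312) (nat_lit 0) (p (nat_lit 0x40212) (nat_lit 0) (p (nat_lit 0x28192) (nat_lit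 0) (p (nat_lit 0x30092) (nat_lit 0) (p (nat_lit 0x18012) (nat_lit 0) pn)))))))))))))))))))))) :=
  Cl.node (nat_lit 0x89) (nat_lit 2) (by decide +kernel) (ClAll.succ (ClAll.succ ClAll.zero s121) n143)

def n172 : Cl (O (nat_lit 1)) (R (nat_lit 6353))
    (p (nat_lit 0x101) (nat_lit 1) (p (nat_lit 0xc1) (nat_lit 1) (p (nat_lit 0x119) (nat_lit 1) (p (nat_lit 0xd1) (nat_lit 0) (p (nat_lit 0x81) (nat_lit 0) (p (nat_lit 0x41) (nat_lit 1) (p (nat_lit 0x8090787089a) (nat_lit 0) (p (nat_lit 0x7888706861a) (nat_lit 0) (p (nat_lit 0x800070686078a) (nat_lit 0) (p (nat_lit 0x800068605850a) (nat_lit 0) (p (nat_lit 0x705850682) (nat_lit 0) (p (nat_lit 0x685048402) (nat_lit 0) (p (nat_lit 0x160014) (nat_lit 0) (p (nat_lit 0x16000c) (nat_lit 0) (p (nat_lit 0x60592) (nat_lit 0) (p (nat_lit 0x48512) (nat_lit 0) (p (nat_lit 0x50392) (nat_lit 0) (p (nat_lit 0x38312) (nat_lit 0) (p (nat_lit 0x40212)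 (nat_lit 0) (p (nat_lit 0x28192) (nat_lit 0) (p (nat_lit 0x30092) (nat_lit 0) (p (nat_lit 0x18012) (nat_lit 0) pn)))))))))))))))))))))) :=
  Cl.node (nat_lit 0x89) (nat_lit 2) (by decide +kernel) (ClAll.succ (ClAll.succ ClAll.zero n144) n145)

def n173 : Cl (O (nat_lit 1)) (R (nat_lit 6353))
    (p (nat_lit 0x109) (nat_lit 1) (p (nat_lit 0x101) (nat_lit 0) (p (nat_lit 0x111) (nat_lit 0) (p (nat_lit 0xd1) (nat_lit 1) (p (nat_lit 0x81) (nat_lit 0) (p (nat_lit 0x41) (nat_lit 1) (p (nat_lit 0x8090787089a) (nat_lit 0) (p (nat_lit 0x7888706861a) (nat_lit 0) (p (nat_lit 0x800070686078a) (nat_lit 0) (p (nat_lit 0x800068605850a) (nat_lit 0) (p (nat_lit 0x705850682) (nat_lit 0) (p (nat_lit 0x685048402) (nat_lit 0) (p (nat_lit 0x160014) (nat_lit 0) (p (nat_lit 0x16000c) (nat_lit 0) (p (nat_lit 0x60592) (nat_lit 0) (p (nat_lit 0x48512) (nat_lit 0) (p (nat_lit 0x50392) (nat_lit 0) (p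 (nat_lit 0x38312) (nat_lit 0) (p (nat_lit 0x40212) (nat_lit 0) (p (nat_lit 0x28192) (nat_lit 0) (p (nat_lit 0x30092) (nat_lit 0) (p (nat_lit 0x18012) (nat_lit 0) pn)))))))))))))))))))))) :=
  Cl.node (nat_lit 0x89) (nat_lit 2) (by decide +kernel) (ClAll.succ (ClAll.succ ClAll.zero s142) n146)

def n174 : Cl (O (nat_lit 1)) (R (nat_lit 6353))
    (p (nat_lit 0x89) (nat_lit 1) (p (nat_lit 0x101) (nat_lit 1) (p (nat_lit 0x111) (nat_lit 0) (p (nat_lit 0xd1) (nat_lit 1) (p (nat_lit 0x81) (nat_lit 0) (p (nat_lit 0x41) (nat_lit 1) (p (nat_lit 0x8090787089a) (nat_lit 0) (p (nat_lit 0x7888706861a) (nat_lit 0) (p (nat_lit 0x800070686078a) (nat_lit 0) (p (nat_lit 0x800068605850a) (nat_lit 0) (p (nat_lit 0x705850682) (nat_lit 0) (p (nat_lit 0x685048402) (nat_lit 0) (p (nat_lit 0x160014) (nat_lit 0) (p (nat_lit 0x16000c) (nat_lit 0) (p (nat_lit 0x60592) (nat_lit 0) (p (nat_lit 0x48512)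 (nat_lit 0) (p (nat_lit 0x50392) (nat_lit 0) (p (nat_lit 0x38312) (nat_lit 0) (p (nat_lit 0x40212) (nat_lit 0) (p (nat_lit 0x28192) (nat_lit 0) (p (nat_lit 0x30092) (nat_lit 0) (p (nat_lit 0x18012) (nat_lit 0) pn)))))))))))))))))))))) :=
  Cl.node (nat_lit 0xc9) (nat_lit 2) (by decide +kernel) (ClAll.succ (ClAll.succ ClAll.zero n147) s157)

def n175 : Cl (O (nat_lit 1)) (R (nat_lit 6353))
    (p (nat_lit 0xc9) (nat_lit 1) (p (nat_lit 0x89) (nat_lit 1) (p (nat_lit 0x111) (nat_lit 1) (p (nat_lit 0xd1) (nat_lit 1) (p (nat_lit 0x81) (nat_lit 0) (p (nat_lit 0x41) (nat_lit 1) (p (nat_lit 0x8090787089a) (nat_lit 0) (p (nat_lit 0x7888706861a) (nat_lit 0) (p (nat_lit 0x800070686078a) (nat_lit 0) (p (nat_lit 0x800068605850a) (nat_lit 0) (p (nat_lit 0x705850682) (nat_lit 0) (p (nat_lit 0x685048402) (nat_lit 0) (p (nat_lit 0x160014) (nat_lit 0) (p (nat_lit 0x16000c) (nat_lit 0) (p (nat_lit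 0x60592) (nat_lit 0) (p (nat_lit 0x48512) (nat_lit 0) (p (nat_lit 0x50392) (nat_lit 0) (p (nat_lit 0x38312) (nat_lit 0) (p (nat_lit 0x40212) (nat_lit 0) (p (nat_lit 0x28192) (nat_lit 0) (p (nat_lit 0x30092) (nat_lit 0) (p (nat_lit 0x18012) (nat_lit 0) pn)))))))))))))))))))))) :=
  Cl.node (nat_lit 0x109) (nat_lit 2) (by decide +kernel) (ClAll.succ (ClAll.succ ClAll.zero n148) n149)

def n176 : Cl (O (nat_lit 1)) (R (nat_lit 6353))
    (p (nat_lit 0xc9) (nat_lit 0) (p (nat_lit 0x101) (nat_lit 1) (p (nat_lit 0x119) (nat_lit 0) (p (nat_lit 0xc1) (nat_lit 0) (p (nat_lit 0x81) (nat_lit 1) (p (nat_lit 0x41) (nat_lit 1) (p (nat_lit 0x8090787089a) (nat_lit 0) (p (nat_lit 0x7888706861a) (nat_lit 0) (p (nat_lit 0x800070686078a) (nat_lit 0) (p (nat_lit 0x800068605850a) (nat_lit 0) (p (nat_lit 0x705850682) (nat_lit 0) (p (nat_lit 0x685048402) (nat_lit 0) (p (nat_lit 0x160014) (nat_lit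 0) (p (nat_lit 0x16000c) (nat_lit 0) (p (nat_lit 0x60592) (nat_lit 0) (p (nat_lit 0x48512) (nat_lit 0) (p (nat_lit 0x50392) (nat_lit 0) (p (nat_lit 0x38312) (nat_lit 0) (p (nat_lit 0x40212) (nat_lit 0) (p (nat_lit 0x28192) (nat_lit 0) (p (nat_lit 0x30092) (nat_lit 0) (p (nat_lit 0x18012) (nat_lit 0) pn)))))))))))))))))))))) :=
  Cl.node (nat_lit 0xd1) (nat_lit 2) (by decide +kernel) (ClAll.succ (ClAll.succ ClAll.zero s167) s168)

def n177 : Cl (O (nat_lit 1)) (R (nat_lit 6353))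
    (p (nat_lit 0xd1) (nat_lit 1) (p (nat_lit 0xc9) (nat_lit 0) (p (nat_lit 0x119) (nat_lit 1) (p (nat_lit 0xc1) (nat_lit 0) (p (nat_lit 0x81) (nat_lit 1) (p (nat_lit 0x41) (nat_lit 1) (p (nat_lit 0x8090787089a) (nat_lit 0) (p (nat_lit 0x7888706861a) (nat_lit 0) (p (nat_lit 0x800070686078a) (nat_lit 0) (p (nat_lit 0x800068605850a) (nat_lit 0) (p (nat_lit 0x705850682) (nat_lit 0) (p (nat_lit 0x685048402) (nat_lit 0) (p (nat_lit 0x160014) (nat_lit 0) (p (nat_lit 0x16000c) (nat_lit 0) (p (nat_lit 0x60592) (nat_lit 0) (p (nat_lit 0x48512) (nat_lit 0) (p (nat_lit 0x50392) (nat_lit 0) (p (nat_lit 0x38312) (nat_lit 0) (p (nat_lit 0x40212) (nat_lit 0) (p (nat_lit 0x28192) (nat_lit 0) (p (nat_lit 0x30092) (nat_lit 0) (p (nat_lit 0x18012) (nat_lit 0) pn)))))))))))))))))))))) :=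
  Cl.node (nat_lit 0x111) (nat_lit 2) (by decide +kernel) (ClAll.succ (ClAll.succ ClAll.zero s171) n150)

def n178 : Cl (O (nat_lit 1)) (R (nat_lit 6353))
    (p (nat_lit 0x109) (nat_lit 0) (p (nat_lit 0xc9) (nat_lit 1) (p (nat_lit 0x119) (nat_lit 1) (p (nat_lit 0xc1) (nat_lit 0) (p (nat_lit 0x81) (nat_lit 1) (p (nat_lit 0x41) (nat_lit 1) (p (nat_lit 0x8090787089a) (nat_lit 0) (p (nat_lit 0x7888706861a) (nat_lit 0) (p (nat_lit 0x800070686078a) (nat_lit 0) (p (nat_lit 0x800068605850a) (nat_lit 0) (p (nat_lit 0x705850682) (nat_lit 0) (p (nat_lit 0x685048402) (nat_lit 0) (p (nat_lit 0x160014) (nat_lit 0) (p (nat_lit 0x16000c) (nat_lit 0) (p (nat_lit 0x60592) (nat_lit 0) (p (nat_lit 0x48512) (nat_lit 0) (p (nat_lit 0x50392) (nat_lit 0) (p (nat_lit 0x38312) (nat_lit 0) (p (nat_lit 0x40212) (nat_lit 0) (p (nat_lit 0x28192) (nat_lit 0) (p (nat_lit 0x30092) (nat_lit 0) (p (nat_lit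 0x18012) (nat_lit 0) pn)))))))))))))))))))))) :=
  Cl.node (nat_lit 0x111) (nat_lit 2) (by decide +kernel) (ClAll.succ (ClAll.succ ClAll.zero s175) n151)

def n179 : Cl (O (nat_lit 1)) (R (nat_lit 6353))
    (p (nat_lit 0x109) (nat_lit 1) (p (nat_lit 0xc9) (nat_lit 1) (p (nat_lit 0x119) (nat_lit 1) (p (nat_lit 0xc1) (nat_lit 0) (p (nat_lit 0x81) (nat_lit 1) (p (nat_lit 0x41) (nat_lit 1) (p (nat_lit 0x8090787089a) (nat_lit 0) (p (nat_lit 0x7888706861a) (nat_lit 0) (p (nat_lit 0x800070686078a) (nat_lit 0) (p (nat_lit 0x800068605850a) (nat_lit 0) (p (nat_lit 0x705850682) (nat_lit 0) (p (nat_lit 0x685048402) (nat_lit 0) (p (nat_lit 0x160014) (nat_lit 0) (p (nat_lit 0x16000c) (nat_lit 0) (p (nat_lit 0x60592) (nat_lit 0) (p (nat_lit 0x48512) (nat_lit 0) (p (nat_lit 0x50392) (nat_lit 0) (p (nat_lit 0x38312) (nat_lit 0) (p (nat_lit 0x40212) (nat_lit 0) (p (nat_lit 0x28192) (nat_lit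 0) (p (nat_lit 0x30092) (nat_lit 0) (p (nat_lit 0x18012) (nat_lit 0) pn)))))))))))))))))))))) :=
  Cl.node (nat_lit 0x200004) (nat_lit 2) (by decide +kernel) (ClAll.succ (ClAll.succ ClAll.zero n152) s185)

def n180 : Cl (O (nat_lit 1)) (R (nat_lit 6353))
    (p (nat_lit 0x101) (nat_lit 0) (p (nat_lit 0x119) (nat_lit 0) (p (nat_lit 0xd1) (nat_lit 0) (p (nat_lit 0x89) (nat_lit 0) (p (nat_lit 0x41) (nat_lit 0) (p (nat_lit 0x8090787089a) (nat_lit 0) (p (nat_lit 0x7888706861a) (nat_lit 0) (p (nat_lit 0x800070686078a) (nat_lit 0) (p (nat_lit 0x800068605850a) (nat_lit 0) (p (nat_lit 0x705850682) (nat_lit 0) (p (nat_lit 0x685048402) (nat_lit 0) (p (nat_lit 0x160014) (nat_lit 0) (p (nat_lit 0x16000c) (nat_lit 0) (p (nat_lit 0x60592) (nat_lit 0) (p (nat_lit 0x48512) (nat_lit 0) (p (nat_lit 0x50392) (nat_lit 0) (p (nat_lit 0x38312) (nat_lit 0) (p (nat_lit 0x40212) (nat_lit 0) (p (nat_lit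 0x28192) (nat_lit 0) (p (nat_lit 0x30092) (nat_lit 0) (p (nat_lit 0x18012) (nat_lit 0) pn))))))))))))))))))))) :=
  Cl.node (nat_lit 0x109) (nat_lit 2) (by decide +kernel) (ClAll.succ (ClAll.succ ClAll.zero s0) n153)

def n181 : Cl (O (nat_lit 1)) (R (nat_lit 6353))
    (p (nat_lit 0x101) (nat_lit 1) (p (nat_lit 0x119) (nat_lit 0) (p (nat_lit 0xd1) (nat_lit 0) (p (nat_lit 0x89) (nat_lit 0) (p (nat_lit 0x41) (nat_lit 0) (p (nat_lit 0x8090787089a) (nat_lit 0) (p (nat_lit 0x7888706861a) (nat_lit 0) (p (nat_lit 0x800070686078a) (nat_lit 0) (p (nat_lit 0x800068605850a) (nat_lit 0) (p (nat_lit 0x705850682) (nat_lit 0) (p (nat_lit 0x685048402) (nat_lit 0) (p (nat_lit 0x160014) (nat_lit 0) (p (nat_lit 0x16000c) (nat_lit 0) (p (nat_lit 0x60592) (nat_lit 0) (p (nat_lit 0x48512) (nat_lit 0) (p (nat_lit 0x50392) (nat_lit 0) (p (nat_lit 0x38312) (nat_lit 0) (p (nat_lit 0x40212) (nat_lit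 0) (p (nat_lit 0x28192) (nat_lit 0) (p (nat_lit 0x30092) (nat_lit 0) (p (nat_lit 0x18012) (nat_lit 0) pn))))))))))))))))))))) :=
  Cl.node (nat_lit 0x81) (nat_lit 2) (by decide +kernel) (ClAll.succ (ClAll.succ ClAll.zero n154) n155)

def n182 : Cl (O (nat_lit 1)) (R (nat_lit 6353))
    (p (nat_lit 0xc1) (nat_lit 0) (p (nat_lit 0x119) (nat_lit 1) (p (nat_lit 0xd1) (nat_lit 0) (p (nat_lit 0x89) (nat_lit 0) (p (nat_lit 0x41) (nat_lit 0) (p (nat_lit 0x8090787089a) (nat_lit 0) (p (nat_lit 0x7888706861a) (nat_lit 0) (p (nat_lit 0x800070686078a) (nat_lit 0) (p (nat_lit 0x800068605850a) (nat_lit 0) (p (nat_lit 0x705850682) (nat_lit 0) (p (nat_lit 0x685048402) (nat_lit 0) (p (nat_lit 0x160014) (nat_lit 0) (p (nat_lit 0x16000c) (nat_lit 0) (p (nat_lit 0x60592) (nat_lit 0) (p (nat_lit 0x48512) (nat_lit 0) (p (nat_lit 0x50392) (nat_lit 0) (p (nat_lit 0x38312) (nat_lit 0) (p (nat_lit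 0x40212) (nat_lit 0) (p (nat_lit 0x28192) (nat_lit 0) (p (nat_lit 0x30092) (nat_lit 0) (p (nat_lit 0x18012) (nat_lit 0) pn))))))))))))))))))))) :=
  Cl.node (nat_lit 0xc9) (nat_lit 2) (by decide +kernel) (ClAll.succ (ClAll.succ ClAll.zero s26) n156)

def n183 : Cl (O (nat_lit 1)) (R (nat_lit 6353))
    (p (nat_lit 0xc1) (nat_lit 1) (p (nat_lit 0x119) (nat_lit 1) (p (nat_lit 0xd1) (nat_lit 0) (p (nat_lit 0x89) (nat_lit 0) (p (nat_lit 0x41) (nat_lit 0) (p (nat_lit 0x8090787089a) (nat_lit 0) (p (nat_lit 0x7888706861a) (nat_lit 0) (p (nat_lit 0x800070686078a) (nat_lit 0) (p (nat_lit 0x800068605850a) (nat_lit 0) (p (nat_lit 0x705850682) (nat_lit 0) (p (nat_lit 0x685048402) (nat_lit 0) (p (nat_lit 0x160014) (nat_lit 0) (p (nat_lit 0x16000c) (nat_lit 0) (p (nat_lit 0x60592) (nat_lit 0) (p (nat_lit 0x48512) (nat_lit 0) (p (nat_lit 0x50392) (nat_lit 0) (p (nat_lit 0x38312) (nat_lit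 0) (p (nat_lit 0x40212) (nat_lit 0) (p (nat_lit 0x28192) (nat_lit 0) (p (nat_lit 0x30092) (nat_lit 0) (p (nat_lit 0x18012) (nat_lit 0) pn))))))))))))))))))))) :=
  Cl.node (nat_lit 0x81) (nat_lit 2) (by decide +kernel) (ClAll.succ (ClAll.succ ClAll.zero n157) n158)

def n184 : Cl (O (nat_lit 1)) (R (nat_lit 6353))
    (p (nat_lit 0x101) (nat_lit 1) (p (nat_lit 0x111) (nat_lit 0) (p (nat_lit 0xd1) (nat_lit 1) (p (nat_lit 0x89) (nat_lit 0) (p (nat_lit 0x41) (nat_lit 0) (p (nat_lit 0x8090787089a) (nat_lit 0) (p (nat_lit 0x7888706861a) (nat_lit 0) (p (nat_lit 0x800070686078a) (nat_lit 0) (p (nat_lit 0x800068605850a) (nat_lit 0) (p (nat_lit 0x705850682) (nat_lit 0) (p (nat_lit 0x685048402) (nat_lit 0) (p (nat_lit 0x160014) (nat_lit 0) (p (nat_lit 0x16000c) (nat_lit 0) (p (nat_lit 0x60592) (nat_lit 0) (p (nat_lit 0x48512) (nat_lit 0) (p (nat_lit 0x50392) (nat_lit 0) (p (nat_lit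 0x38312) (nat_lit 0) (p (nat_lit 0x40212) (nat_lit 0) (p (nat_lit 0x28192) (nat_lit 0) (p (nat_lit 0x30092) (nat_lit 0) (p (nat_lit 0x18012) (nat_lit 0) pn))))))))))))))))))))) :=
  Cl.node (nat_lit 0x81) (nat_lit 2) (by decide +kernel) (ClAll.succ (ClAll.succ ClAll.zero n159) n160)

def n185 : Cl (O (nat_lit 1)) (R (nat_lit 6353))
    (p (nat_lit 0x81) (nat_lit 1) (p (nat_lit 0x111) (nat_lit 1) (p (nat_lit 0xd1) (nat_lit 1) (p (nat_lit 0x89) (nat_lit 0) (p (nat_lit 0x41) (nat_lit 0) (p (nat_lit 0x8090787089a) (nat_lit 0) (p (nat_lit 0x7888706861a) (nat_lit 0) (p (nat_lit 0x800070686078a) (nat_lit 0) (p (nat_lit 0x800068605850a) (nat_lit 0) (p (nat_lit 0x705850682) (nat_lit 0) (p (nat_lit 0x685048402) (nat_lit 0) (p (nat_lit 0x160014) (nat_lit 0) (p (nat_lit 0x16000c) (nat_lit 0) (p (nat_lit 0x60592) (nat_lit 0) (p (nat_lit 0x48512) (nat_lit 0) (p (nat_lit 0x50392) (nat_lit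 0) (p (nat_lit 0x38312) (nat_lit 0) (p (nat_lit 0x40212) (nat_lit 0) (p (nat_lit 0x28192) (nat_lit 0) (p (nat_lit 0x30092) (nat_lit 0) (p (nat_lit 0x18012) (nat_lit 0) pn))))))))))))))))))))) :=
  Cl.node (nat_lit 0xc1) (nat_lit 2) (by decide +kernel) (ClAll.succ (ClAll.succ ClAll.zero s59) n161)

def n186 : Cl (O (nat_lit 1)) (R (nat_lit 6353))
    (p (nat_lit 0x101) (nat_lit 0) (p (nat_lit 0x119) (nat_lit 0) (p (nat_lit 0xc9) (nat_lit 0) (p (nat_lit 0x89) (nat_lit 1) (p (nat_lit 0x41) (nat_lit 0) (p (nat_lit 0x8090787089a) (nat_lit 0) (p (nat_lit 0x7888706861a) (nat_lit 0) (p (nat_lit 0x800070686078a) (nat_lit 0) (p (nat_lit 0x800068605850a) (nat_lit 0) (p (nat_lit 0x705850682) (nat_lit 0) (p (nat_lit 0x685048402) (nat_lit 0) (p (nat_lit 0x160014) (nat_lit 0) (p (nat_lit 0x16000c) (nat_lit 0) (p (nat_lit 0x60592) (nat_lit 0) (p (nat_lit 0x48512) (nat_lit 0) (p (nat_lit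 0x50392) (nat_lit 0) (p (nat_lit 0x38312) (nat_lit 0) (p (nat_lit 0x40212) (nat_lit 0) (p (nat_lit 0x28192) (nat_lit 0) (p (nat_lit 0x30092) (nat_lit 0) (p (nat_lit 0x18012) (nat_lit 0) pn))))))))))))))))))))) :=
  Cl.node (nat_lit 0x109) (nat_lit 2) (by decide +kernel) (ClAll.succ (ClAll.succ ClAll.zero s63) n162)

def n187 : Cl (O (nat_lit 1)) (R (nat_lit 6353))
    (p (nat_lit 0x101) (nat_lit 1) (p (nat_lit 0x119) (nat_lit 0) (p (nat_lit 0xc9) (nat_lit 0) (p (nat_lit 0x89) (nat_lit 1) (p (nat_lit 0x41) (nat_lit 0) (p (nat_lit 0x8090787089a) (nat_lit 0) (p (nat_lit 0x7888706861a) (nat_lit 0) (p (nat_lit 0x800070686078a) (nat_lit 0) (p (nat_lit 0x800068605850a) (nat_lit 0) (p (nat_lit 0x705850682) (nat_lit 0) (p (nat_lit 0x685048402) (nat_lit 0) (p (nat_lit 0x160014) (nat_lit 0) (p (nat_lit 0x16000c) (nat_lit 0) (p (nat_lit 0x60592) (nat_lit 0) (p (nat_lit 0x48512) (nat_lit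 0) (p (nat_lit 0x50392) (nat_lit 0) (p (nat_lit 0x38312) (nat_lit 0) (p (nat_lit 0x40212) (nat_lit 0) (p (nat_lit 0x28192) (nat_lit 0) (p (nat_lit 0x30092) (nat_lit 0) (p (nat_lit 0x18012) (nat_lit 0) pn))))))))))))))))))))) :=
  Cl.node (nat_lit 0xc1) (nat_lit 2) (by decide +kernel) (ClAll.succ (ClAll.succ ClAll.zero n163) s70)

def n188 : Cl (O (nat_lit 1)) (R (nat_lit 6353))
    (p (nat_lit 0xc1) (nat_lit 0) (p (nat_lit 0x119) (nat_lit 1) (p (nat_lit 0xc9) (nat_lit 0) (p (nat_lit 0x89) (nat_lit 1) (p (nat_lit 0x41) (nat_lit 0) (p (nat_lit 0x8090787089a) (nat_lit 0) (p (nat_lit 0x7888706861a) (nat_lit 0) (p (nat_lit 0x800070686078a) (nat_lit 0) (p (nat_lit 0x800068605850a) (nat_lit 0) (p (nat_lit 0x705850682) (nat_lit 0) (p (nat_lit 0x685048402) (nat_lit 0) (p (nat_lit 0x160014) (nat_lit 0) (p (nat_lit 0x16000c) (nat_lit 0) (p (nat_lit 0x60592) (nat_lit 0) (p (nat_lit 0x48512)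 (nat_lit 0) (p (nat_lit 0x50392) (nat_lit 0) (p (nat_lit 0x38312) (nat_lit 0) (p (nat_lit 0x40212) (nat_lit 0) (p (nat_lit 0x28192) (nat_lit 0) (p (nat_lit 0x30092) (nat_lit 0) (p (nat_lit 0x18012) (nat_lit 0) pn))))))))))))))))))))) :=
  Cl.node (nat_lit 0xd1) (nat_lit 2) (by decide +kernel) (ClAll.succ (ClAll.succ ClAll.zero s71) n164)

def n189 : Cl (O (nat_lit 1)) (R (nat_lit 6353))
    (p (nat_lit 0xc1) (nat_lit 1) (p (nat_lit 0x119) (nat_lit 1) (p (nat_lit 0xc9) (nat_lit 0) (p (nat_lit 0x89) (nat_lit 1) (p (nat_lit 0x41) (nat_lit 0) (p (nat_lit 0x8090787089a) (nat_lit 0) (p (nat_lit 0x7888706861a) (nat_lit 0) (p (nat_lit 0x800070686078a) (nat_lit 0) (p (nat_lit 0x800068605850a) (nat_lit 0) (p (nat_lit 0x705850682) (nat_lit 0) (p (nat_lit 0x685048402) (nat_lit 0) (p (nat_lit 0x160014) (nat_lit 0) (p (nat_lit 0x16000c) (nat_lit 0) (p (nat_lit 0x60592) (nat_lit 0) (p (nat_lit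 0x48512) (nat_lit 0) (p (nat_lit 0x50392) (nat_lit 0) (p (nat_lit 0x38312) (nat_lit 0) (p (nat_lit 0x40212) (nat_lit 0) (p (nat_lit 0x28192) (nat_lit 0) (p (nat_lit 0x30092) (nat_lit 0) (p (nat_lit 0x18012) (nat_lit 0) pn))))))))))))))))))))) :=
  Cl.node (nat_lit 0x101) (nat_lit 2) (by decide +kernel) (ClAll.succ (ClAll.succ ClAll.zero n165) n166)

def n190 : Cl (O (nat_lit 1)) (R (nat_lit 6353))
    (p (nat_lit 0x101) (nat_lit 0) (p (nat_lit 0x119) (nat_lit 0) (p (nat_lit 0xd1) (nat_lit 0) (p (nat_lit 0x81) (nat_lit 0) (p (nat_lit 0x41) (nat_lit 1) (p (nat_lit 0x8090787089a) (nat_lit 0) (p (nat_lit 0x7888706861a) (nat_lit 0) (p (nat_lit 0x800070686078a) (nat_lit 0) (p (nat_lit 0x800068605850a) (nat_lit 0) (p (nat_lit 0x705850682) (nat_lit 0) (p (nat_lit 0x685048402) (nat_lit 0) (p (nat_lit 0x160014) (nat_lit 0) (p (nat_lit 0x16000c) (nat_lit 0) (p (nat_lit 0x60592) (nat_lit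 0) (p (nat_lit 0x48512) (nat_lit 0) (p (nat_lit 0x50392) (nat_lit 0) (p (nat_lit 0x38312) (nat_lit 0) (p (nat_lit 0x40212) (nat_lit 0) (p (nat_lit 0x28192) (nat_lit 0) (p (nat_lit 0x30092) (nat_lit 0) (p (nat_lit 0x18012) (nat_lit 0) pn))))))))))))))))))))) :=
  Cl.node (nat_lit 0x109) (nat_lit 2) (by decide +kernel) (ClAll.succ (ClAll.succ ClAll.zero s86) n167)

def n191 : Cl (O (nat_lit 1)) (R (nat_lit 6353))
    (p (nat_lit 0x101) (nat_lit 1) (p (nat_lit 0x119) (nat_lit 0) (p (nat_lit 0xd1) (nat_lit 0) (p (nat_lit 0x81) (nat_lit 0) (p (nat_lit 0x41) (nat_lit 1) (p (nat_lit 0x8090787089a) (nat_lit 0) (p (nat_lit 0x7888706861a) (nat_lit 0) (p (nat_lit 0x800070686078a) (nat_lit 0) (p (nat_lit 0x800068605850a) (nat_lit 0) (p (nat_lit 0x705850682) (nat_lit 0) (p (nat_lit 0x685048402) (nat_lit 0) (p (nat_lit 0x160014) (nat_lit 0) (p (nat_lit 0x16000c) (nat_lit 0) (p (nat_lit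 0x60592) (nat_lit 0) (p (nat_lit 0x48512) (nat_lit 0) (p (nat_lit 0x50392) (nat_lit 0) (p (nat_lit 0x38312) (nat_lit 0) (p (nat_lit 0x40212) (nat_lit 0) (p (nat_lit 0x28192) (nat_lit 0) (p (nat_lit 0x30092) (nat_lit 0) (p (nat_lit 0x18012) (nat_lit 0) pn))))))))))))))))))))) :=
  Cl.node (nat_lit 0xc1) (nat_lit 2) (by decide +kernel) (ClAll.succ (ClAll.succ ClAll.zero n168) n169)

def n192 : Cl (O (nat_lit 1)) (R (nat_lit 6353))
    (p (nat_lit 0xc1) (nat_lit 0) (p (nat_lit 0x119) (nat_lit 1) (p (nat_lit 0xd1) (nat_lit 0) (p (nat_lit 0x81) (nat_lit 0) (p (nat_lit 0x41) (nat_lit 1) (p (nat_lit 0x8090787089a) (nat_lit 0) (p (nat_lit 0x7888706861a) (nat_lit 0) (p (nat_lit 0x800070686078a) (nat_lit 0) (p (nat_lit 0x800068605850a) (nat_lit 0) (p (nat_lit 0x705850682) (nat_lit 0) (p (nat_lit 0x685048402) (nat_lit 0) (p (nat_lit 0x160014) (nat_lit 0) (p (nat_lit 0x16000c) (nat_lit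 0) (p (nat_lit 0x60592) (nat_lit 0) (p (nat_lit 0x48512) (nat_lit 0) (p (nat_lit 0x50392) (nat_lit 0) (p (nat_lit 0x38312) (nat_lit 0) (p (nat_lit 0x40212) (nat_lit 0) (p (nat_lit 0x28192) (nat_lit 0) (p (nat_lit 0x30092) (nat_lit 0) (p (nat_lit 0x18012) (nat_lit 0) pn))))))))))))))))))))) :=
  Cl.node (nat_lit 0xc9) (nat_lit 2) (by decide +kernel) (ClAll.succ (ClAll.succ ClAll.zero s110) n170)

def n193 : Cl (O (nat_lit 1)) (R (nat_lit 6353))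
    (p (nat_lit 0xc1) (nat_lit 1) (p (nat_lit 0x119) (nat_lit 1) (p (nat_lit 0xd1) (nat_lit 0) (p (nat_lit 0x81) (nat_lit 0) (p (nat_lit 0x41) (nat_lit 1) (p (nat_lit 0x8090787089a) (nat_lit 0) (p (nat_lit 0x7888706861a) (nat_lit 0) (p (nat_lit 0x800070686078a) (nat_lit 0) (p (nat_lit 0x800068605850a) (nat_lit 0) (p (nat_lit 0x705850682) (nat_lit 0) (p (nat_lit 0x685048402) (nat_lit 0) (p (nat_lit 0x160014) (nat_lit 0) (p (nat_lit 0x16000c) (nat_lit 0) (p (nat_lit 0x60592) (nat_lit 0) (p (nat_lit 0x48512) (nat_lit 0) (p (nat_lit 0x50392) (nat_lit 0) (p (nat_lit 0x38312) (nat_lit 0) (p (nat_lit 0x40212) (nat_lit 0) (p (nat_lit 0x28192) (nat_lit 0) (p (nat_lit 0x30092) (nat_lit 0) (p (nat_lit 0x18012) (nat_lit 0) pn))))))))))))))))))))) :=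
  Cl.node (nat_lit 0x101) (nat_lit 2) (by decide +kernel) (ClAll.succ (ClAll.succ ClAll.zero n171) n172)

def n194 : Cl (O (nat_lit 1)) (R (nat_lit 6353))
    (p (nat_lit 0x101) (nat_lit 0) (p (nat_lit 0x111) (nat_lit 0) (p (nat_lit 0xd1) (nat_lit 1) (p (nat_lit 0x81) (nat_lit 0) (p (nat_lit 0x41) (nat_lit 1) (p (nat_lit 0x8090787089a) (nat_lit 0) (p (nat_lit 0x7888706861a) (nat_lit 0) (p (nat_lit 0x800070686078a) (nat_lit 0) (p (nat_lit 0x800068605850a) (nat_lit 0) (p (nat_lit 0x705850682) (nat_lit 0) (p (nat_lit 0x685048402) (nat_lit 0) (p (nat_lit 0x160014) (nat_lit 0) (p (nat_lit 0x16000c) (nat_lit 0) (p (nat_lit 0x60592) (nat_lit 0) (p (nat_lit 0x48512) (nat_lit 0) (p (nat_lit 0x50392) (nat_lit 0) (p (nat_lit 0x38312) (nat_lit 0) (p (nat_lit 0x40212) (nat_lit 0) (p (nat_lit 0x28192) (nat_lit 0) (p (nat_lit 0x30092) (nat_lit 0) (p (nat_lit 0x18012) (nat_lit 0) pn)))))))))))))))))))))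 :=
  Cl.node (nat_lit 0x109) (nat_lit 2) (by decide +kernel) (ClAll.succ (ClAll.succ ClAll.zero s141) n173)

def n195 : Cl (O (nat_lit 1)) (R (nat_lit 6353))
    (p (nat_lit 0x101) (nat_lit 1) (p (nat_lit 0x111) (nat_lit 0) (p (nat_lit 0xd1) (nat_lit 1) (p (nat_lit 0x81) (nat_lit 0) (p (nat_lit 0x41) (nat_lit 1) (p (nat_lit 0x8090787089a) (nat_lit 0) (p (nat_lit 0x7888706861a) (nat_lit 0) (p (nat_lit 0x800070686078a) (nat_lit 0) (p (nat_lit 0x800068605850a) (nat_lit 0) (p (nat_lit 0x705850682) (nat_lit 0) (p (nat_lit 0x685048402) (nat_lit 0) (p (nat_lit 0x160014) (nat_lit 0) (p (nat_lit 0x16000c) (nat_lit 0) (p (nat_lit 0x60592) (nat_lit 0) (p (nat_lit 0x48512) (nat_lit 0) (p (nat_lit 0x50392) (nat_lit 0) (p (nat_lit 0x38312) (nat_lit 0) (p (nat_lit 0x40212) (nat_lit 0) (p (nat_lit 0x28192) (nat_lit 0) (p (nat_lit 0x30092) (nat_lit 0) (p (nat_lit 0x18012) (nat_lit 0) pn)))))))))))))))))))))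 :=
  Cl.node (nat_lit 0x89) (nat_lit 2) (by decide +kernel) (ClAll.succ (ClAll.succ ClAll.zero s148) n174)

def n196 : Cl (O (nat_lit 1)) (R (nat_lit 6353))
    (p (nat_lit 0x89) (nat_lit 1) (p (nat_lit 0x111) (nat_lit 1) (p (nat_lit 0xd1) (nat_lit 1) (p (nat_lit 0x81) (nat_lit 0) (p (nat_lit 0x41) (nat_lit 1) (p (nat_lit 0x8090787089a) (nat_lit 0) (p (nat_lit 0x7888706861a) (nat_lit 0) (p (nat_lit 0x800070686078a) (nat_lit 0) (p (nat_lit 0x800068605850a) (nat_lit 0) (p (nat_lit 0x705850682) (nat_lit 0) (p (nat_lit 0x685048402) (nat_lit 0) (p (nat_lit 0x160014) (nat_lit 0) (p (nat_lit 0x16000c) (nat_lit 0) (p (nat_lit 0x60592) (nat_lit 0) (p (nat_lit 0x48512) (nat_lit 0) (p (nat_lit 0x50392) (nat_lit 0) (p (nat_lit 0x38312) (nat_lit 0) (p (nat_lit 0x40212) (nat_lit 0) (p (nat_lit 0x28192) (nat_lit 0) (p (nat_lit 0x30092) (nat_lit 0) (p (nat_lit 0x18012) (nat_lit 0) pn)))))))))))))))))))))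 :=
  Cl.node (nat_lit 0xc9) (nat_lit 2) (by decide +kernel) (ClAll.succ (ClAll.succ ClAll.zero s159) n175)

def n197 : Cl (O (nat_lit 1)) (R (nat_lit 6353))
    (p (nat_lit 0x101) (nat_lit 0) (p (nat_lit 0x119) (nat_lit 0) (p (nat_lit 0xc1) (nat_lit 0) (p (nat_lit 0x81) (nat_lit 1) (p (nat_lit 0x41) (nat_lit 1) (p (nat_lit 0x8090787089a) (nat_lit 0) (p (nat_lit 0x7888706861a) (nat_lit 0) (p (nat_lit 0x800070686078a) (nat_lit 0) (p (nat_lit 0x800068605850a) (nat_lit 0) (p (nat_lit 0x705850682) (nat_lit 0) (p (nat_lit 0x685048402) (nat_lit 0) (p (nat_lit 0x160014) (nat_lit 0) (p (nat_lit 0x16000c) (nat_lit 0) (p (nat_lit 0x60592) (nat_lit 0) (p (nat_lit 0x48512) (nat_lit 0) (p (nat_lit 0x50392) (nat_lit 0) (p (nat_lit 0x38312) (nat_lit 0) (p (nat_lit 0x40212) (nat_lit 0) (p (nat_lit 0x28192) (nat_lit 0) (p (nat_lit 0x30092) (nat_lit 0) (p (nat_lit 0x18012) (nat_lit 0) pn)))))))))))))))))))))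 :=
  Cl.node (nat_lit 0x109) (nat_lit 2) (by decide +kernel) (ClAll.succ (ClAll.succ ClAll.zero s165) s166)

def n198 : Cl (O (nat_lit 1)) (R (nat_lit 6353))
    (p (nat_lit 0x101) (nat_lit 1) (p (nat_lit 0x119) (nat_lit 0) (p (nat_lit 0xc1) (nat_lit 0) (p (nat_lit 0x81) (nat_lit 1) (p (nat_lit 0x41) (nat_lit 1) (p (nat_lit 0x8090787089a) (nat_lit 0) (p (nat_lit 0x7888706861a) (nat_lit 0) (p (nat_lit 0x800070686078a) (nat_lit 0) (p (nat_lit 0x800068605850a) (nat_lit 0) (p (nat_lit 0x705850682) (nat_lit 0) (p (nat_lit 0x685048402) (nat_lit 0) (p (nat_lit 0x160014) (nat_lit 0) (p (nat_lit 0x16000c) (nat_lit 0) (p (nat_lit 0x60592) (nat_lit 0) (p (nat_lit 0x48512) (nat_lit 0) (p (nat_lit 0x50392) (nat_lit 0) (p (nat_lit 0x38312) (nat_lit 0) (p (nat_lit 0x40212) (nat_lit 0) (p (nat_lit 0x28192) (nat_lit 0) (p (nat_lit 0x30092) (nat_lit 0) (p (nat_lit 0x18012) (nat_lit 0) pn)))))))))))))))))))))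 :=
  Cl.node (nat_lit 0xc9) (nat_lit 2) (by decide +kernel) (ClAll.succ (ClAll.succ ClAll.zero n176) s169)

def n199 : Cl (O (nat_lit 1)) (R (nat_lit 6353))
    (p (nat_lit 0xc9) (nat_lit 0) (p (nat_lit 0x119) (nat_lit 1) (p (nat_lit 0xc1) (nat_lit 0) (p (nat_lit 0x81) (nat_lit 1) (p (nat_lit 0x41) (nat_lit 1) (p (nat_lit 0x8090787089a) (nat_lit 0) (p (nat_lit 0x7888706861a) (nat_lit 0) (p (nat_lit 0x800070686078a) (nat_lit 0) (p (nat_lit 0x800068605850a) (nat_lit 0) (p (nat_lit 0x705850682) (nat_lit 0) (p (nat_lit 0x685048402) (nat_lit 0) (p (nat_lit 0x160014) (nat_lit 0) (p (nat_lit 0x16000c) (nat_lit 0) (p (nat_lit 0x60592) (nat_lit 0) (p (nat_lit 0x48512) (nat_lit 0) (p (nat_lit 0x50392) (nat_lit 0) (p (nat_lit 0x38312) (nat_lit 0) (p (nat_lit 0x40212) (nat_lit 0) (p (nat_lit 0x28192) (nat_lit 0) (p (nat_lit 0x30092) (nat_lit 0) (p (nat_lit 0x18012) (nat_lit 0) pn)))))))))))))))))))))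 :=
  Cl.node (nat_lit 0xd1) (nat_lit 2) (by decide +kernel) (ClAll.succ (ClAll.succ ClAll.zero s170) n177)

def n200 : Cl (O (nat_lit 1)) (R (nat_lit 6353))
    (p (nat_lit 0xc9) (nat_lit 1) (p (nat_lit 0x119) (nat_lit 1) (p (nat_lit 0xc1) (nat_lit 0) (p (nat_lit 0x81) (nat_lit 1) (p (nat_lit 0x41) (nat_lit 1) (p (nat_lit 0x8090787089a) (nat_lit 0) (p (nat_lit 0x7888706861a) (nat_lit 0) (p (nat_lit 0x800070686078a) (nat_lit 0) (p (nat_lit 0x800068605850a) (nat_lit 0) (p (nat_lit 0x705850682) (nat_lit 0) (p (nat_lit 0x685048402) (nat_lit 0) (p (nat_lit 0x160014) (nat_lit 0) (p (nat_lit 0x16000c) (nat_lit 0) (p (nat_lit 0x60592) (nat_lit 0) (p (nat_lit 0x48512) (nat_lit 0) (p (nat_lit 0x50392) (nat_lit 0) (p (nat_lit 0x38312) (nat_lit 0) (p (nat_lit 0x40212) (nat_lit 0) (p (nat_lit 0x28192) (nat_lit 0) (p (nat_lit 0x30092) (nat_lit 0) (p (nat_lit 0x18012) (nat_lit 0) pn)))))))))))))))))))))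 :=
  Cl.node (nat_lit 0x109) (nat_lit 2) (by decide +kernel) (ClAll.succ (ClAll.succ ClAll.zero n178) n179)

def n201 : Cl (O (nat_lit 1)) (R (nat_lit 6353))
    (p (nat_lit 0x119) (nat_lit 0) (p (nat_lit 0xd1) (nat_lit 0) (p (nat_lit 0x89) (nat_lit 0) (p (nat_lit 0x41) (nat_lit 0) (p (nat_lit 0x8090787089a) (nat_lit 0) (p (nat_lit 0x7888706861a) (nat_lit 0) (p (nat_lit 0x800070686078a) (nat_lit 0) (p (nat_lit 0x800068605850a) (nat_lit 0) (p (nat_lit 0x705850682) (nat_lit 0) (p (nat_lit 0x685048402) (nat_lit 0) (p (nat_lit 0x160014) (nat_lit 0) (p (nat_lit 0x16000c) (nat_lit 0) (p (nat_lit 0x60592) (nat_lit 0) (p (nat_lit 0x48512) (nat_lit 0) (p (nat_lit 0x50392) (nat_lit 0) (p (nat_lit 0x38312) (nat_lit 0) (p (nat_lit 0x40212) (nat_lit 0) (p (nat_lit 0x28192) (nat_lit 0) (p (nat_lit 0x30092) (nat_lit 0) (p (nat_lit 0x18012) (nat_lit 0) pn)))))))))))))))))))) :=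
  Cl.node (nat_lit 0x101) (nat_lit 2) (by decide +kernel) (ClAll.succ (ClAll.succ ClAll.zero n180) n181)

def n202 : Cl (O (nat_lit 1)) (R (nat_lit 6353))
    (p (nat_lit 0x119) (nat_lit 1) (p (nat_lit 0xd1) (nat_lit 0) (p (nat_lit 0x89) (nat_lit 0) (p (nat_lit 0x41) (nat_lit 0) (p (nat_lit 0x8090787089a) (nat_lit 0) (p (nat_lit 0x7888706861a) (nat_lit 0) (p (nat_lit 0x800070686078a) (nat_lit 0) (p (nat_lit 0x800068605850a) (nat_lit 0) (p (nat_lit 0x705850682) (nat_lit 0) (p (nat_lit 0x685048402) (nat_lit 0) (p (nat_lit 0x160014) (nat_lit 0) (p (nat_lit 0x16000c) (nat_lit 0) (p (nat_lit 0x60592) (nat_lit 0) (p (nat_lit 0x48512) (nat_lit 0) (p (nat_lit 0x50392) (nat_lit 0) (p (nat_lit 0x38312) (nat_lit 0) (p (nat_lit 0x40212) (nat_lit 0) (p (nat_lit 0x28192) (nat_lit 0) (p (nat_lit 0x30092) (nat_lit 0) (p (nat_lit 0x18012) (nat_lit 0) pn)))))))))))))))))))) :=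
  Cl.node (nat_lit 0xc1) (nat_lit 2) (by decide +kernel) (ClAll.succ (ClAll.succ ClAll.zero n182) n183)

def n203 : Cl (O (nat_lit 1)) (R (nat_lit 6353))
    (p (nat_lit 0x111) (nat_lit 0) (p (nat_lit 0xd1) (nat_lit 1) (p (nat_lit 0x89) (nat_lit 0) (p (nat_lit 0x41) (nat_lit 0) (p (nat_lit 0x8090787089a) (nat_lit 0) (p (nat_lit 0x7888706861a) (nat_lit 0) (p (nat_lit 0x800070686078a) (nat_lit 0) (p (nat_lit 0x800068605850a) (nat_lit 0) (p (nat_lit 0x705850682) (nat_lit 0) (p (nat_lit 0x685048402) (nat_lit 0) (p (nat_lit 0x160014) (nat_lit 0) (p (nat_lit 0x16000c) (nat_lit 0) (p (nat_lit 0x60592) (nat_lit 0) (p (nat_lit 0x48512) (nat_lit 0) (p (nat_lit 0x50392) (nat_lit 0) (p (nat_lit 0x38312) (nat_lit 0) (p (nat_lit 0x40212) (nat_lit 0) (p (nat_lit 0x28192) (nat_lit 0) (p (nat_lit 0x30092) (nat_lit 0) (p (nat_lit 0x18012) (nat_lit 0) pn)))))))))))))))))))) :=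
  Cl.node (nat_lit 0x101) (nat_lit 2) (by decide +kernel) (ClAll.succ (ClAll.succ ClAll.zero s49) n184)

def n204 : Cl (O (nat_lit 1)) (R (nat_lit 6353))
    (p (nat_lit 0x111) (nat_lit 1) (p (nat_lit 0xd1) (nat_lit 1) (p (nat_lit 0x89) (nat_lit 0) (p (nat_lit 0x41) (nat_lit 0) (p (nat_lit 0x8090787089a) (nat_lit 0) (p (nat_lit 0x7888706861a) (nat_lit 0) (p (nat_lit 0x800070686078a) (nat_lit 0) (p (nat_lit 0x800068605850a) (nat_lit 0) (p (nat_lit 0x705850682) (nat_lit 0) (p (nat_lit 0x685048402) (nat_lit 0) (p (nat_lit 0x160014) (nat_lit 0) (p (nat_lit 0x16000c) (nat_lit 0) (p (nat_lit 0x60592) (nat_lit 0) (p (nat_lit 0x48512) (nat_lit 0) (p (nat_lit 0x50392) (nat_lit 0) (p (nat_lit 0x38312) (nat_lit 0) (p (nat_lit 0x40212) (nat_lit 0) (p (nat_lit 0x28192) (nat_lit 0) (p (nat_lit 0x30092) (nat_lit 0) (p (nat_lit 0x18012) (nat_lit 0) pn)))))))))))))))))))) :=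
  Cl.node (nat_lit 0x81) (nat_lit 2) (by decide +kernel) (ClAll.succ (ClAll.succ ClAll.zero s58) n185)

def n205 : Cl (O (nat_lit 1)) (R (nat_lit 6353))
    (p (nat_lit 0x119) (nat_lit 0) (p (nat_lit 0xc9) (nat_lit 0) (p (nat_lit 0x89) (nat_lit 1) (p (nat_lit 0x41) (nat_lit 0) (p (nat_lit 0x8090787089a) (nat_lit 0) (p (nat_lit 0x7888706861a) (nat_lit 0) (p (nat_lit 0x800070686078a) (nat_lit 0) (p (nat_lit 0x800068605850a) (nat_lit 0) (p (nat_lit 0x705850682) (nat_lit 0) (p (nat_lit 0x685048402) (nat_lit 0) (p (nat_lit 0x160014) (nat_lit 0) (p (nat_lit 0x16000c) (nat_lit 0) (p (nat_lit 0x60592) (nat_lit 0) (p (nat_lit 0x48512) (nat_lit 0) (p (nat_lit 0x50392) (nat_lit 0) (p (nat_lit 0x38312) (nat_lit 0) (p (nat_lit 0x40212) (nat_lit 0) (p (nat_lit 0x28192) (nat_lit 0) (p (nat_lit 0x30092) (nat_lit 0) (p (nat_lit 0x18012) (nat_lit 0) pn)))))))))))))))))))) :=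
  Cl.node (nat_lit 0x101) (nat_lit 2) (by decide +kernel) (ClAll.succ (ClAll.succ ClAll.zero n186) n187)

def n206 : Cl (O (nat_lit 1)) (R (nat_lit 6353))
    (p (nat_lit 0x119) (nat_lit 1) (p (nat_lit 0xc9) (nat_lit 0) (p (nat_lit 0x89) (nat_lit 1) (p (nat_lit 0x41) (nat_lit 0) (p (nat_lit 0x8090787089a) (nat_lit 0) (p (nat_lit 0x7888706861a) (nat_lit 0) (p (nat_lit 0x800070686078a) (nat_lit 0) (p (nat_lit 0x800068605850a) (nat_lit 0) (p (nat_lit 0x705850682) (nat_lit 0) (p (nat_lit 0x685048402) (nat_lit 0) (p (nat_lit 0x160014) (nat_lit 0) (p (nat_lit 0x16000c) (nat_lit 0) (p (nat_lit 0x60592) (nat_lit 0) (p (nat_lit 0x48512) (nat_lit 0) (p (nat_lit 0x50392) (nat_lit 0) (p (nat_lit 0x38312) (nat_lit 0) (p (nat_lit 0x40212) (nat_lit 0) (p (nat_lit 0x28192) (nat_lit 0) (p (nat_lit 0x30092) (nat_lit 0) (p (nat_lit 0x18012) (nat_lit 0) pn)))))))))))))))))))) :=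
  Cl.node (nat_lit 0xc1) (nat_lit 2) (by decide +kernel) (ClAll.succ (ClAll.succ ClAll.zero n188) n189)

def n207 : Cl (O (nat_lit 1)) (R (nat_lit 6353))
    (p (nat_lit 0x119) (nat_lit 0) (p (nat_lit 0xd1) (nat_lit 0) (p (nat_lit 0x81) (nat_lit 0) (p (nat_lit 0x41) (nat_lit 1) (p (nat_lit 0x8090787089a) (nat_lit 0) (p (nat_lit 0x7888706861a) (nat_lit 0) (p (nat_lit 0x800070686078a) (nat_lit 0) (p (nat_lit 0x800068605850a) (nat_lit 0) (p (nat_lit 0x705850682) (nat_lit 0) (p (nat_lit 0x685048402) (nat_lit 0) (p (nat_lit 0x160014) (nat_lit 0) (p (nat_lit 0x16000c) (nat_lit 0) (p (nat_lit 0x60592) (nat_lit 0) (p (nat_lit 0x48512) (nat_lit 0) (p (nat_lit 0x50392) (nat_lit 0) (p (nat_lit 0x38312) (nat_lit 0) (p (nat_lit 0x40212) (nat_lit 0) (p (nat_lit 0x28192) (nat_lit 0) (p (nat_lit 0x30092) (nat_lit 0) (p (nat_lit 0x18012) (nat_lit 0) pn)))))))))))))))))))) :=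
  Cl.node (nat_lit 0x101) (nat_lit 2) (by decide +kernel) (ClAll.succ (ClAll.succ ClAll.zero n190) n191)

def n208 : Cl (O (nat_lit 1)) (R (nat_lit 6353))
    (p (nat_lit 0x119) (nat_lit 1) (p (nat_lit 0xd1) (nat_lit 0) (p (nat_lit 0x81) (nat_lit 0) (p (nat_lit 0x41) (nat_lit 1) (p (nat_lit 0x8090787089a) (nat_lit 0) (p (nat_lit 0x7888706861a) (nat_lit 0) (p (nat_lit 0x800070686078a) (nat_lit 0) (p (nat_lit 0x800068605850a) (nat_lit 0) (p (nat_lit 0x705850682) (nat_lit 0) (p (nat_lit 0x685048402) (nat_lit 0) (p (nat_lit 0x160014) (nat_lit 0) (p (nat_lit 0x16000c) (nat_lit 0) (p (nat_lit 0x60592) (nat_lit 0) (p (nat_lit 0x48512) (nat_lit 0) (p (nat_lit 0x50392) (nat_lit 0) (p (nat_lit 0x38312) (nat_lit 0) (p (nat_lit 0x40212) (nat_lit 0) (p (nat_lit 0x28192) (nat_lit 0) (p (nat_lit 0x30092) (nat_lit 0) (p (nat_lit 0x18012) (nat_lit 0) pn)))))))))))))))))))) :=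
  Cl.node (nat_lit 0xc1) (nat_lit 2) (by decide +kernel) (ClAll.succ (ClAll.succ ClAll.zero n192) n193)

def n209 : Cl (O (nat_lit 1)) (R (nat_lit 6353))
    (p (nat_lit 0x111) (nat_lit 0) (p (nat_lit 0xd1) (nat_lit 1) (p (nat_lit 0x81) (nat_lit 0) (p (nat_lit 0x41) (nat_lit 1) (p (nat_lit 0x8090787089a) (nat_lit 0) (p (nat_lit 0x7888706861a) (nat_lit 0) (p (nat_lit 0x800070686078a) (nat_lit 0) (p (nat_lit 0x800068605850a) (nat_lit 0) (p (nat_lit 0x705850682) (nat_lit 0) (p (nat_lit 0x685048402) (nat_lit 0) (p (nat_lit 0x160014) (nat_lit 0) (p (nat_lit 0x16000c) (nat_lit 0) (p (nat_lit 0x60592) (nat_lit 0) (p (nat_lit 0x48512) (nat_lit 0) (p (nat_lit 0x50392) (nat_lit 0) (p (nat_lit 0x38312) (nat_lit 0) (p (nat_lit 0x40212) (nat_lit 0) (p (nat_lit 0x28192) (nat_lit 0) (p (nat_lit 0x30092) (nat_lit 0) (p (nat_lit 0x18012) (nat_lit 0) pn)))))))))))))))))))) :=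
  Cl.node (nat_lit 0x101) (nat_lit 2) (by decide +kernel) (ClAll.succ (ClAll.succ ClAll.zero n194) n195)

def n210 : Cl (O (nat_lit 1)) (R (nat_lit 6353))
    (p (nat_lit 0x111) (nat_lit 1) (p (nat_lit 0xd1) (nat_lit 1) (p (nat_lit 0x81) (nat_lit 0) (p (nat_lit 0x41) (nat_lit 1) (p (nat_lit 0x8090787089a) (nat_lit 0) (p (nat_lit 0x7888706861a) (nat_lit 0) (p (nat_lit 0x800070686078a) (nat_lit 0) (p (nat_lit 0x800068605850a) (nat_lit 0) (p (nat_lit 0x705850682) (nat_lit 0) (p (nat_lit 0x685048402) (nat_lit 0) (p (nat_lit 0x160014) (nat_lit 0) (p (nat_lit 0x16000c) (nat_lit 0) (p (nat_lit 0x60592) (nat_lit 0) (p (nat_lit 0x48512) (nat_lit 0) (p (nat_lit 0x50392) (nat_lit 0) (p (nat_lit 0x38312) (nat_lit 0) (p (nat_lit 0x40212) (nat_lit 0) (p (nat_lit 0x28192) (nat_lit 0) (p (nat_lit 0x30092) (nat_lit 0) (p (nat_lit 0x18012) (nat_lit 0) pn)))))))))))))))))))) :=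
  Cl.node (nat_lit 0x89) (nat_lit 2) (by decide +kernel) (ClAll.succ (ClAll.succ ClAll.zero s158) n196)

def n211 : Cl (O (nat_lit 1)) (R (nat_lit 6353))
    (p (nat_lit 0x119) (nat_lit 0) (p (nat_lit 0xc1) (nat_lit 0) (p (nat_lit 0x81) (nat_lit 1) (p (nat_lit 0x41) (nat_lit 1) (p (nat_lit 0x8090787089a) (nat_lit 0) (p (nat_lit 0x7888706861a) (nat_lit 0) (p (nat_lit 0x800070686078a) (nat_lit 0) (p (nat_lit 0x800068605850a) (nat_lit 0) (p (nat_lit 0x705850682) (nat_lit 0) (p (nat_lit 0x685048402) (nat_lit 0) (p (nat_lit 0x160014) (nat_lit 0) (p (nat_lit 0x16000c) (nat_lit 0) (p (nat_lit 0x60592) (nat_lit 0) (p (nat_lit 0x48512) (nat_lit 0) (p (nat_lit 0x50392) (nat_lit 0) (p (nat_lit 0x38312) (nat_lit 0) (p (nat_lit 0x40212) (nat_lit 0) (p (nat_lit 0x28192) (nat_lit 0) (p (nat_lit 0x30092) (nat_lit 0) (p (nat_lit 0x18012) (nat_lit 0) pn)))))))))))))))))))) :=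
  Cl.node (nat_lit 0x101) (nat_lit 2) (by decide +kernel) (ClAll.succ (ClAll.succ ClAll.zero n197) n198)

def n212 : Cl (O (nat_lit 1)) (R (nat_lit 6353))
    (p (nat_lit 0x119) (nat_lit 1) (p (nat_lit 0xc1) (nat_lit 0) (p (nat_lit 0x81) (nat_lit 1) (p (nat_lit 0x41) (nat_lit 1) (p (nat_lit 0x8090787089a) (nat_lit 0) (p (nat_lit 0x7888706861a) (nat_lit 0) (p (nat_lit 0x800070686078a) (nat_lit 0) (p (nat_lit 0x800068605850a) (nat_lit 0) (p (nat_lit 0x705850682) (nat_lit 0) (p (nat_lit 0x685048402) (nat_lit 0) (p (nat_lit 0x160014) (nat_lit 0) (p (nat_lit 0x16000c) (nat_lit 0) (p (nat_lit 0x60592) (nat_lit 0) (p (nat_lit 0x48512) (nat_lit 0) (p (nat_lit 0x50392) (nat_lit 0) (p (nat_lit 0x38312) (nat_lit 0) (p (nat_lit 0x40212) (nat_lit 0) (p (nat_lit 0x28192) (nat_lit 0) (p (nat_lit 0x30092) (nat_lit 0) (p (nat_lit 0x18012) (nat_lit 0) pn)))))))))))))))))))) :=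
  Cl.node (nat_lit 0xc9) (nat_lit 2) (by decide +kernel) (ClAll.succ (ClAll.succ ClAll.zero n199) n200)

def n213 : Cl (O (nat_lit 1)) (R (nat_lit 6353))
    (p (nat_lit 0xd1) (nat_lit 0) (p (nat_lit 0x89) (nat_lit 0) (p (nat_lit 0x41) (nat_lit 0) (p (nat_lit 0x8090787089a) (nat_lit 0) (p (nat_lit 0x7888706861a) (nat_lit 0) (p (nat_lit 0x800070686078a) (nat_lit 0) (p (nat_lit 0x800068605850a) (nat_lit 0) (p (nat_lit 0x705850682) (nat_lit 0) (p (nat_lit 0x685048402) (nat_lit 0) (p (nat_lit 0x160014) (nat_lit 0) (p (nat_lit 0x16000c) (nat_lit 0) (p (nat_lit 0x60592) (nat_lit 0) (p (nat_lit 0x48512) (nat_lit 0) (p (nat_lit 0x50392) (nat_lit 0) (p (nat_lit 0x38312) (nat_lit 0) (p (nat_lit 0x40212) (nat_lit 0) (p (nat_lit 0x28192) (nat_lit 0) (p (nat_lit 0x30092) (nat_lit 0) (p (nat_lit 0x18012) (nat_lit 0) pn))))))))))))))))))) :=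
  Cl.node (nat_lit 0x119) (nat_lit 2) (by decide +kernel) (ClAll.succ (ClAll.succ ClAll.zero n201) n202)

def n214 : Cl (O (nat_lit 1)) (R (nat_lit 6353))
    (p (nat_lit 0xd1) (nat_lit 1) (p (nat_lit 0x89) (nat_lit 0) (p (nat_lit 0x41) (nat_lit 0) (p (nat_lit 0x8090787089a) (nat_lit 0) (p (nat_lit 0x7888706861a) (nat_lit 0) (p (nat_lit 0x800070686078a) (nat_lit 0) (p (nat_lit 0x800068605850a) (nat_lit 0) (p (nat_lit 0x705850682) (nat_lit 0) (p (nat_lit 0x685048402) (nat_lit 0) (p (nat_lit 0x160014) (nat_lit 0) (p (nat_lit 0x16000c) (nat_lit 0) (p (nat_lit 0x60592) (nat_lit 0) (p (nat_lit 0x48512) (nat_lit 0) (p (nat_lit 0x50392) (nat_lit 0) (p (nat_lit 0x38312) (nat_lit 0) (p (nat_lit 0x40212) (nat_lit 0) (p (nat_lit 0x28192) (nat_lit 0) (p (nat_lit 0x30092) (nat_lit 0) (p (nat_lit 0x18012) (nat_lit 0) pn))))))))))))))))))) :=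
  Cl.node (nat_lit 0x111) (nat_lit 2) (by decide +kernel) (ClAll.succ (ClAll.succ ClAll.zero n203) n204)

def n215 : Cl (O (nat_lit 1)) (R (nat_lit 6353))
    (p (nat_lit 0xc9) (nat_lit 0) (p (nat_lit 0x89) (nat_lit 1) (p (nat_lit 0x41) (nat_lit 0) (p (nat_lit 0x8090787089a) (nat_lit 0) (p (nat_lit 0x7888706861a) (nat_lit 0) (p (nat_lit 0x800070686078a) (nat_lit 0) (p (nat_lit 0x800068605850a) (nat_lit 0) (p (nat_lit 0x705850682) (nat_lit 0) (p (nat_lit 0x685048402) (nat_lit 0) (p (nat_lit 0x160014) (nat_lit 0) (p (nat_lit 0x16000c) (nat_lit 0) (p (nat_lit 0x60592) (nat_lit 0) (p (nat_lit 0x48512) (nat_lit 0) (p (nat_lit 0x50392) (nat_lit 0) (p (nat_lit 0x38312) (nat_lit 0) (p (nat_lit 0x40212) (nat_lit 0) (p (nat_lit 0x28192) (nat_lit 0) (p (nat_lit 0x30092) (nat_lit 0) (p (nat_lit 0x18012) (nat_lit 0) pn))))))))))))))))))) :=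
  Cl.node (nat_lit 0x119) (nat_lit 2) (by decide +kernel) (ClAll.succ (ClAll.succ ClAll.zero n205) n206)

def n216 : Cl (O (nat_lit 1)) (R (nat_lit 6353))
    (p (nat_lit 0xd1) (nat_lit 0) (p (nat_lit 0x81) (nat_lit 0) (p (nat_lit 0x41) (nat_lit 1) (p (nat_lit 0x8090787089a) (nat_lit 0) (p (nat_lit 0x7888706861a) (nat_lit 0) (p (nat_lit 0x800070686078a) (nat_lit 0) (p (nat_lit 0x800068605850a) (nat_lit 0) (p (nat_lit 0x705850682) (nat_lit 0) (p (nat_lit 0x685048402) (nat_lit 0) (p (nat_lit 0x160014) (nat_lit 0) (p (nat_lit 0x16000c) (nat_lit 0) (p (nat_lit 0x60592) (nat_lit 0) (p (nat_lit 0x48512) (nat_lit 0) (p (nat_lit 0x50392) (nat_lit 0) (p (nat_lit 0x38312) (nat_lit 0) (p (nat_lit 0x40212) (nat_lit 0) (p (nat_lit 0x28192) (nat_lit 0) (p (nat_lit 0x30092) (nat_lit 0) (p (nat_lit 0x18012) (nat_lit 0) pn))))))))))))))))))) :=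
  Cl.node (nat_lit 0x119) (nat_lit 2) (by decide +kernel) (ClAll.succ (ClAll.succ ClAll.zero n207) n208)

def n217 : Cl (O (nat_lit 1)) (R (nat_lit 6353))
    (p (nat_lit 0xd1) (nat_lit 1) (p (nat_lit 0x81) (nat_lit 0) (p (nat_lit 0x41) (nat_lit 1) (p (nat_lit 0x8090787089a) (nat_lit 0) (p (nat_lit 0x7888706861a) (nat_lit 0) (p (nat_lit 0x800070686078a) (nat_lit 0) (p (nat_lit 0x800068605850a) (nat_lit 0) (p (nat_lit 0x705850682) (nat_lit 0) (p (nat_lit 0x685048402) (nat_lit 0) (p (nat_lit 0x160014) (nat_lit 0) (p (nat_lit 0x16000c) (nat_lit 0) (p (nat_lit 0x60592) (nat_lit 0) (p (nat_lit 0x48512) (nat_lit 0) (p (nat_lit 0x50392) (nat_lit 0) (p (nat_lit 0x38312) (nat_lit 0) (p (nat_lit 0x40212) (nat_lit 0) (p (nat_lit 0x28192) (nat_lit 0) (p (nat_lit 0x30092) (nat_lit 0) (p (nat_lit 0x18012) (nat_lit 0) pn))))))))))))))))))) :=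
  Cl.node (nat_lit 0x111) (nat_lit 2) (by decide +kernel) (ClAll.succ (ClAll.succ ClAll.zero n209) n210)

def n218 : Cl (O (nat_lit 1)) (R (nat_lit 6353))
    (p (nat_lit 0xc1) (nat_lit 0) (p (nat_lit 0x81) (nat_lit 1) (p (nat_lit 0x41) (nat_lit 1) (p (nat_lit 0x8090787089a) (nat_lit 0) (p (nat_lit 0x7888706861a) (nat_lit 0) (p (nat_lit 0x800070686078a) (nat_lit 0) (p (nat_lit 0x800068605850a) (nat_lit 0) (p (nat_lit 0x705850682) (nat_lit 0) (p (nat_lit 0x685048402) (nat_lit 0) (p (nat_lit 0x160014) (nat_lit 0) (p (nat_lit 0x16000c) (nat_lit 0) (p (nat_lit 0x60592) (nat_lit 0) (p (nat_lit 0x48512) (nat_lit 0) (p (nat_lit 0x50392) (nat_lit 0) (p (nat_lit 0x38312) (nat_lit 0) (p (nat_lit 0x40212) (nat_lit 0) (p (nat_lit 0x28192) (nat_lit 0) (p (nat_lit 0x30092) (nat_lit 0) (p (nat_lit 0x18012) (nat_lit 0) pn))))))))))))))))))) :=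
  Cl.node (nat_lit 0x119) (nat_lit 2) (by decide +kernel) (ClAll.succ (ClAll.succ ClAll.zero n211) n212)

def n219 : Cl (O (nat_lit 1)) (R (nat_lit 6353))
    (p (nat_lit 0x89) (nat_lit 0) (p (nat_lit 0x41) (nat_lit 0) (p (nat_lit 0x8090787089a) (nat_lit 0) (p (nat_lit 0x7888706861a) (nat_lit 0) (p (nat_lit 0x800070686078a) (nat_lit 0) (p (nat_lit 0x800068605850a) (nat_lit 0) (p (nat_lit 0x705850682) (nat_lit 0) (p (nat_lit 0x685048402) (nat_lit 0) (p (nat_lit 0x160014) (nat_lit 0) (p (nat_lit 0x16000c) (nat_lit 0) (p (nat_lit 0x60592) (nat_lit 0) (p (nat_lit 0x48512) (nat_lit 0) (p (nat_lit 0x50392) (nat_lit 0) (p (nat_lit 0x38312) (nat_lit 0) (p (nat_lit 0x40212) (nat_lit 0) (p (nat_lit 0x28192) (nat_lit 0) (p (nat_lit 0x30092) (nat_lit 0) (p (nat_lit 0x18012) (nat_lit 0) pn)))))))))))))))))) :=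
  Cl.node (nat_lit 0xd1) (nat_lit 2) (by decide +kernel) (ClAll.succ (ClAll.succ ClAll.zero n213) n214)

def n220 : Cl (O (nat_lit 1)) (R (nat_lit 6353))
    (p (nat_lit 0x89) (nat_lit 1) (p (nat_lit 0x41) (nat_lit 0) (p (nat_lit 0x8090787089a) (nat_lit 0) (p (nat_lit 0x7888706861a) (nat_lit 0) (p (nat_lit 0x800070686078a) (nat_lit 0) (p (nat_lit 0x800068605850a) (nat_lit 0) (p (nat_lit 0x705850682) (nat_lit 0) (p (nat_lit 0x685048402) (nat_lit 0) (p (nat_lit 0x160014) (nat_lit 0) (p (nat_lit 0x16000c) (nat_lit 0) (p (nat_lit 0x60592) (nat_lit 0) (p (nat_lit 0x48512) (nat_lit 0) (p (nat_lit 0x50392) (nat_lit 0) (p (nat_lit 0x38312) (nat_lit 0) (p (nat_lit 0x40212) (nat_lit 0) (p (nat_lit 0x28192) (nat_lit 0) (p (nat_lit 0x30092) (nat_lit 0) (p (nat_lit 0x18012) (nat_lit 0) pn)))))))))))))))))) :=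
  Cl.node (nat_lit 0xc9) (nat_lit 2) (by decide +kernel) (ClAll.succ (ClAll.succ ClAll.zero n215) s85)

def n221 : Cl (O (nat_lit 1)) (R (nat_lit 6353))
    (p (nat_lit 0x81) (nat_lit 0) (p (nat_lit 0x41) (nat_lit 1) (p (nat_lit 0x8090787089a) (nat_lit 0) (p (nat_lit 0x7888706861a) (nat_lit 0) (p (nat_lit 0x800070686078a) (nat_lit 0) (p (nat_lit 0x800068605850a) (nat_lit 0) (p (nat_lit 0x705850682) (nat_lit 0) (p (nat_lit 0x685048402) (nat_lit 0) (p (nat_lit 0x160014) (nat_lit 0) (p (nat_lit 0x16000c) (nat_lit 0) (p (nat_lit 0x60592) (nat_lit 0) (p (nat_lit 0x48512) (nat_lit 0) (p (nat_lit 0x50392) (nat_lit 0) (p (nat_lit 0x38312) (nat_lit 0) (p (nat_lit 0x40212) (nat_lit 0) (p (nat_lit 0x28192) (nat_lit 0) (p (nat_lit 0x30092) (nat_lit 0) (p (nat_lit 0x18012) (nat_lit 0) pn)))))))))))))))))) :=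
  Cl.node (nat_lit 0xd1) (nat_lit 2) (by decide +kernel) (ClAll.succ (ClAll.succ ClAll.zero n216) n217)

def n222 : Cl (O (nat_lit 1)) (R (nat_lit 6353))
    (p (nat_lit 0x81) (nat_lit 1) (p (nat_lit 0x41) (nat_lit 1) (p (nat_lit 0x8090787089a) (nat_lit 0) (p (nat_lit 0x7888706861a) (nat_lit 0) (p (nat_lit 0x800070686078a) (nat_lit 0) (p (nat_lit 0x800068605850a) (nat_lit 0) (p (nat_lit 0x705850682) (nat_lit 0) (p (nat_lit 0x685048402) (nat_lit 0) (p (nat_lit 0x160014) (nat_lit 0) (p (nat_lit 0x16000c) (nat_lit 0) (p (nat_lit 0x60592) (nat_lit 0) (p (nat_lit 0x48512) (nat_lit 0) (p (nat_lit 0x50392) (nat_lit 0) (p (nat_lit 0x38312) (nat_lit 0) (p (nat_lit 0x40212) (nat_lit 0) (p (nat_lit 0x28192) (nat_lit 0) (p (nat_lit 0x30092) (nat_lit 0) (p (nat_lit 0x18012) (nat_lit 0) pn)))))))))))))))))) :=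
  Cl.node (nat_lit 0xc1) (nat_lit 2) (by decide +kernel) (ClAll.succ (ClAll.succ ClAll.zero n218) s186)

def n223 : Cl (O (nat_lit 1)) (R (nat_lit 6353))
    (p (nat_lit 0x41) (nat_lit 0) (p (nat_lit 0x8090787089a) (nat_lit 0) (p (nat_lit 0x7888706861a) (nat_lit 0) (p (nat_lit 0x800070686078a) (nat_lit 0) (p (nat_lit 0x800068605850a) (nat_lit 0) (p (nat_lit 0x705850682) (nat_lit 0) (p (nat_lit 0x685048402) (nat_lit 0) (p (nat_lit 0x160014) (nat_lit 0) (p (nat_lit 0x16000c) (nat_lit 0) (p (nat_lit 0x60592) (nat_lit 0) (p (nat_lit 0x48512) (nat_lit 0) (p (nat_lit 0x50392) (nat_lit 0) (p (nat_lit 0x38312) (nat_lit 0) (p (nat_lit 0x40212) (nat_lit 0) (p (nat_lit 0x28192) (nat_lit 0) (p (nat_lit 0x30092) (nat_lit 0) (p (nat_lit 0x18012) (nat_lit 0) pn))))))))))))))))) :=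
  Cl.node (nat_lit 0x89) (nat_lit 2) (by decide +kernel) (ClAll.succ (ClAll.succ ClAll.zero n219) n220)

def n224 : Cl (O (nat_lit 1)) (R (nat_lit 6353))
    (p (nat_lit 0x41) (nat_lit 1) (p (nat_lit 0x8090787089a) (nat_lit 0) (p (nat_lit 0x7888706861a) (nat_lit 0) (p (nat_lit 0x800070686078a) (nat_lit 0) (p (nat_lit 0x800068605850a) (nat_lit 0) (p (nat_lit 0x705850682) (nat_lit 0) (p (nat_lit 0x685048402) (nat_lit 0) (p (nat_lit 0x160014) (nat_lit 0) (p (nat_lit 0x16000c) (nat_lit 0) (p (nat_lit 0x60592) (nat_lit 0) (p (nat_lit 0x48512) (nat_lit 0) (p (nat_lit 0x50392) (nat_lit 0) (p (nat_lit 0x38312) (nat_lit 0) (p (nat_lit 0x40212) (nat_lit 0) (p (nat_lit 0x28192) (nat_lit 0) (p (nat_lit 0x30092) (nat_lit 0) (p (nat_lit 0x18012) (nat_lit 0) pn))))))))))))))))) :=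
  Cl.node (nat_lit 0x81) (nat_lit 2) (by decide +kernel) (ClAll.succ (ClAll.succ ClAll.zero n221) n222)

def n225 : Cl (O (nat_lit 1)) (R (nat_lit 6353))
    (p (nat_lit 0x8090787089a) (nat_lit 0) (p (nat_lit 0x7888706861a) (nat_lit 0) (p (nat_lit 0x800070686078a) (nat_lit 0) (p (nat_lit 0x800068605850a) (nat_lit 0) (p (nat_lit 0x705850682) (nat_lit 0) (p (nat_lit 0x685048402) (nat_lit 0) (p (nat_lit 0x160014) (nat_lit 0) (p (nat_lit 0x16000c) (nat_lit 0) (p (nat_lit 0x60592) (nat_lit 0) (p (nat_lit 0x48512) (nat_lit 0) (p (nat_lit 0x50392) (nat_lit 0) (p (nat_lit 0x38312) (nat_lit 0) (p (nat_lit 0x40212) (nat_lit 0) (p (nat_lit 0x28192) (nat_lit 0) (p (nat_lit 0x30092) (nat_lit 0) (p (nat_lit 0x18012) (nat_lit 0) pn)))))))))))))))) :=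
  Cl.node (nat_lit 0x41) (nat_lit 2) (by decide +kernel) (ClAll.succ (ClAll.succ ClAll.zero n223) n224)

def n226 : Cl (O (nat_lit 1)) (R (nat_lit 6353))
    (p (nat_lit 0x7888706861a) (nat_lit 0) (p (nat_lit 0x800070686078a) (nat_lit 0) (p (nat_lit 0x800068605850a) (nat_lit 0) (p (nat_lit 0x705850682) (nat_lit 0) (p (nat_lit 0x685048402) (nat_lit 0) (p (nat_lit 0x160014) (nat_lit 0) (p (nat_lit 0x16000c) (nat_lit 0) (p (nat_lit 0x60592) (nat_lit 0) (p (nat_lit 0x48512) (nat_lit 0) (p (nat_lit 0x50392) (nat_lit 0) (p (nat_lit 0x38312) (nat_lit 0) (p (nat_lit 0x40212) (nat_lit 0) (p (nat_lit 0x28192) (nat_lit 0) (p (nat_lit 0x30092) (nat_lit 0) (p (nat_lit 0x18012) (nat_lit 0) pn))))))))))))))) :=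
  Cl.node (nat_lit 0x8090787089a) (nat_lit 1) (by decide +kernel) (ClAll.succ ClAll.zero n225)

def n227 : Cl (O (nat_lit 1)) (R (nat_lit 6353))
    (p (nat_lit 0x800070686078a) (nat_lit 0) (p (nat_lit 0x800068605850a) (nat_lit 0) (p (nat_lit 0x705850682) (nat_lit 0) (p (nat_lit 0x685048402) (nat_lit 0) (p (nat_lit 0x160014) (nat_lit 0) (p (nat_lit 0x16000c) (nat_lit 0) (p (nat_lit 0x60592) (nat_lit 0) (p (nat_lit 0x48512) (nat_lit 0) (p (nat_lit 0x50392) (nat_lit 0) (p (nat_lit 0x38312) (nat_lit 0) (p (nat_lit 0x40212) (nat_lit 0) (p (nat_lit 0x28192) (nat_lit 0) (p (nat_lit 0x30092) (nat_lit 0) (p (nat_lit 0x18012) (nat_lit 0) pn)))))))))))))) :=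
  Cl.node (nat_lit 0x7888706861a) (nat_lit 1) (by decide +kernel) (ClAll.succ ClAll.zero n226)

def n228 : Cl (O (nat_lit 1)) (R (nat_lit 6353))
    (p (nat_lit 0x800068605850a) (nat_lit 0) (p (nat_lit 0x705850682) (nat_lit 0) (p (nat_lit 0x685048402) (nat_lit 0) (p (nat_lit 0x160014) (nat_lit 0) (p (nat_lit 0x16000c) (nat_lit 0) (p (nat_lit 0x60592) (nat_lit 0) (p (nat_lit 0x48512) (nat_lit 0) (p (nat_lit 0x50392) (nat_lit 0) (p (nat_lit 0x38312) (nat_lit 0) (p (nat_lit 0x40212) (nat_lit 0) (p (nat_lit 0x28192) (nat_lit 0) (p (nat_lit 0x30092) (nat_lit 0) (p (nat_lit 0x18012) (nat_lit 0) pn))))))))))))) :=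
  Cl.node (nat_lit 0x800070686078a) (nat_lit 1) (by decide +kernel) (ClAll.succ ClAll.zero n227)

def n229 : Cl (O (nat_lit 1)) (R (nat_lit 6353))
    (p (nat_lit 0x705850682) (nat_lit 0) (p (nat_lit 0x685048402) (nat_lit 0) (p (nat_lit 0x160014) (nat_lit 0) (p (nat_lit 0x16000c) (nat_lit 0) (p (nat_lit 0x60592) (nat_lit 0) (p (nat_lit 0x48512) (nat_lit 0) (p (nat_lit 0x50392) (nat_lit 0) (p (nat_lit 0x38312) (nat_lit 0) (p (nat_lit 0x40212) (nat_lit 0) (p (nat_lit 0x28192) (nat_lit 0) (p (nat_lit 0x30092) (nat_lit 0) (p (nat_lit 0x18012) (nat_lit 0) pn)))))))))))) :=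
  Cl.node (nat_lit 0x800068605850a) (nat_lit 1) (by decide +kernel) (ClAll.succ ClAll.zero n228)

def n230 : Cl (O (nat_lit 1)) (R (nat_lit 6353))
    (p (nat_lit 0x685048402) (nat_lit 0) (p (nat_lit 0x160014) (nat_lit 0) (p (nat_lit 0x16000c) (nat_lit 0) (p (nat_lit 0x60592) (nat_lit 0) (p (nat_lit 0x48512) (nat_lit 0) (p (nat_lit 0x50392) (nat_lit 0) (p (nat_lit 0x38312) (nat_lit 0) (p (nat_lit 0x40212) (nat_lit 0) (p (nat_lit 0x28192) (nat_lit 0) (p (nat_lit 0x30092) (nat_lit 0) (p (nat_lit 0x18012) (nat_lit 0) pn))))))))))) :=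
  Cl.node (nat_lit 0x705850682) (nat_lit 1) (by decide +kernel) (ClAll.succ ClAll.zero n229)

def n231 : Cl (O (nat_lit 1)) (R (nat_lit 6353))
    (p (nat_lit 0x160014) (nat_lit 0) (p (nat_lit 0x16000c) (nat_lit 0) (p (nat_lit 0x60592) (nat_lit 0) (p (nat_lit 0x48512) (nat_lit 0) (p (nat_lit 0x50392) (nat_lit 0) (p (nat_lit 0x38312) (nat_lit 0) (p (nat_lit 0x40212) (nat_lit 0) (p (nat_lit 0x28192) (nat_lit 0) (p (nat_lit 0x30092) (nat_lit 0) (p (nat_lit 0x18012) (nat_lit 0) pn)))))))))) :=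
  Cl.node (nat_lit 0x685048402) (nat_lit 1) (by decide +kernel) (ClAll.succ ClAll.zero n230)

def n232 : Cl (O (nat_lit 1)) (R (nat_lit 6353))
    (p (nat_lit 0x16000c) (nat_lit 0) (p (nat_lit 0x60592) (nat_lit 0) (p (nat_lit 0x48512) (nat_lit 0) (p (nat_lit 0x50392) (nat_lit 0) (p (nat_lit 0x38312) (nat_lit 0) (p (nat_lit 0x40212) (nat_lit 0) (p (nat_lit 0x28192) (nat_lit 0) (p (nat_lit 0x30092) (nat_lit 0) (p (nat_lit 0x18012) (nat_lit 0) pn))))))))) :=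
  Cl.node (nat_lit 0x160014) (nat_lit 2) (by decide +kernel) (ClAll.succ (ClAll.succ ClAll.zero n231) s187)

def n233 : Cl (O (nat_lit 1)) (R (nat_lit 6353))
    (p (nat_lit 0x60592) (nat_lit 0) (p (nat_lit 0x48512) (nat_lit 0) (p (nat_lit 0x50392) (nat_lit 0) (p (nat_lit 0x38312) (nat_lit 0) (p (nat_lit 0x40212) (nat_lit 0) (p (nat_lit 0x28192) (nat_lit 0) (p (nat_lit 0x30092) (nat_lit 0) (p (nat_lit 0x18012) (nat_lit 0) pn)))))))) :=
  Cl.node (nat_lit 0x16000c) (nat_lit 2) (by decide +kernel) (ClAll.succ (ClAll.succ ClAll.zero n232) s188)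

def n234 : Cl (O (nat_lit 1)) (R (nat_lit 6353))
    (p (nat_lit 0x48512) (nat_lit 0) (p (nat_lit 0x50392) (nat_lit 0) (p (nat_lit 0x38312) (nat_lit 0) (p (nat_lit 0x40212) (nat_lit 0) (p (nat_lit 0x28192) (nat_lit 0) (p (nat_lit 0x30092) (nat_lit 0) (p (nat_lit 0x18012) (nat_lit 0) pn))))))) :=
  Cl.node (nat_lit 0x60592) (nat_lit 1) (by decide +kernel) (ClAll.succ ClAll.zero n233)

def n235 : Cl (O (nat_lit 1)) (R (nat_lit 6353))
    (p (nat_lit 0x50392) (nat_lit 0) (p (nat_lit 0x38312) (nat_lit 0) (p (nat_lit 0x40212) (nat_lit 0) (p (nat_lit 0x28192) (nat_lit 0) (p (nat_lit 0x30092) (nat_lit 0) (p (nat_lit 0x18012) (nat_lit 0) pn)))))) :=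
  Cl.node (nat_lit 0x48512) (nat_lit 1) (by decide +kernel) (ClAll.succ ClAll.zero n234)

def n236 : Cl (O (nat_lit 1)) (R (nat_lit 6353))
    (p (nat_lit 0x38312) (nat_lit 0) (p (nat_lit 0x40212) (nat_lit 0) (p (nat_lit 0x28192) (nat_lit 0) (p (nat_lit 0x30092) (nat_lit 0) (p (nat_lit 0x18012) (nat_lit 0) pn))))) :=
  Cl.node (nat_lit 0x50392) (nat_lit 1) (by decide +kernel) (ClAll.succ ClAll.zero n235)

def n237 : Cl (O (nat_lit 1)) (R (nat_lit 6353))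
    (p (nat_lit 0x40212) (nat_lit 0) (p (nat_lit 0x28192) (nat_lit 0) (p (nat_lit 0x30092) (nat_lit 0) (p (nat_lit 0x18012) (nat_lit 0) pn)))) :=
  Cl.node (nat_lit 0x38312) (nat_lit 1) (by decide +kernel) (ClAll.succ ClAll.zero n236)

def n238 : Cl (O (nat_lit 1)) (R (nat_lit 6353))
    (p (nat_lit 0x28192) (nat_lit 0) (p (nat_lit 0x30092) (nat_lit 0) (p (nat_lit 0x18012) (nat_lit 0) pn))) :=
  Cl.node (nat_lit 0x40212) (nat_lit 1) (by decide +kernel) (ClAll.succ ClAll.zero n237)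

def n239 : Cl (O (nat_lit 1)) (R (nat_lit 6353))
    (p (nat_lit 0x30092) (nat_lit 0) (p (nat_lit 0x18012) (nat_lit 0) pn)) :=
  Cl.node (nat_lit 0x28192) (nat_lit 1) (by decide +kernel) (ClAll.succ ClAll.zero n238)

def n240 : Cl (O (nat_lit 1)) (R (nat_lit 6353))
    (p (nat_lit 0x18012) (nat_lit 0) pn) :=
  Cl.node (nat_lit 0x30092) (nat_lit 1) (by decide +kernel) (ClAll.succ ClAll.zero n239)

def n241 : Cl (O (nat_lit 1)) (R (nat_lit 6353))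
    pn :=
  Cl.node (nat_lit 0x18012) (nat_lit 1) (by decide +kernel) (ClAll.succ ClAll.zero n240)

theorem top : Cl (O (nat_lit 1)) (R (nat_lit 6353)) pn := n241

end Pool.Agent.Gen.F5.X123D1Cm1
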